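import Pool.Agent.Run7.h8.RO.Main

/-!
# Sets of tuples
-/

set_option autoImplicit false

namespace Run7.h8.RO

/-- The tuples `(n_1, ..., n_r)`, `0 < n_i < D`, such that the product of the numbers `Γ (n_i / D)`
is an algebraic multiple of `z`. -/
def AlgTuples (D r : ℕ) (z : ℂ) : Set (Fin r → ℕ) :=
  {n | (∀ i, 0 < n i ∧ n i < D) ∧
    ∃ α : ℂ, IsAlgebraic ℚ α ∧ ∏ i, Complex.Gamma ((n i : ℂ) / D) = α * z}

/-- The tuples `(n_1, ..., n_r)`, `0 < n_i < D`, such that Rohrlich's conjecture fails for the tuple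
`(n_1 / D, ..., n_r / D)` with the common denominator `D`. -/
def FailTuples (D r : ℕ) : Set (Fin r → ℕ) :=
  {n | (∀ i, 0 < n i ∧ n i < D) ∧
    ¬ (AlgMultiple (fun i => (n i : ℚ) / D) ↔ Identity D (fun i => (n i : ℚ) / D))}

/-- The number `1 + 4 (D / φ(D)) ^ 3 (1 + log D) ^ 4`. -/
noncomputable def factor (D : ℕ) : ℝ := 1 + 4 * ((D : ℝ) / D.totient) ^ 3 * (1 + Real.log D) ^ 4

end Run7.h8.RO
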