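import Pool.Agent.Run7.h8.RO.Rel

/-!
# Relations between values of the Gamma function: the cyclotomic field is removed
-/

set_option autoImplicit false
set_option linter.unusedSectionVars false
set_option linter.unusedVariables false

namespace Run7.h8.RO

open NumberField Pool.Agent.H204R3.CM Pool.Agent.W547.KB Pool.Agent.W537.PC Pool.Agent.W527.Vec

noncomputable section

theorem cyclo (D : ℕ) (h : D ≠ 0) : IsCyclotomicExtension {D} ℚ (CyclotomicField D ℚ) ∧
    NumberField (CyclotomicField D ℚ) := by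
  have : NeZero ((D : ℕ) : ℚ) := ⟨by exact_mod_cast h⟩
  have : NeZero (D : ℕ) := ⟨h⟩
  have h0 := CyclotomicField.isCyclotomicExtension D ℚ
  have h3 : @IsCyclotomicExtension {D} ℚ (CyclotomicField D ℚ) _ _ DivisionRing.toRatAlgebra := by
    convert h0
    · rfl
    · exact Subsingleton.elim _ _
  have h4 : NumberField (CyclotomicField D ℚ) := by
    have := IsCyclotomicExtension.numberField {D} ℚ (CyclotomicField D ℚ)
    exact this
  exact ⟨h3, h4⟩

theorem exists_field_aux (D : ℕ) (hD0 : D ≠ 0) (L : Type) [Field L] [NumberField L] [IsCMField L]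
    [IsGalois ℚ L] [IsCyclotomicExtension {D} ℚ L] :
    ∃ (j : L →+* ℂ) (z : L), IsPrimitiveRoot z D ∧ Algebra.adjoin ℚ {z} = ⊤ ∧ j z = root D 1 ∧
        ∀ t : ℤ, IsCoprime t (D : ℤ) → ∃ σ : L ≃ₐ[ℚ] L, j (σ z) = root D t := by
  have : NeZero D := ⟨hD0⟩
  have hz := IsCyclotomicExtension.zeta_spec D ℚ L
  have hirr : Irreducible (Polynomial.cyclotomic D ℚ) :=
    Polynomial.cyclotomic.irreducible_rat (Nat.pos_of_ne_zero hD0)
  have hemb : ∀ t : ℤ, IsCoprime t (D : ℤ) → ∃ φ : L →+* ℂ,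
      φ (IsCyclotomicExtension.zeta D ℚ L) = root D t := by
    intro t ht
    have h1 : root D t ∈ primitiveRoots D ℂ :=
      (mem_primitiveRoots (Nat.pos_of_ne_zero hD0)).2 (root_primitive (Nat.pos_of_ne_zero hD0) ht)
    let φ := (hz.embeddingsEquivPrimitiveRoots ℂ hirr).symm ⟨root D t, h1⟩
    refine ⟨(φ : L →+* ℂ), ?_⟩
    have h2 := hz.embeddingsEquivPrimitiveRoots_apply_coe ℂ hirr φ
    have h3 : hz.embeddingsEquivPrimitiveRoots ℂ hirr φ = ⟨root D t, h1⟩ :=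
      Equiv.apply_symm_apply _ _
    rw [h3] at h2
    exact h2.symm
  obtain ⟨j, hj⟩ := hemb 1 isCoprime_one_left
  refine ⟨j, IsCyclotomicExtension.zeta D ℚ L, hz, ?_, hj, ?_⟩
  · exact IsCyclotomicExtension.adjoin_primitive_root_eq_top hz
  · intro t ht
    obtain ⟨φ, hφ⟩ := hemb t ht
    obtain ⟨σ, hσ⟩ := comp_surjective j φ
    refine ⟨σ, ?_⟩
    rw [← hφ, ← hσ]
    rfl

theorem exists_field (D : ℕ) (hD : 2 < D) :
    ∃ (L : Type) (_ : Field L) (_ : NumberField L) (_ : IsCMField L) (_ : IsGalois ℚ L)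
      (j : L →+* ℂ) (z : L), IsPrimitiveRoot z D ∧ Algebra.adjoin ℚ {z} = ⊤ ∧ j z = root D 1 ∧
        ∀ t : ℤ, IsCoprime t (D : ℤ) → ∃ σ : L ≃ₐ[ℚ] L, j (σ z) = root D t := by
  obtain ⟨h3, h4⟩ := cyclo D (by omega)
  have h5 : IsCMField (CyclotomicField D ℚ) :=
    IsCyclotomicExtension.Rat.isCMField (CyclotomicField D ℚ) (S := {D}) ⟨D, rfl, hD⟩
  have h6 : IsGalois ℚ (CyclotomicField D ℚ) :=
    IsCyclotomicExtension.isGalois {D} ℚ (CyclotomicField D ℚ)
  exact ⟨CyclotomicField D ℚ, inferInstance, h4, h5, h6,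
    exists_field_aux D (by omega) (CyclotomicField D ℚ)⟩

variable {P : PeriodSystem} {D : ℕ}

/-- Relations with three values are trivial. -/
theorem rel (hD : 2 < D) (hDe : P.Deligne) (hW : Wustholz P) (hF : FermatPeriods P) {K0 : Type}
    [Fintype K0] (n : K0 → ℤ) (hn : ∀ k, ¬ (D : ℤ) ∣ n k) (c : K0 → ℤ)
    (hzero : ∑ k, c k • gv D (n k) = 0) (N : ℤ) (hN : N ≠ 0)
    (hval : ∀ t : ℤ, IsCoprime t (D : ℤ) → ∃ e : ℤ, (e = 0 ∨ e = 1 ∨ e = -1) ∧
      2 * D * ∑ k, c k * bb D (t * n k) = N * e)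
    (t : ℤ) (ht : IsCoprime t (D : ℤ)) : ∑ k, c k * bb D (t * n k) = 0 := by
  obtain ⟨L, _, _, _, _, j, z, hz, hadj, hj, hsur⟩ := exists_field D hD
  exact rel_L j hz hD hadj hj n hn c hDe hW hF hzero N hN hval hsur t ht

/-- The converse (Koblitz, Ogus, Deligne). -/
theorem conv (hD : 2 < D) (hDe : P.Deligne) (hF : FermatPeriods P) {K0 : Type}
    [Fintype K0] (n : K0 → ℤ) (hn : ∀ k, ¬ (D : ℤ) ∣ n k) (c : K0 → ℤ)
    (hval : ∀ t : ℤ, IsCoprime t (D : ℤ) → ∑ k, c k * bb D (t * n k) = 0) :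
    ∑ k, c k • gv D (n k) = 0 := by
  obtain ⟨L, _, _, _, _, j, z, hz, hadj, hj, hsur⟩ := exists_field D hD
  exact conv_L j hz hD hadj hj n hn c hDe hF hval

/-- Relations whose sums take only the values `0, c, -c` are trivial. -/
theorem rel_values (hD : 2 < D) (hDe : P.Deligne) (hW : Wustholz P) (hF : FermatPeriods P)
    {K0 : Type} [Fintype K0] (n : K0 → ℤ) (hn : ∀ k, ¬ (D : ℤ) ∣ n k) (c : K0 → ℤ)
    (hzero : ∑ k, c k • gv D (n k) = 0) (q : ℚ)
    (hval : ∀ t : ℤ, IsCoprime t (D : ℤ) → ∑ k, c k * bb D (t * n k) = 0 ∨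
      ∑ k, c k * bb D (t * n k) = q ∨ ∑ k, c k * bb D (t * n k) = -q)
    (t : ℤ) (ht : IsCoprime t (D : ℤ)) : ∑ k, c k * bb D (t * n k) = 0 := by
  have hD0 : (D : ℚ) ≠ 0 := by
    have : D ≠ 0 := by omega
    exact_mod_cast this
  -- the sums are integers after multiplication by `2 D`
  have hint : ∀ t : ℤ, ∃ y : ℤ, 2 * D * ∑ k, c k * bb D (t * n k) = y := by
    intro t
    have h1 : ∀ k, ∃ y : ℤ, 2 * (D : ℚ) * bb D (t * n k) = y := by
      intro k
      refine ⟨2 * (t * n k) - 2 * D * ⌊((t * n k : ℤ) : ℚ) / D⌋ - D, ?_⟩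
      unfold bb fr Int.fract
      push_cast
      field_simp
    choose y hy using h1
    refine ⟨∑ k, c k * y k, ?_⟩
    rw [Finset.mul_sum]
    push_cast
    refine Finset.sum_congr rfl fun k _ => ?_
    rw [← hy]
    ring
  by_contra hne
  obtain ⟨y, hy⟩ := hint t
  have hy0 : y ≠ 0 := by
    rintro rfl
    rw [Int.cast_zero] at hy
    rcases mul_eq_zero.1 hy with h | h
    · rcases mul_eq_zero.1 h with h | h
      · norm_num at h
      · exact hD0 h
    · exact hne h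
  refine hne (rel hD hDe hW hF n hn c hzero y hy0 ?_ t ht)
  intro u hu
  have h1 : q = ∑ k, c k * bb D (t * n k) ∨ q = -∑ k, c k * bb D (t * n k) := by
    rcases hval t ht with h | h | h
    · exact absurd h hne
    · exact Or.inl h.symm
    · exact Or.inr (by rw [h, neg_neg])
  rcases h1 with h1 | h1 <;> rcases hval u hu with h | h | h
  · exact ⟨0, Or.inl rfl, by rw [h]; push_cast; ring⟩
  · exact ⟨1, Or.inr (Or.inl rfl), by rw [h, h1, hy]; push_cast; ring⟩
  · exact ⟨-1, Or.inr (Or.inr rfl), by rw [h, h1, mul_neg, hy]; push_cast; ring⟩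
  · exact ⟨0, Or.inl rfl, by rw [h]; push_cast; ring⟩
  · exact ⟨-1, Or.inr (Or.inr rfl), by rw [h, h1, mul_neg, hy]; push_cast; ring⟩
  · exact ⟨1, Or.inr (Or.inl rfl), by rw [h, h1, neg_neg, hy]; push_cast; ring⟩

end

end Run7.h8.RO
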