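import Pool.Agent.H916R2.Indep

/-!
# Pairs of residues with the same sawtooth sums
-/

set_option autoImplicit false

namespace Run7.h8.RO

open Finset Pool.Agent.H916R2

variable {p : ℕ} [Fact p.Prime]

theorem SS_inv (χ : DirichletCharacter ℂ p) {x : ZMod p} (hx : x ≠ 0) :
    SS χ x = χ⁻¹ x * SS χ 1 := by
  have h1 := SS_unit χ (Units.mk0 x hx) 1
  rw [mul_one, Units.val_mk0] at h1
  rw [h1, MulChar.inv_apply_eq_inv']

theorem SS_one_ne (χ : DirichletCharacter ℂ p) (hχ : χ.Odd) : SS χ 1 ≠ 0 := by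
  obtain ⟨a, ha⟩ := exists_SS_ne_zero χ hχ
  have ha0 : a ≠ 0 := by
    rintro rfl
    apply ha
    unfold SS
    simp [saw_zero]
  intro h
  rw [SS_inv χ ha0, h, mul_zero] at ha
  exact ha rfl

theorem odd_inv {χ : DirichletCharacter ℂ p} (hχ : χ.Odd) : (χ⁻¹).Odd := by
  unfold DirichletCharacter.Odd at hχ ⊢
  rw [MulChar.inv_apply_eq_inv', hχ]
  norm_num

theorem pair_rigid (hp : 2 < p) {x1 x2 x3 x4 : ZMod p} (h1 : x1 ≠ 0) (h2 : x2 ≠ 0) (h3 : x3 ≠ 0)
    (h4 : x4 ≠ 0) (hs : x1 + x2 ≠ 0)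
    (hrel : ∀ t : (ZMod p)ˣ, saw ((t : ZMod p) * x1) + saw ((t : ZMod p) * x2) =
      saw ((t : ZMod p) * x3) + saw ((t : ZMod p) * x4)) : x1 = x3 ∨ x1 = x4 := by
  classical
  have hSS : ∀ χ : DirichletCharacter ℂ p, SS χ x1 + SS χ x2 = SS χ x3 + SS χ x4 := by
    intro χ
    unfold SS
    rw [← sum_add_distrib, ← sum_add_distrib]
    refine sum_congr rfl fun t _ => ?_
    rw [← mul_add, ← mul_add]
    congr 1
    exact_mod_cast hrel t
  have hodd : ∀ ψ : DirichletCharacter ℂ p, ψ.Odd → ψ x1 + ψ x2 = ψ x3 + ψ x4 := by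
    intro ψ hψ
    have h5 := hSS ψ⁻¹
    rw [SS_inv _ h1, SS_inv _ h2, SS_inv _ h3, SS_inv _ h4, inv_inv, ← add_mul, ← add_mul] at h5
    exact mul_right_cancel₀ (SS_one_ne _ (odd_inv hψ)) h5
  have hall : ∀ ψ : DirichletCharacter ℂ p, ψ x1⁻¹ * (ψ x1 + ψ x2 - ψ x3 - ψ x4 -
      ψ (-x1) - ψ (-x2) + ψ (-x3) + ψ (-x4)) = 0 := by
    intro ψ
    rcases ψ.even_or_odd with h | h
    · rw [h.eval_neg, h.eval_neg, h.eval_neg, h.eval_neg]
      ring
    · rw [h.eval_neg, h.eval_neg, h.eval_neg, h.eval_neg]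
      linear_combination (2 * ψ x1⁻¹) * hodd ψ h
  have hsum : ∑ ψ : DirichletCharacter ℂ p, ψ x1⁻¹ * (ψ x1 + ψ x2 - ψ x3 - ψ x4 -
      ψ (-x1) - ψ (-x2) + ψ (-x3) + ψ (-x4)) = 0 := sum_eq_zero fun ψ _ => hall ψ
  simp only [mul_add, mul_sub, sum_add_distrib, sum_sub_distrib] at hsum
  have hu : IsUnit x1 := h1.isUnit
  simp only [DirichletCharacter.sum_char_inv_mul_char_eq ℂ hu] at hsum
  by_contra hcon
  push Not at hcon
  obtain ⟨c3, c4⟩ := hcon
  have e1 : x1 ≠ -x1 := by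
    intro h
    have h5 : (2 : ZMod p) * x1 = 0 := by linear_combination h
    rcases mul_eq_zero.1 h5 with h6 | h6
    · have h7 : ((2 : ℕ) : ZMod p) = 0 := by exact_mod_cast h6
      rw [ZMod.natCast_eq_zero_iff] at h7
      exact absurd (Nat.le_of_dvd two_pos h7) (by omega)
    · exact h1 h6
  have e2 : x1 ≠ -x2 := by
    intro h
    apply hs
    rw [h]
    ring
  rw [if_pos trivial, if_neg c3, if_neg c4, if_neg e1, if_neg e2] at hsum
  have h6 : (p.totient : ℂ) * ((1 + (if x1 = x2 then 1 else 0) + (if x1 = -x3 then 1 else 0) +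
      (if x1 = -x4 then 1 else 0) : ℕ) : ℂ) = 0 := by
    rw [← hsum]
    push_cast
    split_ifs <;> ring
  rcases mul_eq_zero.1 h6 with h7 | h7
  · have h8 : p.totient = 0 := by exact_mod_cast h7
    have h9 := Nat.totient_pos.2 (show 0 < p by omega)
    omega
  · have h8 : (1 + (if x1 = x2 then 1 else 0) + (if x1 = -x3 then 1 else 0) +
      (if x1 = -x4 then 1 else 0) : ℕ) = 0 := by exact_mod_cast h7
    omega

end Run7.h8.RO
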