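import Mathlib

/-!
# Sidon sets and the number of solutions
-/

set_option autoImplicit false

namespace Run7.h8.RO

open Finset

theorem mod_cancel {p x y z : ℕ} (hy : 0 < y ∧ y < p) (hz : 0 < z ∧ z < p)
    (h : (x + y) % p = (x + z) % p) : y = z := by
  have h1 : x + y ≡ x + z [MOD p] := h
  have h2 : y ≡ z [MOD p] := Nat.ModEq.add_left_cancel' x h1
  exact Nat.ModEq.eq_of_lt_of_lt h2 hy.2 hz.2

theorem card_sidon (p : ℕ) (Z : Finset ℕ) (hZ : ∀ x ∈ Z, 0 < x ∧ x < p)
    (hS : ∀ x1 ∈ Z, ∀ x2 ∈ Z, ∀ x3 ∈ Z, ∀ x4 ∈ Z, (x1 + x2) % p ≠ 0 →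
      (x1 + x2) % p = (x3 + x4) % p → x1 = x3 ∨ x1 = x4) :
    Z.card ≤ Nat.sqrt (2 * (p - 1)) + 1 := by
  classical
  set T := (Z ×ˢ Z).filter (fun x => (x.1 + x.2) % p ≠ 0) with hT
  set T0 := (Z ×ˢ Z).filter (fun x => ¬ (x.1 + x.2) % p ≠ 0) with hT0
  have h1 : T.card + T0.card = Z.card * Z.card := by
    rw [hT, hT0, Finset.card_filter_add_card_filter_not, card_product]
  have h2 : T0.card ≤ Z.card := by
    refine card_le_card_of_injOn (fun x => x.1) ?_ ?_
    · intro x hx
      exact (mem_product.1 (mem_filter.1 hx).1).1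
    · intro x hx y hy hxy
      have hx' := mem_filter.1 (mem_coe.1 hx)
      have hy' := mem_filter.1 (mem_coe.1 hy)
      have a1 : (x.1 + x.2) % p = 0 := not_not.1 hx'.2
      have a2 : (y.1 + y.2) % p = 0 := not_not.1 hy'.2
      have hxy' : x.1 = y.1 := hxy
      refine Prod.ext hxy' ?_
      refine mod_cancel (x := x.1) (hZ _ (mem_product.1 hx'.1).2) (hZ _ (mem_product.1 hy'.1).2) ?_
      rw [a1, hxy', a2]
  have h3 : T.card ≤ 2 * (T.image (fun x => (x.1 + x.2) % p)).card := by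
    refine card_le_mul_card_image T 2 fun b hb => ?_
    obtain ⟨y, hy, rfl⟩ := mem_image.1 hb
    have hy' := mem_filter.1 hy
    have hy1 := mem_product.1 hy'.1
    refine (card_le_card (t := {(y.1, y.2), (y.2, y.1)}) ?_).trans card_le_two
    intro x hx
    obtain ⟨hx0, hxb⟩ := mem_filter.1 hx
    have hx' := mem_filter.1 hx0
    have hx1 := mem_product.1 hx'.1
    rw [mem_insert, mem_singleton]
    rcases hS x.1 hx1.1 x.2 hx1.2 y.1 hy1.1 y.2 hy1.2 hx'.2 hxb with h | h
    · left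
      refine Prod.ext h ?_
      refine mod_cancel (x := x.1) (hZ _ hx1.2) (hZ _ hy1.2) ?_
      rw [hxb, h]
    · right
      refine Prod.ext h ?_
      refine mod_cancel (x := x.1) (hZ _ hx1.2) (hZ _ hy1.1) ?_
      rw [hxb, h, add_comm]
  have h4 : (T.image (fun x => (x.1 + x.2) % p)).card ≤ p - 1 := by
    have h5 : T.image (fun x => (x.1 + x.2) % p) ⊆ Ico 1 p := by
      intro b hb
      obtain ⟨y, hy, rfl⟩ := mem_image.1 hb
      have hy' := mem_filter.1 hy
      have hy1 := hZ _ (mem_product.1 hy'.1).1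
      rw [mem_Ico]
      exact ⟨Nat.pos_of_ne_zero hy'.2, Nat.mod_lt _ (by omega)⟩
    have h6 := card_le_card h5
    rwa [Nat.card_Ico] at h6
  have h5 : Z.card * Z.card ≤ 2 * (p - 1) + Z.card := by omega
  rcases Nat.eq_zero_or_pos Z.card with h6 | h6
  · omega
  · obtain ⟨k, hk⟩ : ∃ k, Z.card = k + 1 := ⟨Z.card - 1, by omega⟩
    rw [hk] at h5 ⊢
    have h7 : k * k ≤ 2 * (p - 1) := by nlinarith
    have h8 : k ≤ Nat.sqrt (2 * (p - 1)) := Nat.le_sqrt.2 h7
    omega

open Classical in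
theorem card_tuples {V : Type*} [AddCommGroup V] (p K : ℕ) (g : ℕ → V)
    (hK : ∀ w : V, ((Ico 1 p).filter (fun x => g x = w)).card ≤ K) (r : ℕ) (v : V) :
    ((Fintype.piFinset fun _ : Fin (r + 1) => Ico 1 p).filter
      (fun n => ∑ i, g (n i) = v)).card ≤ (p - 1) ^ r * K := by
  set T := (Fintype.piFinset fun _ : Fin (r + 1) => Ico 1 p).filter
      (fun n => ∑ i, g (n i) = v) with hT
  have h1 : T.card ≤ K * (T.image (fun n : Fin (r + 1) → ℕ => fun i : Fin r => n i.succ)).card := by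
    refine card_le_mul_card_image T K fun b _ => ?_
    refine le_trans ?_ (hK (v - ∑ i, g (b i)))
    refine card_le_card_of_injOn (fun n => n 0) ?_ ?_
    · intro n hn
      obtain ⟨hn1, hn2⟩ := mem_filter.1 hn
      obtain ⟨hn3, hn4⟩ := mem_filter.1 hn1
      change n 0 ∈ ((Ico 1 p).filter (fun x => g x = v - ∑ i, g (b i)) : Finset ℕ)
      rw [mem_filter]
      refine ⟨Fintype.mem_piFinset.1 hn3 0, ?_⟩
      rw [← hn4, Fin.sum_univ_succ, ← hn2]
      simp
    · intro n hn n' hn' h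
      have hn2 := (mem_filter.1 (mem_coe.1 hn)).2
      have hn2' := (mem_filter.1 (mem_coe.1 hn')).2
      funext i
      refine Fin.cases ?_ (fun i => ?_) i
      · exact h
      · exact congrFun (hn2.trans hn2'.symm) i
  have h2 : (T.image (fun n : Fin (r + 1) → ℕ => fun i : Fin r => n i.succ)).card ≤
      (p - 1) ^ r := by
    have h3 : T.image (fun n : Fin (r + 1) → ℕ => fun i : Fin r => n i.succ) ⊆
        Fintype.piFinset fun _ : Fin r => Ico 1 p := by
      intro b hb
      obtain ⟨n, hn, rfl⟩ := mem_image.1 hb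
      rw [Fintype.mem_piFinset]
      intro i
      exact Fintype.mem_piFinset.1 (mem_filter.1 hn).1 i.succ
    refine (card_le_card h3).trans ?_
    rw [Fintype.card_piFinset]
    simp
  calc T.card ≤ K * _ := h1
    _ ≤ K * (p - 1) ^ r := Nat.mul_le_mul_left K h2
    _ = (p - 1) ^ r * K := mul_comm _ _

theorem card_pairs (p : ℕ) (T : Finset (ℕ × ℕ))
    (hT : ∀ x ∈ T, (0 < x.1 ∧ x.1 < p) ∧ (0 < x.2 ∧ x.2 < p))
    (hS : ∀ x ∈ T, ∀ y ∈ T, (x.1 + x.2) % p ≠ 0 → (x.1 + x.2) % p = (y.1 + y.2) % p →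
      x.1 = y.1 ∨ x.1 = y.2) : T.card ≤ 3 * (p - 1) := by
  classical
  set T1 := T.filter (fun x => (x.1 + x.2) % p ≠ 0) with hT1
  set T0 := T.filter (fun x => ¬ (x.1 + x.2) % p ≠ 0) with hT0
  have h1 : T1.card + T0.card = T.card := by
    rw [hT1, hT0, Finset.card_filter_add_card_filter_not]
  have h2 : T0.card ≤ p - 1 := by
    have h3 : T0.card ≤ (Ico 1 p).card := by
      refine card_le_card_of_injOn (fun x => x.1) ?_ ?_
      · intro x hx
        have := (hT x (mem_filter.1 hx).1).1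
        exact mem_coe.2 (mem_Ico.2 ⟨this.1, this.2⟩)
      · intro x hx y hy hxy
        have hx' := mem_filter.1 (mem_coe.1 hx)
        have hy' := mem_filter.1 (mem_coe.1 hy)
        have a1 : (x.1 + x.2) % p = 0 := not_not.1 hx'.2
        have a2 : (y.1 + y.2) % p = 0 := not_not.1 hy'.2
        have hxy' : x.1 = y.1 := hxy
        refine Prod.ext hxy' ?_
        refine mod_cancel (x := x.1) (hT x hx'.1).2 (hT y hy'.1).2 ?_
        rw [a1, hxy', a2]
    rwa [Nat.card_Ico] at h3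
  have h3 : T1.card ≤ 2 * (T1.image (fun x => (x.1 + x.2) % p)).card := by
    refine card_le_mul_card_image T1 2 fun b hb => ?_
    obtain ⟨y, hy, rfl⟩ := mem_image.1 hb
    have hy' := mem_filter.1 hy
    refine (card_le_card (t := {(y.1, y.2), (y.2, y.1)}) ?_).trans card_le_two
    intro x hx
    obtain ⟨hx0, hxb⟩ := mem_filter.1 hx
    have hx' := mem_filter.1 hx0
    rw [mem_insert, mem_singleton]
    rcases hS x hx'.1 y hy'.1 hx'.2 hxb with h | h
    · left
      refine Prod.ext h ?_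
      refine mod_cancel (x := x.1) (hT x hx'.1).2 (hT y hy'.1).2 ?_
      rw [hxb, h]
    · right
      refine Prod.ext h ?_
      refine mod_cancel (x := x.1) (hT x hx'.1).2 (hT y hy'.1).1 ?_
      rw [hxb, h, add_comm]
  have h4 : (T1.image (fun x => (x.1 + x.2) % p)).card ≤ p - 1 := by
    have h5 : T1.image (fun x => (x.1 + x.2) % p) ⊆ Ico 1 p := by
      intro b hb
      obtain ⟨y, hy, rfl⟩ := mem_image.1 hb
      have hy' := mem_filter.1 hy
      have hy1 := (hT y hy'.1).1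
      rw [mem_Ico]
      exact ⟨Nat.pos_of_ne_zero hy'.2, Nat.mod_lt _ (by omega)⟩
    have h6 := card_le_card h5
    rwa [Nat.card_Ico] at h6
  omega

open Classical in
theorem card_tuples_pairs {V : Type*} [AddCommGroup V] (p K : ℕ) (g : ℕ → V)
    (hK : ∀ w : V, ((Ico 1 p ×ˢ Ico 1 p).filter (fun x => g x.1 + g x.2 = w)).card ≤ K) (r : ℕ)
    (v : V) : ((Fintype.piFinset fun _ : Fin (r + 2) => Ico 1 p).filter
      (fun n => ∑ i, g (n i) = v)).card ≤ (p - 1) ^ r * K := by
  set T := (Fintype.piFinset fun _ : Fin (r + 2) => Ico 1 p).filter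
      (fun n => ∑ i, g (n i) = v) with hT
  have h1 : T.card ≤
      K * (T.image (fun n : Fin (r + 2) → ℕ => fun i : Fin r => n i.succ.succ)).card := by
    refine card_le_mul_card_image T K fun b _ => ?_
    refine le_trans ?_ (hK (v - ∑ i, g (b i)))
    refine card_le_card_of_injOn (fun n => (n 0, n 1)) ?_ ?_
    · intro n hn
      obtain ⟨hn1, hn2⟩ := mem_filter.1 hn
      obtain ⟨hn3, hn4⟩ := mem_filter.1 hn1
      change (n 0, n 1) ∈ ((Ico 1 p ×ˢ Ico 1 p).filter
        (fun x => g x.1 + g x.2 = v - ∑ i, g (b i)) : Finset (ℕ × ℕ))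
      rw [mem_filter]
      refine ⟨mem_product.2 ⟨Fintype.mem_piFinset.1 hn3 0, Fintype.mem_piFinset.1 hn3 1⟩, ?_⟩
      rw [← hn4, Fin.sum_univ_succ, Fin.sum_univ_succ, ← hn2]
      simp only [Fin.succ_zero_eq_one]
      abel
    · intro n hn n' hn' h
      have hn2 := (mem_filter.1 (mem_coe.1 hn)).2
      have hn2' := (mem_filter.1 (mem_coe.1 hn')).2
      have h5 := Prod.ext_iff.1 h
      funext i
      refine Fin.cases ?_ (fun i => Fin.cases ?_ (fun i => ?_) i) i
      · exact h5.1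
      · exact h5.2
      · exact congrFun (hn2.trans hn2'.symm) i
  have h2 : (T.image (fun n : Fin (r + 2) → ℕ => fun i : Fin r => n i.succ.succ)).card ≤
      (p - 1) ^ r := by
    have h3 : T.image (fun n : Fin (r + 2) → ℕ => fun i : Fin r => n i.succ.succ) ⊆
        Fintype.piFinset fun _ : Fin r => Ico 1 p := by
      intro b hb
      obtain ⟨n, hn, rfl⟩ := mem_image.1 hb
      rw [Fintype.mem_piFinset]
      intro i
      exact Fintype.mem_piFinset.1 (mem_filter.1 hn).1 i.succ.succ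
    refine (card_le_card h3).trans ?_
    rw [Fintype.card_piFinset]
    simp
  calc T.card ≤ K * _ := h1
    _ ≤ K * (p - 1) ^ r := Nat.mul_le_mul_left K h2
    _ = (p - 1) ^ r * K := mul_comm _ _

end Run7.h8.RO
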