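import Pool.Agent.Run7.h8.RO.Dens

/-!
# The number of tuples with algebraic products of Gamma values
-/

set_option autoImplicit false
set_option linter.unusedSectionVars false
set_option linter.unusedVariables false

namespace Run7.h8.RO

open Pool.Agent.W547.KB Pool.Agent.W537.PC Pool.Agent.W527.Vec Pool.Agent.H916R2

noncomputable section

variable {p : ℕ} [Fact p.Prime] {P : PeriodSystem}

open Classical in
theorem card_pair_class (hp : 2 < p) (hDe : P.Deligne) (hW : Wustholz P) (hF : FermatPeriods P)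
    (w : VV) : ((Finset.Ico 1 p ×ˢ Finset.Ico 1 p).filter
      (fun x : ℕ × ℕ => gv p x.1 + gv p x.2 = w)).card ≤ 3 * (p - 1) := by
  refine card_pairs p _ (fun x hx => ?_) ?_
  · have := Finset.mem_product.1 (Finset.mem_filter.1 hx).1
    rw [Finset.mem_Ico, Finset.mem_Ico] at this
    omega
  · intro x hx y hy hs hsum
    obtain ⟨a, b1⟩ := Finset.mem_filter.1 hx
    obtain ⟨c, b2⟩ := Finset.mem_filter.1 hy
    rw [Finset.mem_product, Finset.mem_Ico, Finset.mem_Ico] at a c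
    have c1 : ¬ (p : ℤ) ∣ (x.1 : ℤ) + (x.2 : ℤ) := by
      intro h
      apply hs
      have : p ∣ x.1 + x.2 := by exact_mod_cast h
      exact Nat.mod_eq_zero_of_dvd this
    have c2 : (p : ℤ) ∣ ((x.1 : ℤ) + (x.2 : ℤ)) - ((y.1 : ℤ) + (y.2 : ℤ)) := by
      have h5 : y.1 + y.2 ≡ x.1 + x.2 [MOD p] := hsum.symm
      have h6 := (Nat.modEq_iff_dvd).1 h5
      push_cast at h6
      exact h6
    have h7 := sidon (P := P) hp hDe hW hF (not_dvd_of_mem (p := p) ⟨by omega, a.1.2⟩)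
      (not_dvd_of_mem (p := p) ⟨by omega, a.2.2⟩) (not_dvd_of_mem (p := p) ⟨by omega, c.1.2⟩)
      (not_dvd_of_mem (p := p) ⟨by omega, c.2.2⟩) c1 c2 (by rw [b1, b2])
    have h8 : ∀ {x y : ℕ}, 1 ≤ x ∧ x < p → 1 ≤ y ∧ y < p → (p : ℤ) ∣ (x : ℤ) - (y : ℤ) → x = y := by
      intro x y hx hy h
      have h9 : y ≡ x [MOD p] := (Nat.modEq_iff_dvd).2 h
      exact (Nat.ModEq.eq_of_lt_of_lt h9 hy.2 hx.2).symm
    rcases h7 with h | h
    · exact Or.inl (h8 a.1 c.1 h)
    · exact Or.inr (h8 a.1 c.2 h)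

theorem gamma_class (hp : 2 < p) {r : ℕ} {n : Fin r → ℕ} (hn : ∀ i, 0 < n i ∧ n i < p) {z : ℂ}
    (h : ∃ α : ℂ, IsAlgebraic ℚ α ∧ ∏ i, Complex.Gamma ((n i : ℂ) / p) = α * z) :
    ∑ i, gv p (n i) = (2 : ℤ) • lg z - (r : ℤ) • lg Real.pi := by
  obtain ⟨α, hα, h⟩ := h
  have hp0 : 0 < p := by omega
  have h0 : (p : ℚ) ≠ 0 := by exact_mod_cast hp0.ne'
  have h1 : ∀ i, fr p (n i : ℤ) = (n i : ℚ) / p := by
    intro i
    unfold fr
    rw [Int.cast_natCast, Int.fract_eq_self]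
    constructor
    · positivity
    · rw [div_lt_one (by positivity)]
      exact_mod_cast (hn i).2
  have h2 : ∀ i, Complex.Gamma ((n i : ℂ) / p) = Complex.Gamma ((fr p (n i : ℤ) : ℚ) : ℂ) := by
    intro i
    rw [h1]
    push_cast
    rfl
  have h3 : ∀ i, Complex.Gamma ((fr p (n i : ℤ) : ℚ) : ℂ) ≠ 0 := fun i =>
    gamma_ne (fr_nonint hp0 (not_dvd_of_mem (hn i)))
  simp only [h2] at h
  have h4 : (∏ i, Complex.Gamma ((fr p (n i : ℤ) : ℚ) : ℂ)) ≠ 0 :=
    Finset.prod_ne_zero_iff.2 fun i _ => h3 i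
  rw [h] at h4
  have hα0 : α ≠ 0 := left_ne_zero_of_mul h4
  have hz0 : z ≠ 0 := right_ne_zero_of_mul h4
  have h5 := congrArg lg h
  rw [lg_mul hα0 hz0, lg_algebraic hα hα0, zero_add, lg_prod _ _ (fun i _ => h3 i)] at h5
  unfold gv
  rw [Finset.sum_sub_distrib, ← Finset.smul_sum]
  congr 1
  · congr 1
  · simp

/-- Single values. -/
theorem count_one (hp : 2 < p) (hDe : P.Deligne) (hW : Wustholz P) (hF : FermatPeriods P) (z : ℂ) :
    {n : ℕ | 0 < n ∧ n < p ∧ ∃ α : ℂ, IsAlgebraic ℚ α ∧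
      Complex.Gamma ((n : ℂ) / p) = α * z}.ncard ≤ Nat.sqrt (2 * (p - 1)) + 1 := by
  classical
  refine le_trans ?_ (card_class (P := P) hp hDe hW hF ((2 : ℤ) • lg z - (1 : ℤ) • lg Real.pi))
  rw [← Set.ncard_coe_finset]
  refine Set.ncard_le_ncard ?_ (Finset.finite_toSet _)
  rintro n ⟨h1, h2, h3⟩
  rw [Finset.mem_coe, Finset.mem_filter, Finset.mem_Ico]
  refine ⟨⟨h1, h2⟩, ?_⟩
  have h4 := gamma_class (p := p) hp (r := 1) (n := fun _ => n) (z := z) (fun _ => ⟨h1, h2⟩)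
    (by simpa using h3)
  simpa using h4

/-- The tuples of at least two numbers with product in a given class. -/
theorem count_many (hp : 2 < p) (hDe : P.Deligne) (hW : Wustholz P) (hF : FermatPeriods P)
    (r : ℕ) (hr : 2 ≤ r) (z : ℂ) :
    {n : Fin r → ℕ | (∀ i, 0 < n i ∧ n i < p) ∧ ∃ α : ℂ, IsAlgebraic ℚ α ∧
      ∏ i, Complex.Gamma ((n i : ℂ) / p) = α * z}.ncard ≤ 3 * (p - 1) ^ (r - 1) := by
  classical
  obtain ⟨s, rfl⟩ : ∃ s, r = s + 2 := ⟨r - 2, by omega⟩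
  have h1 := card_tuples_pairs p (3 * (p - 1)) (fun x : ℕ => gv p x)
    (fun w => card_pair_class (P := P) hp hDe hW hF w) s
    ((2 : ℤ) • lg z - ((s + 2 : ℕ) : ℤ) • lg Real.pi)
  have h2 : (p - 1) ^ s * (3 * (p - 1)) = 3 * (p - 1) ^ (s + 2 - 1) := by
    rw [show s + 2 - 1 = s + 1 by omega, pow_succ]
    ring
  rw [h2] at h1
  refine le_trans ?_ h1
  rw [← Set.ncard_coe_finset]
  refine Set.ncard_le_ncard ?_ (Finset.finite_toSet _)
  rintro n ⟨h3, h4⟩
  rw [Finset.mem_coe, Finset.mem_filter, Fintype.mem_piFinset]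
  exact ⟨fun i => Finset.mem_Ico.2 (h3 i), gamma_class hp h3 h4⟩

/-- The tuples for which the conjecture fails. -/
theorem count_fail (hp : 2 < p) (hDe : P.Deligne) (hW : Wustholz P) (hF : FermatPeriods P)
    (r : ℕ) (hr : 2 ≤ r) :
    {n : Fin r → ℕ | (∀ i, 0 < n i ∧ n i < p) ∧
      ¬ (AlgMultiple (fun i => (n i : ℚ) / p) ↔ Identity p (fun i => (n i : ℚ) / p))}.ncard ≤
      3 * (p - 1) ^ (r - 1) := by
  classical
  have hp0 : 0 < p := by omega
  have h0 : (p : ℚ) ≠ 0 := by exact_mod_cast hp0.ne'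
  have hfin : {n : Fin r → ℕ | ∀ i, 0 < n i ∧ n i < p}.Finite := by
    refine Set.Finite.subset (Finset.finite_toSet (Fintype.piFinset fun _ : Fin r => Finset.Ico 1 p))
      fun n hn => ?_
    rw [Finset.mem_coe, Fintype.mem_piFinset]
    exact fun i => Finset.mem_Ico.2 (hn i)
  refine le_trans (Set.ncard_le_ncard ?_ ?_) (count_many (P := P) hp hDe hW hF r hr
    ((Real.pi ^ ((r : ℝ) / 2) : ℝ) : ℂ))
  · rintro n ⟨h1, h2⟩
    refine ⟨h1, ?_⟩
    have hN : Num p (fun i => (n i : ℚ) / p) (fun i => (n i : ℤ)) := by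
      intro i
      push_cast
      rfl
    have hnd : ∀ i, ¬ (p : ℤ) ∣ (n i : ℤ) := fun i => not_dvd_of_mem (h1 i)
    have hni : ∀ i, ∀ y : ℤ, (n i : ℚ) / p ≠ y := by
      intro i y hy
      rw [div_eq_iff h0] at hy
      have h3 : (n i : ℤ) = y * p := by exact_mod_cast hy
      exact hnd i ⟨y, by rw [h3, mul_comm]⟩
    -- the converse implication is known
    have h3 : Identity p (fun i => (n i : ℚ) / p) → AlgMultiple (fun i => (n i : ℚ) / p) := by
      intro h4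
      refine (alg_iff_gv hp0 hN hni).2 ?_
      have h5 := conv hp hDe hF (fun i => (n i : ℤ)) hnd (fun _ => 1) (by
        intro t ht
        simpa using (identity_iff hp hN).1 h4 t ht)
      simpa using h5
    have h4 : AlgMultiple (fun i => (n i : ℚ) / p) := by
      by_contra h5
      exact h2 ⟨fun h6 => absurd h6 h5, h3⟩
    obtain ⟨α, hα, h5⟩ := h4
    refine ⟨(α : ℂ), isAlgebraic_ofReal.2 hα, ?_⟩
    have h6 := congrArg (fun x : ℝ => (x : ℂ)) h5
    simp only [Complex.ofReal_mul, Complex.ofReal_prod] at h6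
    rw [← h6]
    refine Finset.prod_congr rfl fun i _ => ?_
    rw [← Complex.Gamma_ofReal]
    push_cast
    rfl
  · exact hfin.subset fun n hn => hn.1

end

end Run7.h8.RO
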