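import Pool.Agent.Run7.h8.RO.Gam

/-!
# The letters of the Fermat curves
-/

set_option autoImplicit false
set_option linter.unusedSectionVars false
set_option linter.unusedVariables false

namespace Run7.h8.RO

open NumberField Pool.Agent.H204R3.CM Pool.Agent.W547.KB Pool.Agent.W537.PC Pool.Agent.W527.Vec

noncomputable section

section type

variable {L : Type} [Field L] {D : ℕ}

/-- The CM type of a factor of the Jacobian of the Fermat curve. -/
def Phi (D : ℕ) (z : L) (k : ℕ) : Set (L →+* ℂ) :=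
  {φ | ∃ t : ℤ, φ z = root D t ∧ fr D t + fr D (t * k) < 1}

theorem mem_Phi (hD : 0 < D) (z : L) (k : ℕ) {φ : L →+* ℂ} {t : ℤ} (h : φ z = root D t) :
    φ ∈ Phi D z k ↔ fr D t + fr D (t * k) < 1 := by
  constructor
  · rintro ⟨t', h1, h2⟩
    rw [h, root_eq_iff hD] at h1
    rw [fr_eq_of_dvd hD h1, fr_eq_of_dvd (t := t * k) (t' := t' * k) hD (by
      rw [← sub_mul]
      exact Dvd.dvd.mul_right h1 _)]
    exact h2
  · exact fun h1 => ⟨t, h, h1⟩

theorem exists_root (hD : 0 < D) {z : L} (hz : IsPrimitiveRoot z D) (φ : L →+* ℂ) :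
    ∃ t : ℤ, IsCoprime t (D : ℤ) ∧ φ z = root D t := by
  have h1 : IsPrimitiveRoot (φ z) D := hz.map_of_injective φ.injective
  obtain ⟨i, hi, hc, h2⟩ := (Complex.isPrimitiveRoot_iff (φ z) D hD.ne').1 h1
  refine ⟨i, Nat.isCoprime_iff_coprime.2 hc, ?_⟩
  rw [← h2]
  unfold root
  push_cast
  rfl

theorem conj_root (t : ℤ) : starRingEnd ℂ (root D t) = root D (-t) := by
  unfold root
  rw [← Complex.exp_conj]
  congr 1
  simp only [map_mul, map_div₀, map_ofNat, Complex.conj_ofReal, Complex.conj_I, map_intCast,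
    map_natCast]
  push_cast
  ring

theorem not_dvd_of_coprime {t : ℤ} (ht : IsCoprime t (D : ℤ)) {k : ℤ} (hk : ¬ (D : ℤ) ∣ k) :
    ¬ (D : ℤ) ∣ t * k := fun h => hk (ht.symm.dvd_of_dvd_mul_left h)

theorem not_dvd_nat {k : ℕ} (hk : 0 < k) (hk' : k < D) : ¬ (D : ℤ) ∣ (k : ℤ) := by
  intro h
  have h1 : D ∣ k := by exact_mod_cast h
  exact absurd (Nat.le_of_dvd hk h1) (by omega)

theorem isCMType_Phi {z : L} (hz : IsPrimitiveRoot z D) {k : ℕ} (hk : 0 < k) (hk' : k + 1 < D) :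
    IsCMType (Phi D z k) := by
  have hD : 0 < D := by omega
  intro φ
  obtain ⟨t, ht, h1⟩ := exists_root hD hz φ
  have h2 : ComplexEmbedding.conjugate φ z = root D (-t) := by
    rw [ComplexEmbedding.conjugate_coe_eq, h1, conj_root]
  rw [mem_Phi hD z k h1, mem_Phi hD z k h2]
  have n1 : ¬ (D : ℤ) ∣ t := by
    have := not_dvd_of_coprime ht (not_dvd_nat (D := D) one_pos (by omega))
    simpa using this
  have n2 : ¬ (D : ℤ) ∣ t * k := not_dvd_of_coprime ht (not_dvd_nat hk (by omega))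
  have n3 : ¬ (D : ℤ) ∣ t + t * k := by
    have := not_dvd_of_coprime ht (not_dvd_nat (D := D) (k := k + 1) (by omega) hk')
    intro h
    apply this
    push_cast
    have e : t * ((k : ℤ) + 1) = t + t * k := by ring
    rw [e]
    exact h
  have e1 : -t * (k : ℤ) = -(t * k) := by ring
  rw [e1, fr_neg hD n1, fr_neg hD n2]
  have h3 : fr D t + fr D (t * k) ≠ 1 := by
    intro h3
    rcases fr_add hD t (t * k) with ⟨h4, -⟩ | ⟨-, h4⟩
    · linarith
    · rw [h3, sub_self] at h4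
      exact n3 ((fr_eq_zero_iff hD _).1 h4)
  constructor
  · intro h4 h5
    linarith
  · intro h4
    by_contra h5
    apply h4
    rcases lt_or_gt_of_ne h3 with h6 | h6
    · exact absurd h6 h5
    · linarith

end type

variable {D : ℕ} {L : Type} [Field L] [NumberField L] [IsCMField L] [IsGalois ℚ L] (j : L →+* ℂ)
  {P : PeriodSystem} {z : L} (hz : IsPrimitiveRoot z D)

/-- The letter with number `k`. -/
def lett (k : ℕ) (hk : 0 < k ∧ k + 1 < D) : Letter L :=
  ⟨⟨L, Phi D z k, isCMType_Phi hz hk.1 hk.2⟩, RingHom.id L⟩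

theorem WL_lett (hF : FermatPeriods P) (hadj : Algebra.adjoin ℚ {z} = ⊤) (hj : j z = root D 1)
    (k : ℕ) (hk : 0 < k ∧ k + 1 < D) :
    WL j P (lett hz k hk) = gv D 1 + gv D k - gv D (k + 1) := by
  have hD : 0 < D := by omega
  have n1 : ¬ (D : ℤ) ∣ 1 := by
    have := not_dvd_nat (D := D) one_pos (by omega)
    simpa using this
  have n2 : ¬ (D : ℤ) ∣ (k : ℤ) := not_dvd_nat hk.1 (by omega)
  have n3 : ¬ (D : ℤ) ∣ 1 + (k : ℤ) := by
    have := not_dvd_nat (D := D) (k := k + 1) (by omega) hk.2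
    push_cast at this
    rwa [add_comm]
  obtain ⟨h1, h2⟩ := lg_beta hD n1 n2 n3
  have h3 := hF D k (lett hz k hk).B z (by omega) hk.1 hk.2 hz hadj rfl
    (j.comp (RingHom.id L)) 1 hj
  rw [one_mul] at h3
  have h4 : P.tl j (lett hz k hk) ≠ 0 := P.ne_zero _ _
  have h5 : lg (P.tl j (lett hz k hk)) =
      lg (Complex.betaIntegral (fr D 1) (fr D k)) := by
    have h6 := lg_algebraic h3 (div_ne_zero h4 h1)
    change lg (P.tl j (lett hz k hk) / _) = 0 at h6
    rw [lg_div h4 h1, sub_eq_zero] at h6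
    exact h6
  rw [WL_eq, h5, h2, lg_two_pi_I, add_comm (k : ℤ) 1]
  unfold gv
  module

theorem s_lett (hj : j z = root D 1) (k : ℕ) (hk : 0 < k ∧ k + 1 < D) (σ : L ≃ₐ[ℚ] L) {t : ℤ}
    (ht : j (σ z) = root D t) :
    (((lett hz k hk).s j σ : ℤ) : ℚ) = (-2) * (bb D t + bb D (t * k) - bb D (t * (k + 1))) := by
  have hD : 0 < D := by omega
  have e : t * ((k : ℤ) + 1) = t + t * k := by ring
  rw [e]
  have h1 : j.comp (σ • (lett hz k hk).φ) ∈ (lett hz k hk).B.Φ ↔ fr D t + fr D (t * k) < 1 :=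
    mem_Phi hD z k ht
  rcases bb_sign hD t (t * k) with ⟨h2, h3⟩ | ⟨h2, h3⟩
  · rw [h3, (lett hz k hk).s_pos j σ (h1.2 h2)]
    norm_num
  · rw [h3, (lett hz k hk).s_neg j σ (fun h4 => h2 (h1.1 h4))]
    norm_num

end

end Run7.h8.RO
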