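import Mathlib
import Pool.Agent.W537.PC.Defs

/-!
# Values of the Gamma function at rational numbers and periods of CM type: statements

`PeriodSystem`, `PeriodSystem.Deligne`, `CMPair` are definitions of the starting files.
-/

set_option autoImplicit false

namespace Run7.h8.RO

open NumberField Pool.Agent.W547.KB Pool.Agent.W537.PC

/-- The theorem of Wüstholz for abelian varieties of CM type over `ℚ̄`: if the quotient of the
periods of the eigenform `φ` on the abelian variety of CM type `B` and of the eigenform `φ'` on the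
one of CM type `B'` is algebraic, then they come from the same eigenform of a common factor, so
that, for every automorphism `τ` of `ℂ`, both eigenforms `τ φ`, `τ φ'` are of the first kind or both
are not. -/
def Wustholz (P : PeriodSystem) : Prop :=
  ∀ (B B' : CMPair) (φ : B.E →+* ℂ) (φ' : B'.E →+* ℂ), IsAlgebraic ℚ (P.θ B φ / P.θ B' φ') →
    ∀ τ : ℂ ≃+* ℂ, (τ : ℂ →+* ℂ).comp φ ∈ B.Φ ↔ (τ : ℂ →+* ℂ).comp φ' ∈ B'.Φ

/-- The root of unity `exp (2 π i t / D)`. -/
noncomputable def root (D : ℕ) (t : ℤ) : ℂ := Complex.exp (2 * Real.pi * Complex.I * (t / D))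

/-- The fractional part of `t / D`. -/
def fr (D : ℕ) (t : ℤ) : ℚ := Int.fract ((t : ℚ) / D)

/-- The periods of the Fermat curve of degree `D` (Rohrlich): the factor of its Jacobian with
complex multiplication by the field generated by a root of unity `z` of order `D` on which the
eigenforms are `x ^ (r - 1) y ^ (s - D) dx`, where `r / D` and `s / D` are the fractional parts of
`t / D` and of `t k / D`, has CM type `Φ`, the set of those `t` for which the sum of the fractional
parts is less than one, and its periods are, up to algebraic factors, the values of the Beta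
function at the fractional parts. -/
def FermatPeriods (P : PeriodSystem) : Prop :=
  ∀ (D k : ℕ) (B : CMPair) (z : B.E), 2 < D → 0 < k → k + 1 < D → IsPrimitiveRoot z D →
    Algebra.adjoin ℚ {z} = ⊤ →
    B.Φ = {φ | ∃ t : ℤ, φ z = root D t ∧ fr D t + fr D (t * k) < 1} →
    ∀ (φ : B.E →+* ℂ) (t : ℤ), φ z = root D t →
      IsAlgebraic ℚ (P.θ B φ / Complex.betaIntegral (fr D t) (fr D (t * k)))

/-- The product of the `Γ (a i)` is an algebraic multiple of `π ^ (r / 2)`. -/
def AlgMultiple {r : ℕ} (a : Fin r → ℚ) : Prop :=
  ∃ α : ℝ, IsAlgebraic ℚ α ∧ ∏ i : Fin r, Real.Gamma ((a i : ℚ) : ℝ) = α * Real.pi ^ ((r : ℝ) / 2)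

/-- The sum of the fractional parts of the `m * a i`, minus `r / 2`. -/
def excess {r : ℕ} (a : Fin r → ℚ) (m : ℕ) : ℚ := ∑ i : Fin r, Int.fract ((m : ℚ) * a i) - r / 2

end Run7.h8.RO
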