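import Pool.Agent.Run7.h8.RO.Main
import Pool.Agent.Run7.h8.RO.Char
import Pool.Agent.Run7.h8.RO.Comb

/-!
# Rohrlich's conjecture for almost all tuples
-/

set_option autoImplicit false
set_option linter.unusedSectionVars false
set_option linter.unusedVariables false

namespace Run7.h8.RO

open Pool.Agent.W547.KB Pool.Agent.W537.PC Pool.Agent.W527.Vec Pool.Agent.H916R2

noncomputable section

variable {p : ℕ} [Fact p.Prime] {P : PeriodSystem}

theorem saw_eq (hp : 2 < p) {y : ℤ} (hy : ¬ (p : ℤ) ∣ y) :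
    ((saw (y : ZMod p) : ℤ) : ℚ) = 2 * p * bb p y := by
  have h0 : (p : ℚ) ≠ 0 := by
    have : p ≠ 0 := by omega
    exact_mod_cast this
  have h1 : (y : ZMod p) ≠ 0 := by
    intro h
    exact hy ((ZMod.intCast_zmod_eq_zero_iff_dvd y p).1 h)
  have : NeZero p := ⟨by omega⟩
  have h2 : (((y : ZMod p).val : ℤ)) = y % p := ZMod.val_intCast y
  have h3 : fr p y = ((y % p : ℤ) : ℚ) / p := by
    unfold fr
    have h4 : (y : ℚ) / p = ((y % p : ℤ) : ℚ) / p + ((y / p : ℤ) : ℚ) := by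
      have h5 : ((y % p + p * (y / p) : ℤ) : ℚ) = (y : ℚ) := by
        rw [Int.emod_add_mul_ediv]
      rw [← h5]
      push_cast
      field_simp
    rw [h4, Int.fract_add_intCast, Int.fract_eq_self]
    have hp0 : (0 : ℤ) < p := by exact_mod_cast (show 0 < p by omega)
    constructor
    · have := Int.emod_nonneg y hp0.ne'
      positivity
    · rw [div_lt_one (by exact_mod_cast hp0)]
      exact_mod_cast Int.emod_lt_of_pos y hp0
  unfold saw bb
  rw [if_neg h1, h2, h3]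
  push_cast
  field_simp

/-- The values of the Gamma function at the fractions with denominator `p` satisfy no additive
relation. -/
theorem sidon (hp : 2 < p) (hDe : P.Deligne) (hW : Wustholz P) (hF : FermatPeriods P)
    {m1 m2 m3 m4 : ℤ} (h1 : ¬ (p : ℤ) ∣ m1) (h2 : ¬ (p : ℤ) ∣ m2) (h3 : ¬ (p : ℤ) ∣ m3)
    (h4 : ¬ (p : ℤ) ∣ m4) (hs : ¬ (p : ℤ) ∣ m1 + m2) (hsum : (p : ℤ) ∣ (m1 + m2) - (m3 + m4))
    (hgv : gv p m1 + gv p m2 = gv p m3 + gv p m4) :
    (p : ℤ) ∣ m1 - m3 ∨ (p : ℤ) ∣ m1 - m4 := by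
  have hp0 : 0 < p := by omega
  have key0 : ∀ t : ℤ, IsCoprime t (p : ℤ) →
      bb p (t * m1) + bb p (t * m2) = bb p (t * m3) + bb p (t * m4) := by
    intro t ht
    have h5 := rel_values (D := p) hp hDe hW hF (![m1, m2, m3, m4] : Fin 4 → ℤ) (by
      intro k
      fin_cases k
      · exact h1
      · exact h2
      · exact h3
      · exact h4) (![1, 1, -1, -1] : Fin 4 → ℤ) (by
      simp only [Fin.sum_univ_four, Matrix.cons_val_zero, Matrix.cons_val_one,
        Matrix.cons_val_two, Matrix.cons_val_three, Matrix.head_cons, Matrix.tail_cons,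
        Matrix.cons_val]
      rw [one_smul, one_smul, neg_smul, neg_smul, one_smul, one_smul, hgv]
      abel) 1 (by
      intro u hu
      simp only [Fin.sum_univ_four, Matrix.cons_val_zero, Matrix.cons_val_one,
        Matrix.cons_val_two, Matrix.cons_val_three, Matrix.head_cons, Matrix.tail_cons,
        Matrix.cons_val]
      push_cast
      have e1 : fr p (u * m1 + u * m2) = fr p (u * m3 + u * m4) := by
        refine fr_eq_of_dvd hp0 ?_
        have : u * m1 + u * m2 - (u * m3 + u * m4) = u * (m1 + m2 - (m3 + m4)) := by ring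
        rw [this]
        exact Dvd.dvd.mul_left hsum _
      unfold bb
      rcases fr_add hp0 (u * m1) (u * m2) with ⟨-, a1⟩ | ⟨-, a1⟩ <;>
        rcases fr_add hp0 (u * m3) (u * m4) with ⟨-, a2⟩ | ⟨-, a2⟩
      · left; linarith
      · right; right; linarith
      · right; left; linarith
      · left; linarith) t ht
    simp only [Fin.sum_univ_four, Matrix.cons_val_zero, Matrix.cons_val_one,
      Matrix.cons_val_two, Matrix.cons_val_three, Matrix.head_cons, Matrix.tail_cons,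
      Matrix.cons_val] at h5
    push_cast at h5
    linarith
  have hne : ∀ {y : ℤ}, ¬ (p : ℤ) ∣ y → (y : ZMod p) ≠ 0 := fun hy h =>
    hy ((ZMod.intCast_zmod_eq_zero_iff_dvd _ p).1 h)
  have hs' : (m1 : ZMod p) + (m2 : ZMod p) ≠ 0 := by
    have := hne hs
    push_cast at this
    exact this
  have h5 := pair_rigid hp (hne h1) (hne h2) (hne h3) (hne h4) hs' (by
    intro t
    have : NeZero p := ⟨by omega⟩
    have ht : ((((t : ZMod p).val : ℕ) : ℤ) : ZMod p) = (t : ZMod p) := by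
      push_cast
      exact ZMod.natCast_zmod_val _
    set y : ℤ := (((t : ZMod p).val : ℕ) : ℤ) with hy
    have hyc : IsCoprime y (p : ℤ) := by
      rw [hy, Nat.isCoprime_iff_coprime]
      exact ZMod.val_coe_unit_coprime t
    have e : ∀ m : ℤ, (t : ZMod p) * (m : ZMod p) = ((y * m : ℤ) : ZMod p) := by
      intro m
      rw [Int.cast_mul, ht]
    have hnd : ∀ {m : ℤ}, ¬ (p : ℤ) ∣ m → ¬ (p : ℤ) ∣ y * m := fun hm => not_dvd_of_coprime hyc hm
    rw [e, e, e, e]
    have h6 : (((saw ((y * m1 : ℤ) : ZMod p) + saw ((y * m2 : ℤ) : ZMod p)) : ℤ) : ℚ) =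
        ((saw ((y * m3 : ℤ) : ZMod p) + saw ((y * m4 : ℤ) : ZMod p) : ℤ) : ℚ) := by
      rw [Int.cast_add, Int.cast_add, saw_eq hp (hnd h1), saw_eq hp (hnd h2), saw_eq hp (hnd h3),
        saw_eq hp (hnd h4), ← mul_add, ← mul_add, key0 y hyc]
    exact_mod_cast h6)
  rcases h5 with h | h
  · left
    rw [← ZMod.intCast_zmod_eq_zero_iff_dvd]
    push_cast
    rw [h, sub_self]
  · right
    rw [← ZMod.intCast_zmod_eq_zero_iff_dvd]
    push_cast
    rw [h, sub_self]

theorem not_dvd_of_mem {x : ℕ} (hx : 0 < x ∧ x < p) : ¬ (p : ℤ) ∣ (x : ℤ) :=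
  not_dvd_nat hx.1 hx.2

open Classical in
/-- The classes are small. -/
theorem card_class (hp : 2 < p) (hDe : P.Deligne) (hW : Wustholz P) (hF : FermatPeriods P)
    (w : VV) : ((Finset.Ico 1 p).filter (fun x : ℕ => gv p x = w)).card ≤
      Nat.sqrt (2 * (p - 1)) + 1 := by
  refine card_sidon p _ (fun x hx => ?_) ?_
  · have := Finset.mem_Ico.1 (Finset.mem_filter.1 hx).1
    omega
  · intro x1 hx1 x2 hx2 x3 hx3 x4 hx4 hs hsum
    obtain ⟨a1, b1⟩ := Finset.mem_filter.1 hx1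
    obtain ⟨a2, b2⟩ := Finset.mem_filter.1 hx2
    obtain ⟨a3, b3⟩ := Finset.mem_filter.1 hx3
    obtain ⟨a4, b4⟩ := Finset.mem_filter.1 hx4
    rw [Finset.mem_Ico] at a1 a2 a3 a4
    have c1 : ¬ (p : ℤ) ∣ (x1 : ℤ) + (x2 : ℤ) := by
      intro h
      apply hs
      have : p ∣ x1 + x2 := by exact_mod_cast h
      exact Nat.mod_eq_zero_of_dvd this
    have c2 : (p : ℤ) ∣ ((x1 : ℤ) + (x2 : ℤ)) - ((x3 : ℤ) + (x4 : ℤ)) := by
      have h5 : x3 + x4 ≡ x1 + x2 [MOD p] := hsum.symm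
      have h6 := (Nat.modEq_iff_dvd).1 h5
      push_cast at h6
      exact h6
    have h7 := sidon (P := P) hp hDe hW hF (not_dvd_of_mem (p := p) ⟨by omega, a1.2⟩)
      (not_dvd_of_mem (p := p) ⟨by omega, a2.2⟩) (not_dvd_of_mem (p := p) ⟨by omega, a3.2⟩)
      (not_dvd_of_mem (p := p) ⟨by omega, a4.2⟩) c1 c2 (by rw [b1, b2, b3, b4])
    have h8 : ∀ {x y : ℕ}, 1 ≤ x ∧ x < p → 1 ≤ y ∧ y < p → (p : ℤ) ∣ (x : ℤ) - (y : ℤ) → x = y := by
      intro x y hx hy h
      have h9 : y ≡ x [MOD p] := (Nat.modEq_iff_dvd).2 h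
      exact (Nat.ModEq.eq_of_lt_of_lt h9 hy.2 hx.2).symm
    rcases h7 with h | h
    · exact Or.inl (h8 a1 a3 h)
    · exact Or.inr (h8 a1 a4 h)

end

end Run7.h8.RO
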