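import Mathlib

/-!
# Counting in finite sets which are almost invariant under multiplication
-/

set_option autoImplicit false

namespace Run7.h8.RO

open Finset

open Classical in
/-- Double counting. -/
theorem double_count (F : Finset ℕ) (A : ℕ → Prop) (M C β : ℕ) (k : ℕ → ℕ)
    (h1 : ∀ m ∈ F, ((Icc 1 M).filter (fun d => A (m * k d))).card ≤ C)
    (h2 : ∀ d ∈ Icc 1 M, (F.filter (fun n => ¬ ∃ m ∈ F, n = m * k d)).card ≤ β) :
    M * (F.filter A).card ≤ C * F.card + M * β := by
  have h3 : ∀ d ∈ Icc 1 M, (F.filter A).card ≤ (F.filter (fun m => A (m * k d))).card + β := by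
    intro d hd
    have h4 : F.filter A ⊆ (F.filter (fun m => A (m * k d))).image (fun m => m * k d) ∪
        F.filter (fun n => ¬ ∃ m ∈ F, n = m * k d) := by
      intro n hn
      obtain ⟨a, b⟩ := mem_filter.1 hn
      rw [mem_union]
      by_cases h : ∃ m ∈ F, n = m * k d
      · left
        obtain ⟨m, hm, rfl⟩ := h
        exact mem_image.2 ⟨m, mem_filter.2 ⟨hm, b⟩, rfl⟩
      · right
        exact mem_filter.2 ⟨a, h⟩
    refine (card_le_card h4).trans ((card_union_le _ _).trans ?_)
    exact Nat.add_le_add card_image_le (h2 d hd)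
  have h4 : ∑ d ∈ Icc 1 M, (F.filter (fun m => A (m * k d))).card =
      ∑ m ∈ F, ((Icc 1 M).filter (fun d => A (m * k d))).card := by
    simp only [card_filter]
    exact sum_comm
  have h5 : ∑ d ∈ Icc 1 M, (F.filter A).card ≤
      ∑ d ∈ Icc 1 M, ((F.filter (fun m => A (m * k d))).card + β) := sum_le_sum h3
  rw [sum_const, Nat.card_Icc, sum_add_distrib, sum_const, Nat.card_Icc, h4, smul_eq_mul,
    smul_eq_mul, Nat.add_sub_cancel] at h5
  have h6 : ∑ m ∈ F, ((Icc 1 M).filter (fun d => A (m * k d))).card ≤ ∑ m ∈ F, C := sum_le_sum h1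
  rw [sum_const, smul_eq_mul, mul_comm] at h6
  omega

/-- The divisors with a small power of a prime. -/
theorem card_small_val (N p a J : ℕ) (hN : N ≠ 0) (hp : p.Prime) (ha : 0 < a)
    (hJ : J * a ≤ N.factorization p) :
    J * (N.divisors.filter (fun n => n.factorization p < a)).card ≤ N.divisors.card := by
  classical
  set S := N.divisors.filter (fun n => n.factorization p < a) with hS
  have h1 : J * S.card = (range J ×ˢ S).card := by rw [card_product, card_range]
  rw [h1]
  have hS0 : ∀ n ∈ S, n ∣ N ∧ n ≠ 0 ∧ n.factorization p < a := by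
    intro n hn
    obtain ⟨b, c⟩ := mem_filter.1 hn
    have d := (Nat.mem_divisors.1 b).1
    exact ⟨d, ne_zero_of_dvd_ne_zero hN d, c⟩
  have hval : ∀ j : ℕ, ∀ n ∈ S, (p ^ (a * j) * n).factorization p = a * j + n.factorization p := by
    intro j n hn
    rw [Nat.factorization_mul (pow_ne_zero _ hp.ne_zero) (hS0 n hn).2.1, Finsupp.add_apply,
      hp.factorization_pow, Finsupp.single_eq_same]
  refine card_le_card_of_injOn (fun x => p ^ (a * x.1) * x.2) ?_ ?_
  · intro x hx
    obtain ⟨b, c⟩ := mem_product.1 (mem_coe.1 hx)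
    rw [mem_range] at b
    obtain ⟨c1, c2, c3⟩ := hS0 _ c
    change p ^ (a * x.1) * x.2 ∈ ((N.divisors : Finset ℕ) : Set ℕ)
    rw [mem_coe, Nat.mem_divisors]
    refine ⟨?_, hN⟩
    have h2 : x.2 = p ^ (x.2.factorization p) * (x.2 / p ^ (x.2.factorization p)) :=
      (Nat.ordProj_mul_ordCompl_eq_self x.2 p).symm
    have h3 : p ^ (a * x.1) * x.2 = p ^ (a * x.1 + x.2.factorization p) *
        (x.2 / p ^ (x.2.factorization p)) := by
      conv_lhs => rw [h2]
      rw [pow_add, mul_assoc]
    rw [h3]
    refine Nat.Coprime.mul_dvd_of_dvd_of_dvd ?_ ?_ ?_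
    · exact Nat.Coprime.pow_left _ (Nat.coprime_ordCompl hp c2)
    · refine (hp.pow_dvd_iff_le_factorization hN).2 ?_
      have h4 : a * x.1 + a ≤ J * a := by
        calc a * x.1 + a = (x.1 + 1) * a := by ring
          _ ≤ J * a := Nat.mul_le_mul_right a b
      omega
    · exact (Nat.ordCompl_dvd _ _).trans c1
  · intro x hx y hy hxy
    obtain ⟨b, c⟩ := mem_product.1 (mem_coe.1 hx)
    obtain ⟨b', c'⟩ := mem_product.1 (mem_coe.1 hy)
    have hxy' : p ^ (a * x.1) * x.2 = p ^ (a * y.1) * y.2 := hxy
    have h2 := hval x.1 x.2 c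
    have h3 := hval y.1 y.2 c'
    rw [hxy', h3] at h2
    have h4 := (hS0 _ c).2.2
    have h5 := (hS0 _ c').2.2
    have h6 : x.1 = y.1 := by
      rcases lt_trichotomy x.1 y.1 with h | h | h
      · exfalso
        have : a * x.1 + a ≤ a * y.1 := by
          calc a * x.1 + a = a * (x.1 + 1) := by ring
            _ ≤ a * y.1 := Nat.mul_le_mul_left a h
        omega
      · exact h
      · exfalso
        have : a * y.1 + a ≤ a * x.1 := by
          calc a * y.1 + a = a * (y.1 + 1) := by ring
            _ ≤ a * x.1 := Nat.mul_le_mul_left a h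
        omega
    refine Prod.ext h6 ?_
    rw [h6] at hxy'
    exact Nat.eq_of_mul_eq_mul_left (pow_pos hp.pos _) hxy'

/-- Few divisors of a multiple of a high power of `T` are not multiples of `T`. -/
theorem card_not_dvd (N T J : ℕ) (hN : N ≠ 0) (hT : T ≠ 0) (hJ : T ^ J ∣ N) :
    J * (N.divisors.filter (fun n => ¬ T ∣ n)).card ≤ T.primeFactors.card * N.divisors.card := by
  classical
  have h1 : N.divisors.filter (fun n => ¬ T ∣ n) ⊆ T.primeFactors.biUnion
      (fun p => N.divisors.filter (fun n => n.factorization p < T.factorization p)) := by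
    intro n hn
    obtain ⟨b, c⟩ := mem_filter.1 hn
    have hn0 : n ≠ 0 := ne_zero_of_dvd_ne_zero hN (Nat.mem_divisors.1 b).1
    rw [mem_biUnion]
    by_contra hcon
    push Not at hcon
    apply c
    rw [← Nat.factorization_le_iff_dvd hT hn0]
    intro p
    by_cases hp : p ∈ T.primeFactors
    · by_contra h
      exact hcon p hp (mem_filter.2 ⟨b, not_le.1 h⟩)
    · rw [← Nat.support_factorization, Finsupp.notMem_support_iff] at hp
      rw [hp]
      exact Nat.zero_le _
  calc J * (N.divisors.filter (fun n => ¬ T ∣ n)).card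
      ≤ J * ∑ p ∈ T.primeFactors,
        (N.divisors.filter (fun n => n.factorization p < T.factorization p)).card :=
        Nat.mul_le_mul_left J ((card_le_card h1).trans card_biUnion_le)
    _ = ∑ p ∈ T.primeFactors,
        J * (N.divisors.filter (fun n => n.factorization p < T.factorization p)).card := by
        rw [mul_sum]
    _ ≤ ∑ p ∈ T.primeFactors, N.divisors.card := by
        refine sum_le_sum fun p hp => ?_
        have hpp := Nat.prime_of_mem_primeFactors hp
        refine card_small_val N p _ J hN hpp ?_ ?_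
        · exact hpp.factorization_pos_of_dvd hT (Nat.dvd_of_mem_primeFactors hp)
        · have h2 := (Nat.factorization_le_iff_dvd (pow_ne_zero J hT) hN).2 hJ p
          rw [Nat.factorization_pow] at h2
          simpa using h2
    _ = T.primeFactors.card * N.divisors.card := by rw [sum_const, smul_eq_mul]

end Run7.h8.RO
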