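import Pool.Agent.Run7.h8.RO.Small
import Pool.Agent.Run7.h8.RO.Folner

/-!
# The numbers `Γ (1 / n)` for the divisors `n` of a number
-/

set_option autoImplicit false
set_option linter.unusedSectionVars false
set_option linter.unusedVariables false

namespace Run7.h8.RO

open Pool.Agent.W547.KB Pool.Agent.W537.PC Pool.Agent.W527.Vec Pool.Agent.H916R2

/-- `x` is an algebraic multiple of `z`. -/
def AlgMult (z x : ℂ) : Prop := ∃ α : ℂ, IsAlgebraic ℚ α ∧ x = α * z

variable {P : PeriodSystem}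

/-- Multiplicative density. -/
theorem folner (hDe : P.Deligne) (hW : Wustholz P) (hF : FermatPeriods P) (ε : ℝ) (hε : 0 < ε) :
    ∃ (K : Finset ℕ) (δ : ℝ), (∀ k ∈ K, 0 < k) ∧ 0 < δ ∧ ∀ F : Finset ℕ, (∀ n ∈ F, 0 < n) →
      (∀ k ∈ K, ({n : ℕ | n ∈ F ∧ ¬ ∃ m ∈ F, n = m * k}.ncard : ℝ) ≤ δ * F.card) →
      ∀ z : ℂ, ({n : ℕ | n ∈ F ∧ AlgMult z (Complex.Gamma (1 / n))}.ncard : ℝ) ≤ ε * F.card := by
  classical
  obtain ⟨k0, hk0⟩ := exists_nat_ge (6 / ε)
  set k : ℕ := k0 + 1 with hk
  have hk1 : (0 : ℝ) < k := by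
    have : 0 < k := by omega
    exact_mod_cast this
  have hk2 : 6 / ε ≤ k := by
    rw [hk]; push_cast; linarith
  set M : ℕ := k * k with hM
  have hM0 : 0 < M := Nat.mul_pos (by omega) (by omega)
  have hsq : Nat.sqrt (4 * M) = 2 * k := by
    have : 4 * M = (2 * k) * (2 * k) := by rw [hM]; ring
    rw [this, Nat.sqrt_eq]
  set R : ℕ := (M + 2).factorial with hR
  set T : ℕ := R * R with hT
  have hR0 : 0 < R := Nat.factorial_pos _
  have hT0 : 0 < T := Nat.mul_pos hR0 hR0
  have hMR : M * M < R := by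
    have h1 : R = (M + 2) * ((M + 1) * M.factorial) := by
      rw [hR, Nat.factorial_succ, Nat.factorial_succ]
    have h2 : 1 ≤ M.factorial := Nat.factorial_pos M
    have h3 : (M + 1) ≤ (M + 1) * M.factorial := Nat.le_mul_of_pos_right _ h2
    calc M * M < (M + 2) * (M + 1) := by nlinarith
      _ ≤ R := by rw [h1]; exact Nat.mul_le_mul_left _ h3
  have hdT : ∀ d ∈ Finset.Icc 1 M, d ∣ T := by
    intro d hd
    rw [Finset.mem_Icc] at hd
    exact Dvd.dvd.mul_right (Nat.dvd_factorial (by omega) (by omega)) R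
  refine ⟨(Finset.Icc 1 M).image (fun d => T / d), ε / 2, ?_, by positivity, ?_⟩
  · intro x hx
    obtain ⟨d, hd, rfl⟩ := Finset.mem_image.1 hx
    have := Finset.mem_Icc.1 hd
    exact Nat.div_pos (Nat.le_of_dvd hT0 (hdT d hd)) (by omega)
  intro F hF0 hFk z
  set β : ℕ := ⌊ε / 2 * F.card⌋₊ with hβ
  have h1 := double_count F (fun n => AlgMult z (Complex.Gamma (1 / n))) M (2 * k + 1) β
    (fun d => T / d) ?_ ?_
  · have h2 : {n : ℕ | n ∈ F ∧ AlgMult z (Complex.Gamma (1 / n))}.ncard =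
        (F.filter (fun n : ℕ => AlgMult z (Complex.Gamma (1 / n)))).card := by
      rw [← Set.ncard_coe_finset]
      congr 1
      ext n
      simp
    rw [h2]
    have h3 : (β : ℝ) ≤ ε / 2 * F.card := Nat.floor_le (by positivity)
    have h4 : (M : ℝ) * ((F.filter (fun n : ℕ => AlgMult z (Complex.Gamma (1 / n)))).card : ℝ) ≤
        (2 * k + 1) * F.card + M * β := by exact_mod_cast h1
    have h5 : (M : ℝ) = k * k := by rw [hM]; push_cast; ring
    have h6 : (2 * (k : ℝ) + 1) ≤ M * (ε / 2) := by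
      have h7 : 6 ≤ ε * k := by
        rw [div_le_iff₀ hε] at hk2
        linarith
      have h8 : (1 : ℝ) ≤ k := by
        have : 1 ≤ k := by omega
        exact_mod_cast this
      rw [h5]
      nlinarith
    have hM' : (0 : ℝ) < M := by exact_mod_cast hM0
    have h9 : (M : ℝ) * ((F.filter (fun n : ℕ => AlgMult z (Complex.Gamma (1 / n)))).card : ℝ) ≤
        M * (ε * F.card) := by
      calc _ ≤ (2 * k + 1) * (F.card : ℝ) + M * β := h4
        _ ≤ M * (ε / 2) * F.card + M * (ε / 2 * F.card) := by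
          refine add_le_add (mul_le_mul_of_nonneg_right h6 (Nat.cast_nonneg _))
            (mul_le_mul_of_nonneg_left h3 hM'.le)
        _ = M * (ε * F.card) := by ring
    exact le_of_mul_le_mul_left h9 hM'
  · intro m hm
    have hm0 := hF0 m hm
    have h2 := count_small (D := m * T) (P := P) (R := m * R) (M := M) hDe hW hF hM0 ?_
      (Nat.mul_pos hm0 hR0) ?_ z
    · rw [hsq] at h2
      refine le_trans ?_ h2
      rw [← Set.ncard_coe_finset]
      refine Set.ncard_le_ncard ?_ ?_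
      · intro d hd
        rw [Finset.mem_coe, Finset.mem_filter] at hd
        obtain ⟨a, b⟩ := hd
        have a' := Finset.mem_Icc.1 a
        refine ⟨by omega, a'.2, ?_⟩
        obtain ⟨α, hα, h⟩ := b
        refine ⟨α, hα, ?_⟩
        rw [← h]
        congr 1
        obtain ⟨c, hc⟩ := hdT d a
        have hd0 : 0 < d := by omega
        have h4 : T / d = c := by rw [hc]; exact Nat.mul_div_cancel_left c hd0
        have hc0 : c ≠ 0 := by
          rintro rfl
          rw [mul_zero] at hc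
          omega
        have hd0' : (d : ℂ) ≠ 0 := by exact_mod_cast hd0.ne'
        have hc0' : (c : ℂ) ≠ 0 := by exact_mod_cast hc0
        have hm0' : (m : ℂ) ≠ 0 := by exact_mod_cast hm0.ne'
        rw [h4, hc]
        push_cast
        field_simp
      · exact (Set.finite_Iic M).subset fun d hd => hd.2.1
    · intro p hp hpd
      rcases (Nat.Prime.dvd_mul hp).1 hpd with h | h
      · exact Dvd.dvd.mul_right h R
      · rcases (Nat.Prime.dvd_mul hp).1 h with h | h <;> exact Dvd.dvd.mul_left h m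
    · have h3 : M * M * (m * R) = m * (M * M * R) := by ring
      rw [h3, hT]
      exact Nat.mul_lt_mul_of_pos_left (Nat.mul_lt_mul_of_pos_right hMR hR0) hm0
  · intro d hd
    have h2 := hFk (T / d) (Finset.mem_image.2 ⟨d, hd, rfl⟩)
    refine Nat.le_floor ?_
    refine le_trans (le_of_eq ?_) h2
    congr 1
    rw [← Set.ncard_coe_finset]
    congr 1
    ext n
    simp

/-- The divisors of a highly divisible number. -/
theorem divisors_small (hDe : P.Deligne) (hW : Wustholz P) (hF : FermatPeriods P) (ε : ℝ)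
    (hε : 0 < ε) : ∃ N₀ : ℕ, 0 < N₀ ∧ ∀ N : ℕ, 0 < N → N₀ ∣ N → ∀ z : ℂ,
      ({n : ℕ | n ∣ N ∧ AlgMult z (Complex.Gamma (1 / n))}.ncard : ℝ) ≤ ε * N.divisors.card := by
  classical
  obtain ⟨K, δ, hK, hδ, h⟩ := folner (P := P) hDe hW hF ε hε
  set T : ℕ := ∏ k ∈ K, k with hT
  have hT0 : T ≠ 0 := Finset.prod_ne_zero_iff.2 fun k hk => (hK k hk).ne'
  obtain ⟨J0, hJ0⟩ := exists_nat_ge ((T.primeFactors.card : ℝ) / δ)
  set J : ℕ := J0 + 1 with hJ
  have hJ1 : (0 : ℝ) < J := by
    have : 0 < J := by omega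
    exact_mod_cast this
  have hJ2 : (T.primeFactors.card : ℝ) ≤ δ * J := by
    have h1 : (T.primeFactors.card : ℝ) / δ ≤ J := by rw [hJ]; push_cast; linarith
    rw [div_le_iff₀ hδ] at h1
    linarith
  refine ⟨T ^ J, pow_pos (Nat.pos_of_ne_zero hT0) J, fun N hN hNd z => ?_⟩
  have h1 := h N.divisors (fun n hn => Nat.pos_of_mem_divisors hn) ?_ z
  · refine le_trans (le_of_eq ?_) h1
    congr 2
    ext n
    simp [hN.ne']
  · intro k hk
    have hkT : k ∣ T := Finset.dvd_prod_of_mem _ hk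
    have h2 := card_not_dvd N T J hN.ne' hT0 hNd
    have h3 : {n : ℕ | n ∈ N.divisors ∧ ¬ ∃ m ∈ N.divisors, n = m * k}.ncard ≤
        (N.divisors.filter (fun n => ¬ T ∣ n)).card := by
      rw [← Set.ncard_coe_finset]
      refine Set.ncard_le_ncard ?_ (Finset.finite_toSet _)
      rintro n ⟨a, b⟩
      rw [Finset.mem_coe, Finset.mem_filter]
      refine ⟨a, fun hTn => b ?_⟩
      obtain ⟨m, hm⟩ := hkT.trans hTn
      refine ⟨m, Nat.mem_divisors.2 ⟨?_, hN.ne'⟩, by rw [hm, mul_comm]⟩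
      exact (Dvd.intro_left k hm.symm).trans (Nat.mem_divisors.1 a).1
    have h4 : (J : ℝ) * ((N.divisors.filter (fun n => ¬ T ∣ n)).card : ℝ) ≤
        (T.primeFactors.card : ℝ) * N.divisors.card := by exact_mod_cast h2
    have h5 : (J : ℝ) * ((N.divisors.filter (fun n => ¬ T ∣ n)).card : ℝ) ≤
        J * (δ * N.divisors.card) := by
      calc _ ≤ (T.primeFactors.card : ℝ) * N.divisors.card := h4
        _ ≤ (δ * J) * N.divisors.card := mul_le_mul_of_nonneg_right hJ2 (Nat.cast_nonneg _)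
        _ = J * (δ * N.divisors.card) := by ring
    have h6 := le_of_mul_le_mul_left h5 hJ1
    refine le_trans ?_ h6
    exact_mod_cast h3

/-- Almost all divisors of `k!`. -/
theorem factorial_tendsto (hDe : P.Deligne) (hW : Wustholz P) (hF : FermatPeriods P) :
    Filter.Tendsto (fun k : ℕ =>
      ({n : ℕ | n ∣ k.factorial ∧ Transcendental ℚ (Real.Gamma (1 / n))}.ncard : ℝ) /
        k.factorial.divisors.card) Filter.atTop (nhds 1) := by
  classical
  rw [Metric.tendsto_atTop]
  intro ε hε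
  obtain ⟨N₀, hN₀, h⟩ := divisors_small (P := P) hDe hW hF (ε / 2) (by positivity)
  refine ⟨N₀, fun k hk => ?_⟩
  have h1 := h k.factorial (Nat.factorial_pos k) (Nat.dvd_factorial hN₀ hk) 1
  have h2 : {n : ℕ | n ∣ k.factorial ∧ AlgMult 1 (Complex.Gamma (1 / n))} =
      {n : ℕ | n ∣ k.factorial ∧ IsAlgebraic ℚ (Real.Gamma (1 / n))} := by
    ext n
    refine and_congr_right fun _ => ?_
    have h3 : Complex.Gamma (1 / n) = ((Real.Gamma (1 / n) : ℝ) : ℂ) := by
      rw [← Complex.Gamma_ofReal]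
      push_cast
      rfl
    unfold AlgMult
    rw [h3]
    constructor
    · rintro ⟨α, hα, h4⟩
      rw [mul_one] at h4
      rw [← h4] at hα
      exact isAlgebraic_ofReal.1 hα
    · intro h4
      exact ⟨_, isAlgebraic_ofReal.2 h4, by rw [mul_one]⟩
  rw [h2] at h1
  set A := {n : ℕ | n ∣ k.factorial ∧ IsAlgebraic ℚ (Real.Gamma (1 / n))} with hA
  set B := {n : ℕ | n ∣ k.factorial ∧ Transcendental ℚ (Real.Gamma (1 / n))} with hB
  have hfin : ∀ s : ℕ → Prop, {n : ℕ | n ∣ k.factorial ∧ s n}.Finite := fun s =>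
    (Set.finite_Iic k.factorial).subset fun n hn =>
      Nat.le_of_dvd (Nat.factorial_pos k) hn.1
  have h4 : A.ncard + B.ncard = k.factorial.divisors.card := by
    rw [← Set.ncard_union_eq ?_ (hfin _) (hfin _), ← Set.ncard_coe_finset]
    · congr 1
      ext n
      simp only [hA, hB, Set.mem_union, Set.mem_setOf_eq, Finset.mem_coe, Nat.mem_divisors]
      constructor
      · rintro (⟨a, -⟩ | ⟨a, -⟩) <;> exact ⟨a, (Nat.factorial_pos k).ne'⟩
      · rintro ⟨a, -⟩
        by_cases h5 : IsAlgebraic ℚ (Real.Gamma (1 / (n : ℝ)))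
        · exact Or.inl ⟨a, h5⟩
        · exact Or.inr ⟨a, h5⟩
    · rw [Set.disjoint_left]
      rintro n ⟨-, a⟩ ⟨-, b⟩
      exact b a
  have h5 : (0 : ℝ) < k.factorial.divisors.card := by
    have : 0 < k.factorial.divisors.card :=
      Finset.card_pos.2 ⟨1, Nat.mem_divisors.2 ⟨one_dvd _, (Nat.factorial_pos k).ne'⟩⟩
    exact_mod_cast this
  have h6 : (A.ncard : ℝ) + B.ncard = k.factorial.divisors.card := by exact_mod_cast h4
  rw [Real.dist_eq, abs_lt]
  have h7 : (B.ncard : ℝ) / k.factorial.divisors.card - 1 =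
      -(A.ncard : ℝ) / k.factorial.divisors.card := by
    field_simp
    linarith
  have h8 : (A.ncard : ℝ) / k.factorial.divisors.card ≤ ε / 2 := by
    rw [div_le_iff₀ h5]
    exact h1
  have h9 : (0 : ℝ) ≤ (A.ncard : ℝ) / k.factorial.divisors.card := by positivity
  rw [h7, neg_div]
  constructor <;> linarith

end Run7.h8.RO
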