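import Pool.Agent.Run7.h8.RO.HSum
import Pool.Agent.TH10.RP.JC

/-!
# The Fourier coefficients of the sawtooth and generalised Dedekind sums
-/

set_option autoImplicit false

namespace Run7.h8.RO

open Finset Pool.Agent.H916R2 ZMod

variable {D : ℕ} [NeZero D]

/-- The sawtooth with complex values. -/
noncomputable def sc (x : ZMod D) : ℂ := (saw x : ℂ)

theorem sin_bound {a d : ℕ} (ha : 0 < a) (had : a < d) :
    2 * dn d a / d ≤ Real.sin (Real.pi * a / d) := by
  have hd : (0 : ℝ) < d := by exact_mod_cast (ha.trans had)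
  have ha' : (0 : ℝ) < a := by exact_mod_cast ha
  have had' : (a : ℝ) < d := by exact_mod_cast had
  have hpi := Real.pi_pos
  rcases le_total (2 * (a : ℝ)) d with h | h
  · have h1 := Real.mul_le_sin (x := Real.pi * a / d) (by positivity) (by
      rw [div_le_div_iff₀ hd two_pos]
      nlinarith)
    have h2 : 2 / Real.pi * (Real.pi * a / d) = 2 * a / d := by field_simp
    rw [h2] at h1
    refine le_trans ?_ h1
    refine div_le_div_of_nonneg_right ?_ hd.le
    have : dn d a ≤ a := min_le_left _ _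
    linarith
  · have h1 := Real.mul_le_sin (x := Real.pi * (d - a) / d) (by
      have : (0 : ℝ) < (d : ℝ) - a := by linarith
      positivity) (by
      rw [div_le_div_iff₀ hd two_pos]
      nlinarith)
    have h2 : 2 / Real.pi * (Real.pi * (d - a) / d) = 2 * (d - a) / d := by field_simp
    have h3 : Real.sin (Real.pi * (d - a) / d) = Real.sin (Real.pi * a / d) := by
      rw [← Real.sin_pi_sub (Real.pi * a / d)]
      congr 1
      field_simp
    rw [h2, h3] at h1
    refine le_trans ?_ h1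
    refine div_le_div_of_nonneg_right ?_ hd.le
    have : dn d a ≤ (d : ℝ) - a := min_le_right _ _
    linarith

theorem add_char_sub_one {k : ZMod D} (hk : k ≠ 0) :
    4 * dn D k.val / D ≤ ‖(stdAddChar k : ℂ) - 1‖ := by
  have hK : 0 < k.val := by
    rw [Nat.pos_iff_ne_zero]
    intro h
    exact hk ((ZMod.val_eq_zero k).1 h)
  have h1 : (stdAddChar k : ℂ) = Complex.exp (Complex.I * ((2 * Real.pi * k.val / D : ℝ) : ℂ)) := by
    have h2 := stdAddChar_coe (N := D) (k.val : ℤ)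
    have h3 : (((k.val : ℤ)) : ZMod D) = k := by
      push_cast
      exact ZMod.natCast_zmod_val k
    rw [h3] at h2
    rw [h2]
    congr 1
    push_cast
    ring
  rw [h1, Complex.norm_exp_I_mul_ofReal_sub_one]
  have h4 : (2 * Real.pi * k.val / D : ℝ) / 2 = Real.pi * k.val / D := by ring
  rw [h4]
  have h5 := sin_bound hK (ZMod.val_lt k)
  have h6 : (0 : ℝ) ≤ 2 * dn D k.val / D := by
    have := dn_nonneg (ZMod.val_lt k)
    positivity
  have h7 : 0 ≤ Real.sin (Real.pi * k.val / D) := h6.trans h5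
  rw [Real.norm_of_nonneg (by positivity)]
  calc 4 * dn D k.val / D = 2 * (2 * dn D k.val / D) := by ring
    _ ≤ 2 * Real.sin (Real.pi * k.val / D) := by linarith

theorem dft_bound (k : ZMod D) : ‖𝓕 (sc (D := D)) k‖ ≤ (D : ℝ) ^ 2 / 2 * hz k := by
  have hD : 0 < D := Nat.pos_of_ne_zero (NeZero.ne D)
  have hD' : (0 : ℝ) < D := by exact_mod_cast hD
  by_cases hk : k = 0
  · rw [hk, hz_zero, mul_zero, dft_apply_zero]
    have h1 : ∑ j : ZMod D, sc j = -∑ j : ZMod D, sc j := by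
      conv_lhs => rw [← Equiv.sum_comp (Equiv.neg (ZMod D))]
      rw [← sum_neg_distrib]
      refine sum_congr rfl fun j _ => ?_
      unfold sc
      rw [Equiv.neg_apply, saw_neg]
      push_cast
      rfl
    have h2 : ∑ j : ZMod D, sc j = 0 := by
      have h3 : (2 : ℂ) * ∑ j : ZMod D, sc j = 0 := by linear_combination h1
      exact (mul_eq_zero.1 h3).resolve_left two_ne_zero
    rw [h2, norm_zero]
  · set η : ℂ := stdAddChar (-k) with hη
    have hne : η ≠ 1 := by
      intro h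
      have h1 : (stdAddChar (-k) : ℂ) = stdAddChar (0 : ZMod D) := by
        rw [← hη, h, AddChar.map_zero_eq_one]
      exact hk (neg_eq_zero.1 (injective_stdAddChar h1))
    have hpow : ∀ j : ℕ, (stdAddChar (-((j : ZMod D) * k)) : ℂ) = η ^ j := by
      intro j
      rw [hη, ← AddChar.map_nsmul_eq_pow]
      congr 1
      rw [nsmul_eq_mul]
      ring
    have hηD : η ^ D = 1 := by
      rw [← hpow D]
      rw [ZMod.natCast_self, zero_mul, neg_zero, AddChar.map_zero_eq_one]
    have h1 : 𝓕 (sc (D := D)) k = D * ((η + 1) / (η - 1)) := by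
      rw [← Pool.Agent.TH10.RP.JC.saw_sum D hD η hηD hne, dft_apply,
        ← Pool.Agent.TH10.RP.JC.range_sum D]
      refine sum_congr rfl fun j _ => ?_
      rw [hpow, smul_eq_mul, mul_comm]
      rfl
    have h2 : ‖η‖ = 1 := by
      have h3 := congrArg norm hηD
      rw [norm_pow, norm_one] at h3
      exact (pow_eq_one_iff_of_nonneg (norm_nonneg _) hD.ne').1 h3
    have h3 : ‖η + 1‖ ≤ 2 := by
      refine (norm_add_le _ _).trans ?_
      rw [h2, norm_one]
      norm_num
    have h4 := add_char_sub_one (neg_ne_zero.2 hk)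
    rw [← hη] at h4
    have h5 : 0 < dn D (-k).val := by
      have h6 : 0 < (-k).val := by
        rw [Nat.pos_iff_ne_zero]
        intro h
        exact neg_ne_zero.2 hk ((ZMod.val_eq_zero _).1 h)
      have h7 := ZMod.val_lt (-k)
      have h8 : ((-k).val : ℝ) < D := by exact_mod_cast h7
      exact lt_min (by exact_mod_cast h6) (by linarith)
    have h6 : hz k = (dn D (-k).val)⁻¹ := by
      rw [← hz_neg]
      rfl
    rw [h1, h6, norm_mul, norm_div, Complex.norm_natCast]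
    have h7 : 0 < ‖η - 1‖ := norm_pos_iff.2 (sub_ne_zero.2 hne)
    have h8 : ‖η + 1‖ / ‖η - 1‖ ≤ 2 / (4 * dn D (-k).val / D) := by
      refine div_le_div₀ (by norm_num) h3 (by positivity) h4
    calc (D : ℝ) * (‖η + 1‖ / ‖η - 1‖) ≤ D * (2 / (4 * dn D (-k).val / D)) :=
        mul_le_mul_of_nonneg_left h8 hD'.le
      _ = (D : ℝ) ^ 2 / 2 * (dn D (-k).val)⁻¹ := by
        field_simp
        norm_num

/-- The generalised Dedekind sum. -/
noncomputable def DS (t t' : (ZMod D)ˣ) : ℝ :=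
  ∑ x : ZMod D, (saw ((t : ZMod D) * x) : ℝ) * (saw ((t' : ZMod D) * x) : ℝ)

theorem DS_bound (t t' : (ZMod D)ˣ) :
    |DS t t'| ≤ (D : ℝ) ^ 3 / 4 * ∑ k : ZMod D, hz k * hz (k * ((t' * t⁻¹ : (ZMod D)ˣ) : ZMod D)) := by
  have hD : 0 < D := Nat.pos_of_ne_zero (NeZero.ne D)
  have hD' : (0 : ℝ) < D := by exact_mod_cast hD
  have hDc : (D : ℂ) ≠ 0 := by exact_mod_cast hD.ne'
  set F := 𝓕 (sc (D := D)) with hF
  have hinv : ∀ y : ZMod D, sc y = (D : ℂ)⁻¹ * ∑ k : ZMod D, stdAddChar (k * y) * F k := by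
    intro y
    have h1 : (𝓕⁻ F) y = sc y := by
      rw [hF]
      exact congrFun (ZMod.dft.symm_apply_apply (sc (D := D))) y
    rw [← h1, invDFT_apply, smul_eq_mul]
    rfl
  have h1 : ((DS t t' : ℝ) : ℂ) = (D : ℂ)⁻¹ * ∑ k : ZMod D, F k *
      F (-(k * ((t' * t⁻¹ : (ZMod D)ˣ) : ZMod D))) := by
    unfold DS
    push_cast
    have h2 : ∀ x : ZMod D, ((saw ((t : ZMod D) * x) : ℂ)) * (saw ((t' : ZMod D) * x) : ℂ) =
        (D : ℂ)⁻¹ * ∑ k : ZMod D, F k * (stdAddChar (k * ((t' : ZMod D) * x)) *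
          (saw ((t : ZMod D) * x) : ℂ)) := by
      intro x
      have h3 := hinv ((t' : ZMod D) * x)
      change (saw ((t' : ZMod D) * x) : ℂ) = _ at h3
      rw [h3, mul_sum, mul_sum, mul_sum]
      refine sum_congr rfl fun k _ => ?_
      ring
    rw [sum_congr rfl fun x _ => h2 x, ← mul_sum, sum_comm]
    congr 1
    refine sum_congr rfl fun k _ => ?_
    rw [← mul_sum]
    congr 1
    rw [hF, dft_apply]
    refine Eq.trans ?_ (Equiv.sum_comp (Units.mulLeft t) (fun j : ZMod D =>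
      (stdAddChar (-(j * -(k * ((t' * t⁻¹ : (ZMod D)ˣ) : ZMod D)))) : ℂ) • sc j))
    refine sum_congr rfl fun x _ => ?_
    simp only [Units.mulLeft_apply, smul_eq_mul]
    unfold sc
    congr 2
    have h4 : ((t⁻¹ : (ZMod D)ˣ) : ZMod D) * (t : ZMod D) = 1 := by simp
    rw [Units.val_mul]
    linear_combination (-(k * (t' : ZMod D) * x)) * h4
  have h2 : |DS t t'| = ‖((DS t t' : ℝ) : ℂ)‖ := by
    rw [Complex.norm_real, Real.norm_eq_abs]
  rw [h2, h1, norm_mul, norm_inv, Complex.norm_natCast]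
  calc (D : ℝ)⁻¹ * ‖∑ k : ZMod D, F k * F (-(k * ((t' * t⁻¹ : (ZMod D)ˣ) : ZMod D)))‖
      ≤ (D : ℝ)⁻¹ * ∑ k : ZMod D, ((D : ℝ) ^ 2 / 2 * hz k) *
        ((D : ℝ) ^ 2 / 2 * hz (k * ((t' * t⁻¹ : (ZMod D)ˣ) : ZMod D))) := by
        refine mul_le_mul_of_nonneg_left ?_ (by positivity)
        refine (norm_sum_le _ _).trans (sum_le_sum fun k _ => ?_)
        rw [norm_mul]
        refine mul_le_mul (dft_bound k) ?_ (norm_nonneg _) (mul_nonneg (by positivity) (hz_nonneg _))
        refine (dft_bound _).trans_eq ?_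
        rw [hz_neg]
    _ = (D : ℝ) ^ 3 / 4 * ∑ k : ZMod D, hz k * hz (k * ((t' * t⁻¹ : (ZMod D)ˣ) : ZMod D)) := by
        rw [mul_sum, mul_sum]
        refine sum_congr rfl fun k _ => ?_
        field_simp
        ring

theorem sum_DS (t : (ZMod D)ˣ) :
    ∑ t' : (ZMod D)ˣ, |DS t t'| ≤ (D : ℝ) ^ 3 * (1 + Real.log D) ^ 2 := by
  have hD : 0 < D := Nat.pos_of_ne_zero (NeZero.ne D)
  have hL : 0 ≤ 1 + Real.log D := by
    have := Real.log_natCast_nonneg D
    linarith
  calc ∑ t' : (ZMod D)ˣ, |DS t t'|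
      ≤ ∑ t' : (ZMod D)ˣ, (D : ℝ) ^ 3 / 4 * ∑ k : ZMod D, hz k *
          hz (k * ((t' * t⁻¹ : (ZMod D)ˣ) : ZMod D)) := sum_le_sum fun t' _ => DS_bound t t'
    _ = (D : ℝ) ^ 3 / 4 * ∑ k : ZMod D, hz k * ∑ t' : (ZMod D)ˣ,
          hz (k * ((t' * t⁻¹ : (ZMod D)ˣ) : ZMod D)) := by
        rw [← mul_sum, sum_comm]
        simp only [mul_sum]
    _ ≤ (D : ℝ) ^ 3 / 4 * ∑ k : ZMod D, hz k * (2 * (1 + Real.log D)) := by
        refine mul_le_mul_of_nonneg_left ?_ (by positivity)
        refine sum_le_sum fun k _ => mul_le_mul_of_nonneg_left ?_ (hz_nonneg k)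
        refine le_trans ?_ (sum_hz k)
        have h1 : ∑ t' : (ZMod D)ˣ, hz (k * ((t' * t⁻¹ : (ZMod D)ˣ) : ZMod D)) =
            ∑ u : (ZMod D)ˣ, hz (k * (u : ZMod D)) :=
          Equiv.sum_comp (Equiv.mulRight t⁻¹) (fun u : (ZMod D)ˣ => hz (k * (u : ZMod D)))
        rw [h1]
        have h2 : ∑ u : (ZMod D)ˣ, hz (k * (u : ZMod D)) =
            ∑ x ∈ (univ : Finset (ZMod D)ˣ).map
              (⟨fun u : (ZMod D)ˣ => (u : ZMod D), Units.val_injective⟩ : (ZMod D)ˣ ↪ ZMod D),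
              hz (k * x) := by
          rw [sum_map]
          rfl
        rw [h2]
        exact sum_le_sum_of_subset_of_nonneg (subset_univ _) fun x _ _ => hz_nonneg _
    _ ≤ (D : ℝ) ^ 3 / 4 * ((2 * (1 + Real.log D)) * (2 * (1 + Real.log D))) := by
        refine mul_le_mul_of_nonneg_left ?_ (by positivity)
        rw [← sum_mul]
        refine mul_le_mul_of_nonneg_right ?_ (by positivity)
        have h1 := sum_hz (D := D) 1
        simpa only [one_mul] using h1
    _ = (D : ℝ) ^ 3 * (1 + Real.log D) ^ 2 := by ring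

end Run7.h8.RO
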