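import Pool.Agent.Run7.h8.RO.Defs

/-!
# Fractional parts
-/

set_option autoImplicit false

namespace Run7.h8.RO

variable {D : ℕ}

theorem fr_nonneg (t : ℤ) : 0 ≤ fr D t := Int.fract_nonneg _

theorem fr_lt_one (t : ℤ) : fr D t < 1 := Int.fract_lt_one _

theorem fr_add_mul (hD : 0 < D) (t n : ℤ) : fr D (t + D * n) = fr D t := by
  unfold fr
  have h0 : (D : ℚ) ≠ 0 := by exact_mod_cast hD.ne'
  have h1 : (((t + D * n : ℤ) : ℚ) / D) = (t : ℚ) / D + (n : ℤ) := by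
    push_cast
    field_simp
  rw [h1, Int.fract_add_intCast]

theorem fr_eq_of_dvd (hD : 0 < D) {t t' : ℤ} (h : (D : ℤ) ∣ t - t') : fr D t = fr D t' := by
  obtain ⟨n, hn⟩ := h
  have h1 : t = t' + D * n := by linarith
  rw [h1, fr_add_mul hD]

theorem fr_eq_zero_iff (hD : 0 < D) (t : ℤ) : fr D t = 0 ↔ (D : ℤ) ∣ t := by
  have h0 : (D : ℚ) ≠ 0 := by exact_mod_cast hD.ne'
  unfold fr
  rw [Int.fract_eq_zero_iff]
  constructor
  · rintro ⟨n, hn⟩
    refine ⟨n, ?_⟩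
    rw [eq_div_iff h0] at hn
    have h2 : ((n * D : ℤ) : ℚ) = (t : ℚ) := by
      push_cast
      exact hn
    have h3 : n * D = t := by exact_mod_cast h2
    rw [← h3, mul_comm]
  · rintro ⟨n, rfl⟩
    refine ⟨n, ?_⟩
    push_cast
    field_simp

theorem fr_pos (hD : 0 < D) {t : ℤ} (h : ¬ (D : ℤ) ∣ t) : 0 < fr D t :=
  lt_of_le_of_ne (fr_nonneg t) fun h1 => h ((fr_eq_zero_iff hD t).1 h1.symm)

theorem fr_neg (hD : 0 < D) {t : ℤ} (h : ¬ (D : ℤ) ∣ t) : fr D (-t) = 1 - fr D t := by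
  unfold fr
  have h1 : ((-t : ℤ) : ℚ) / D = -((t : ℚ) / D) := by
    push_cast
    ring
  rw [h1, Int.fract_neg]
  exact (fr_pos hD h).ne'

/-- The fractional part of a sum. -/
theorem fr_add (hD : 0 < D) (t t' : ℤ) : (fr D t + fr D t' < 1 ∧ fr D (t + t') = fr D t + fr D t') ∨
    (1 ≤ fr D t + fr D t' ∧ fr D (t + t') = fr D t + fr D t' - 1) := by
  have h0 : (D : ℚ) ≠ 0 := by exact_mod_cast hD.ne'
  have h1 : ∃ n : ℤ, fr D (t + t') = fr D t + fr D t' + n := by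
    refine ⟨⌊(t : ℚ) / D⌋ + ⌊(t' : ℚ) / D⌋ - ⌊((t + t' : ℤ) : ℚ) / D⌋, ?_⟩
    unfold fr Int.fract
    push_cast
    ring
  obtain ⟨n, hn⟩ := h1
  have a1 := fr_nonneg (D := D) t
  have a2 := fr_lt_one (D := D) t
  have a3 := fr_nonneg (D := D) t'
  have a4 := fr_lt_one (D := D) t'
  have a5 := fr_nonneg (D := D) (t + t')
  have a6 := fr_lt_one (D := D) (t + t')
  have h2 : n = 0 ∨ n = -1 := by
    have b1 : ((-2 : ℤ) : ℚ) < (n : ℚ) := by push_cast; linarith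
    have b2 : (n : ℚ) < ((1 : ℤ) : ℚ) := by push_cast; linarith
    have c1 : -2 < n := by exact_mod_cast b1
    have c2 : n < 1 := by exact_mod_cast b2
    omega
  rcases h2 with rfl | rfl
  · left
    constructor
    · push_cast at hn
      linarith
    · rw [hn]; push_cast; ring
  · right
    constructor
    · push_cast at hn
      linarith
    · rw [hn]; push_cast; ring

/-- The centred fractional part. -/
def bb (D : ℕ) (t : ℤ) : ℚ := fr D t - 1 / 2

theorem bb_neg (hD : 0 < D) {t : ℤ} (h : ¬ (D : ℤ) ∣ t) : bb D (-t) = - bb D t := by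
  unfold bb
  rw [fr_neg hD h]
  ring

theorem bb_eq_of_dvd (hD : 0 < D) {t t' : ℤ} (h : (D : ℤ) ∣ t - t') : bb D t = bb D t' := by
  unfold bb
  rw [fr_eq_of_dvd hD h]

/-- The sign. -/
theorem bb_sign (hD : 0 < D) (t t' : ℤ) :
    (fr D t + fr D t' < 1 ∧ (-2) * (bb D t + bb D t' - bb D (t + t')) = 1) ∨
    (¬ (fr D t + fr D t' < 1) ∧ (-2) * (bb D t + bb D t' - bb D (t + t')) = -1) := by
  unfold bb
  rcases fr_add hD t t' with ⟨h1, h2⟩ | ⟨h1, h2⟩
  · left
    refine ⟨h1, ?_⟩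
    rw [h2]; ring
  · right
    refine ⟨not_lt.2 h1, ?_⟩
    rw [h2]; ring

theorem root_eq_iff (hD : 0 < D) (t t' : ℤ) : root D t = root D t' ↔ (D : ℤ) ∣ t - t' := by
  have h0 : (D : ℂ) ≠ 0 := by exact_mod_cast hD.ne'
  unfold root
  rw [Complex.exp_eq_exp_iff_exists_int]
  constructor
  · rintro ⟨n, hn⟩
    refine ⟨n, ?_⟩
    have h1 : (2 * (Real.pi : ℂ) * Complex.I) * ((t : ℂ) / D) =
        (2 * (Real.pi : ℂ) * Complex.I) * ((t' : ℂ) / D + n) := by
      rw [hn]; ring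
    have h2 := mul_left_cancel₀ Complex.two_pi_I_ne_zero h1
    field_simp at h2
    have h3 : ((t : ℤ) : ℂ) = ((t' + D * n : ℤ) : ℂ) := by
      rw [h2]
      push_cast
      ring
    have h4 : t = t' + D * n := by exact_mod_cast h3
    rw [h4]; ring
  · rintro ⟨n, hn⟩
    refine ⟨n, ?_⟩
    have h4 : t = t' + D * n := by linarith
    rw [h4]
    push_cast
    field_simp

theorem root_zpow (t : ℤ) : root D t = root D 1 ^ t := by
  unfold root
  rw [← Complex.exp_int_mul]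
  congr 1
  push_cast
  ring

theorem root_primitive (hD : 0 < D) {t : ℤ} (ht : IsCoprime t (D : ℤ)) :
    IsPrimitiveRoot (root D t) D :=
  Complex.isPrimitiveRoot_exp_of_isCoprime t D hD.ne' ht

end Run7.h8.RO
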