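import Pool.Agent.Run7.h8.RO.Defs
import Pool.Agent.W527.VPeriod
import Pool.Agent.W527.CritMain

/-!
# A single relation with three values
-/

set_option autoImplicit false
set_option linter.unusedSectionVars false
set_option linter.unusedVariables false

namespace Run7.h8.RO

open NumberField Pool.Agent.H204R3.CM Pool.Agent.W547.KB Pool.Agent.W537.PC Pool.Agent.W527.Vec
  Pool.Agent.W527 Module

noncomputable section

theorem lg_algebraic {z : ℂ} (h : IsAlgebraic ℚ z) (hz : z ≠ 0) : lg z = 0 :=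
  (lg_eq_zero hz).2 (mem_algebraicClosure_iff.2 h)

theorem algebraic_of_lg {z : ℂ} (hz : z ≠ 0) (h : lg z = 0) : IsAlgebraic ℚ z :=
  mem_algebraicClosure_iff.1 ((lg_eq_zero hz).1 h)

theorem zsmul_eq_zero' {n : ℤ} (hn : n ≠ 0) {v : VV} (h : n • v = 0) : v = 0 := by
  have h1 : (n : ℚ) • v = 0 := by
    rw [← h]
    exact (Int.cast_smul_eq_zsmul ℚ n v)
  rcases smul_eq_zero.1 h1 with h2 | h2
  · exact absurd (by exact_mod_cast h2) hn
  · exact h2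

variable {L : Type} [Field L] [NumberField L] [IsCMField L] [IsGalois ℚ L] (j : L →+* ℂ)
  {P : PeriodSystem}

theorem WL_eq (x : Letter L) : WL j P x = (2 : ℤ) • lg (P.tl j x) - lg (2 * Real.pi * Complex.I) := by
  have h1 : P.tl j x ≠ 0 := P.ne_zero _ _
  unfold WL PeriodSystem.rl
  rw [lg_div (pow_ne_zero _ h1) Complex.two_pi_I_ne_zero, lg_pow h1]
  congr 1

/-- If the coefficients of a relation are multiples of `0, 1, -1` then it is trivial. -/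
theorem key (hD : P.Deligne) (hW : Wustholz P) {K : Type} (s : Finset K) (x : K → Letter L)
    (n : K → ℤ) (N : ℤ) (hN : N ≠ 0) (h : (L ≃ₐ[ℚ] L) → ℤ)
    (hval : ∀ σ, h σ = 0 ∨ h σ = 1 ∨ h σ = -1)
    (hrel : ∀ σ, ∑ k ∈ s, n k * (x k).s j σ = N * h σ)
    (hz : ∑ k ∈ s, n k • WL j P (x k) = 0) (σ0 : L ≃ₐ[ℚ] L) : h σ0 = 0 := by
  classical
  have hodd' : ∀ σ, h (cc L * σ) = - h σ := by
    intro σ
    have h1 : N * h (cc L * σ) = N * (- h σ) := by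
      rw [← hrel, mul_neg, ← hrel, ← Finset.sum_neg_distrib]
      refine Finset.sum_congr rfl fun k _ => ?_
      rw [Letter.s_cc]
      ring
    exact mul_left_cancel₀ hN h1
  by_contra hne
  obtain ⟨k0, hk0⟩ : ∃ k0, k0 ∈ s := by
    by_contra hcon
    push Not at hcon
    have h1 : s = ∅ := Finset.eq_empty_of_forall_notMem hcon
    have h2 := hrel σ0
    rw [h1, Finset.sum_empty] at h2
    rcases mul_eq_zero.1 h2.symm with h3 | h3
    · exact hN h3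
    · exact hne h3
  let x0 := x k0
  let S : Set (L ≃ₐ[ℚ] L) := {σ | h σ = 1 ∨ (h σ = 0 ∧ x0.s j σ = 1)}
  let S' : Set (L ≃ₐ[ℚ] L) := {σ | h σ = -1 ∨ (h σ = 0 ∧ x0.s j σ = 1)}
  have hS : IsHalf S := by
    intro σ
    change (h σ = 1 ∨ (h σ = 0 ∧ x0.s j σ = 1)) ↔
      ¬ (h (cc L * σ) = 1 ∨ (h (cc L * σ) = 0 ∧ x0.s j (cc L * σ) = 1))
    rw [hodd', Letter.s_cc]
    have h1 := hval σ
    have h2 := x0.s_cases j σ
    omega
  have hS' : IsHalf S' := by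
    intro σ
    change (h σ = -1 ∨ (h σ = 0 ∧ x0.s j σ = 1)) ↔
      ¬ (h (cc L * σ) = -1 ∨ (h (cc L * σ) = 0 ∧ x0.s j (cc L * σ) = 1))
    rw [hodd', Letter.s_cc]
    have h1 := hval σ
    have h2 := x0.s_cases j σ
    omega
  let x1 : Letter L := ⟨⟨L, typeOf j S, isCMType_typeOf j hS⟩, RingHom.id L⟩
  let x2 : Letter L := ⟨⟨L, typeOf j S', isCMType_typeOf j hS'⟩, RingHom.id L⟩
  have hx1 : ∀ σ, (σ ∈ S → x1.s j σ = 1) ∧ (σ ∉ S → x1.s j σ = -1) := fun σ =>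
    ⟨fun hσ => x1.s_pos j σ ((mem_typeOf j S σ).2 hσ),
      fun hσ => x1.s_neg j σ fun h2 => hσ ((mem_typeOf j S σ).1 h2)⟩
  have hx2 : ∀ σ, (σ ∈ S' → x2.s j σ = 1) ∧ (σ ∉ S' → x2.s j σ = -1) := fun σ =>
    ⟨fun hσ => x2.s_pos j σ ((mem_typeOf j S' σ).2 hσ),
      fun hσ => x2.s_neg j σ fun h2 => hσ ((mem_typeOf j S' σ).1 h2)⟩
  have hdiff : ∀ σ, x1.s j σ - x2.s j σ = 2 * h σ := by
    intro σ
    have e1 : σ ∈ S ↔ (h σ = 1 ∨ (h σ = 0 ∧ x0.s j σ = 1)) := Iff.rfl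
    have e2 : σ ∈ S' ↔ (h σ = -1 ∨ (h σ = 0 ∧ x0.s j σ = 1)) := Iff.rfl
    have h1 := hval σ
    have h2 := x0.s_cases j σ
    have h3 := hx1 σ
    have h4 := hx2 σ
    rw [e1] at h3
    rw [e2] at h4
    omega
  -- the relation with the two letters
  have h1 := deligne_sum j (P := P) hD (s.disjSum (Finset.univ : Finset (Fin 2)))
    (Sum.elim x ![x1, x2]) (Sum.elim (fun k => 2 * n k) ![-N, N]) (by
    intro σ
    rw [Finset.sum_disjSum]
    simp only [Sum.elim_inl, Sum.elim_inr, Fin.sum_univ_two, Matrix.cons_val_zero,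
      Matrix.cons_val_one]
    have h2 : ∑ k ∈ s, 2 * n k * (x k).s j σ = 2 * (N * h σ) := by
      rw [← hrel, Finset.mul_sum]
      exact Finset.sum_congr rfl fun k _ => by ring
    rw [h2]
    linear_combination (-N) * hdiff σ)
  rw [Finset.sum_disjSum] at h1
  simp only [Sum.elim_inl, Sum.elim_inr, Fin.sum_univ_two, Matrix.cons_val_zero,
    Matrix.cons_val_one] at h1
  have h2 : ∑ k ∈ s, (2 * n k) • WL j P (x k) = 0 := by
    simp only [mul_smul]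
    rw [← Finset.smul_sum, hz, smul_zero]
  rw [h2, zero_add, neg_smul, neg_add_eq_sub, ← smul_sub] at h1
  have h3 : WL j P x2 - WL j P x1 = 0 := zsmul_eq_zero' hN h1
  have ht1 : P.tl j x1 ≠ 0 := P.ne_zero _ _
  have ht2 : P.tl j x2 ≠ 0 := P.ne_zero _ _
  rw [WL_eq, WL_eq, sub_sub_sub_cancel_right, ← smul_sub, ← lg_div ht2 ht1] at h3
  have h4 : IsAlgebraic ℚ (P.tl j x2 / P.tl j x1) :=
    algebraic_of_lg (div_ne_zero ht2 ht1) (zsmul_eq_zero' two_ne_zero h3)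
  obtain ⟨τ, hτ⟩ := exists_lift' j σ0
  have h5 := hW x2.B x1.B (j.comp x2.φ) (j.comp x1.φ) h4 τ
  rw [lifts_comp j hτ] at h5
  have h5 : j.comp (σ0 • x2.φ) ∈ x2.B.Φ ↔ j.comp (σ0 • x1.φ) ∈ x1.B.Φ := h5
  have h6 := hdiff σ0
  by_cases h7 : j.comp (σ0 • x1.φ) ∈ x1.B.Φ
  · rw [x1.s_pos j σ0 h7, x2.s_pos j σ0 (h5.2 h7)] at h6
    omega
  · rw [x1.s_neg j σ0 h7, x2.s_neg j σ0 (fun h8 => h7 (h5.1 h8))] at h6
    omega

end

end Run7.h8.RO
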