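import Pool.Agent.Run7.h8.RO.Frac
import Pool.Agent.Run7.h8.RO.Key

/-!
# Values of the Gamma function up to algebraic factors
-/

set_option autoImplicit false

namespace Run7.h8.RO

open NumberField Pool.Agent.W547.KB Pool.Agent.W537.PC Pool.Agent.W527.Vec

noncomputable section

/-- The logarithm of a value of the Gamma function. -/
def lG (x : ℚ) : VV := lg (Complex.Gamma (x : ℂ))

theorem gamma_ne {x : ℚ} (hx : ∀ n : ℤ, x ≠ n) : Complex.Gamma (x : ℂ) ≠ 0 := by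
  refine Complex.Gamma_ne_zero fun m hm => hx (-m) ?_
  have h1 : (x : ℂ) = ((-(m : ℤ) : ℤ) : ℂ) := by
    rw [hm]
    push_cast
    rfl
  have h2 : (x : ℂ) = (((-(m : ℤ) : ℤ) : ℚ) : ℂ) := by
    rw [h1]
    push_cast
    rfl
  exact_mod_cast h2

theorem ne_zero_of {x : ℚ} (hx : ∀ n : ℤ, x ≠ n) : (x : ℂ) ≠ 0 := by
  have h1 := hx 0
  intro h2
  apply h1
  push_cast
  exact_mod_cast h2

theorem lg_rat {x : ℚ} (hx : x ≠ 0) : lg (x : ℂ) = 0 :=
  lg_algebraic (isAlgebraic_algebraMap x) (by exact_mod_cast hx)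

theorem lG_add_one {x : ℚ} (hx : ∀ n : ℤ, x ≠ n) : lG (x + 1) = lG x := by
  unfold lG
  have h1 : ((x + 1 : ℚ) : ℂ) = (x : ℂ) + 1 := by push_cast; rfl
  rw [h1, Complex.Gamma_add_one _ (ne_zero_of hx), lg_mul (ne_zero_of hx) (gamma_ne hx),
    lg_rat (by exact_mod_cast hx 0), zero_add]

theorem nonint_add {x : ℚ} (hx : ∀ n : ℤ, x ≠ n) (m : ℤ) : ∀ n : ℤ, x + m ≠ n := by
  intro n h
  apply hx (n - m)
  push_cast
  linarith

theorem lG_add_nat {x : ℚ} (hx : ∀ n : ℤ, x ≠ n) (m : ℕ) : lG (x + m) = lG x := by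
  induction m with
  | zero => push_cast; rw [add_zero]
  | succ m ih =>
    have h1 := lG_add_one (x := x + m) (by exact_mod_cast nonint_add hx m)
    rw [← ih, ← h1]
    congr 1
    push_cast
    ring

theorem lG_add_int {x : ℚ} (hx : ∀ n : ℤ, x ≠ n) (m : ℤ) : lG (x + m) = lG x := by
  rcases le_or_gt 0 m with h | h
  · obtain ⟨k, rfl⟩ := Int.eq_ofNat_of_zero_le h
    exact_mod_cast lG_add_nat hx k
  · obtain ⟨k, hk⟩ := Int.eq_ofNat_of_zero_le (show 0 ≤ -m by omega)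
    have h1 := lG_add_nat (x := x + m) (nonint_add hx m) k
    have h2 : x + m + (k : ℕ) = x := by
      have : (m : ℚ) = -((k : ℤ) : ℚ) := by
        rw [← Int.cast_neg]
        congr 1
        omega
      rw [this]
      push_cast
      ring
    rw [h2] at h1
    exact h1.symm

theorem lG_fract {x : ℚ} (hx : ∀ n : ℤ, x ≠ n) : lG (Int.fract x) = lG x := by
  have h1 := lG_add_int hx (-⌊x⌋)
  rw [← h1]
  congr 1
  unfold Int.fract
  push_cast
  ring

theorem sin_ne {x : ℚ} (hx : ∀ n : ℤ, x ≠ n) : Complex.sin (Real.pi * (x : ℂ)) ≠ 0 := by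
  intro h
  rw [Complex.sin_eq_zero_iff] at h
  obtain ⟨k, hk⟩ := h
  have h1 : (Real.pi : ℂ) ≠ 0 := by exact_mod_cast Real.pi_ne_zero
  rw [mul_comm] at hk
  have h2 := mul_right_cancel₀ h1 hk
  apply hx k
  have h3 : (x : ℂ) = ((k : ℚ) : ℂ) := by
    rw [h2]
    push_cast
    rfl
  exact_mod_cast h3

theorem lG_refl {x : ℚ} (hx : ∀ n : ℤ, x ≠ n) : lG x + lG (1 - x) = lg Real.pi := by
  have hx' : ∀ n : ℤ, 1 - x ≠ n := by
    intro n h
    apply hx (1 - n)
    push_cast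
    linarith
  have h1 : (Real.pi : ℂ) ≠ 0 := by exact_mod_cast Real.pi_ne_zero
  unfold lG
  rw [← lg_mul (gamma_ne hx) (gamma_ne hx')]
  have h2 : ((1 - x : ℚ) : ℂ) = 1 - (x : ℂ) := by push_cast; rfl
  rw [h2, Complex.Gamma_mul_Gamma_one_sub, lg_div h1 (sin_ne hx)]
  have h3 : lg (Complex.sin (Real.pi * (x : ℂ))) = 0 := by
    refine lg_algebraic ?_ (sin_ne hx)
    have h4 := Complex.isAlgebraic_sin_rat_mul_pi x
    rw [mul_comm (Real.pi : ℂ)]
    exact IsAlgebraic.extendScalars (RingHom.injective_int (algebraMap ℤ ℚ)) h4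
  rw [h3, sub_zero]

variable (D : ℕ)

/-- The logarithm of `Γ (t / D) ^ 2 / π`. -/
def gv (t : ℤ) : VV := (2 : ℤ) • lG (fr D t) - lg Real.pi

variable {D}

theorem fr_nonint (hD : 0 < D) {t : ℤ} (h : ¬ (D : ℤ) ∣ t) : ∀ n : ℤ, fr D t ≠ n := by
  intro n hn
  have h1 := fr_pos hD h
  have h2 := fr_lt_one (D := D) t
  rw [hn] at h1 h2
  have h3 : 0 < n := by exact_mod_cast h1
  have h4 : n < 1 := by exact_mod_cast h2
  omega

theorem gv_neg (hD : 0 < D) {t : ℤ} (h : ¬ (D : ℤ) ∣ t) : gv D t + gv D (-t) = 0 := by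
  have h1 := lG_refl (fr_nonint hD h)
  unfold gv
  rw [fr_neg hD h]
  have h2 : (2 : ℤ) • lG (fr D t) - lg Real.pi + ((2 : ℤ) • lG (1 - fr D t) - lg Real.pi) =
      (2 : ℤ) • ((lG (fr D t) + lG (1 - fr D t)) - lg Real.pi) := by module
  rw [h2, h1, sub_self, smul_zero]

theorem gv_eq_of_dvd (hD : 0 < D) {t t' : ℤ} (h : (D : ℤ) ∣ t - t') : gv D t = gv D t' := by
  unfold gv
  rw [fr_eq_of_dvd hD h]

theorem lg_beta (hD : 0 < D) {t t' : ℤ} (h : ¬ (D : ℤ) ∣ t) (h' : ¬ (D : ℤ) ∣ t')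
    (h'' : ¬ (D : ℤ) ∣ t + t') :
    Complex.betaIntegral (fr D t) (fr D t') ≠ 0 ∧
      lg (Complex.betaIntegral (fr D t) (fr D t')) =
        lG (fr D t) + lG (fr D t') - lG (fr D (t + t')) := by
  have a1 := fr_pos hD h
  have a2 := fr_pos hD h'
  have g1 := gamma_ne (fr_nonint hD h)
  have g2 := gamma_ne (fr_nonint hD h')
  have n3 : ∀ n : ℤ, fr D t + fr D t' ≠ n := by
    intro n hn
    rcases fr_add hD t t' with ⟨-, h2⟩ | ⟨-, h2⟩
    · exact fr_nonint hD h'' n (by rw [h2, hn])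
    · exact fr_nonint hD h'' (n - 1) (by rw [h2, hn]; push_cast; ring)
  have h3 : lG (fr D t + fr D t') = lG (fr D (t + t')) := by
    rcases fr_add hD t t' with ⟨-, h2⟩ | ⟨-, h2⟩
    · rw [h2]
    · rw [h2]
      have h4 := lG_add_int n3 (-1)
      rw [← h4]
      congr 1
      push_cast
      ring
  have g3 := gamma_ne n3
  have h4 : Complex.Gamma (fr D t : ℂ) * Complex.Gamma (fr D t' : ℂ) =
      Complex.Gamma ((fr D t + fr D t' : ℚ) : ℂ) *
        Complex.betaIntegral (fr D t) (fr D t') := by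
    have h5 := Complex.Gamma_mul_Gamma_eq_betaIntegral (s := (fr D t : ℂ)) (t := (fr D t' : ℂ))
      (by simpa using (by exact_mod_cast a1 : (0 : ℝ) < (fr D t : ℝ)))
      (by simpa using (by exact_mod_cast a2 : (0 : ℝ) < (fr D t' : ℝ)))
    rw [h5]
    congr 2
    push_cast
    rfl
  have h5 : Complex.betaIntegral (fr D t) (fr D t') ≠ 0 := by
    intro h6
    rw [h6, mul_zero] at h4
    exact mul_ne_zero g1 g2 h4
  refine ⟨h5, ?_⟩
  have h6 := congrArg lg h4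
  rw [lg_mul g1 g2, lg_mul g3 h5] at h6
  change lG _ + lG _ = lG _ + _ at h6
  rw [h3] at h6
  rw [h6]
  abel

theorem lg_two_pi_I : lg (2 * Real.pi * Complex.I) = lg Real.pi := by
  have h1 : (Real.pi : ℂ) ≠ 0 := by exact_mod_cast Real.pi_ne_zero
  rw [lg_mul (mul_ne_zero two_ne_zero h1) Complex.I_ne_zero, lg_mul two_ne_zero h1]
  have h2 : lg 2 = 0 := lg_algebraic (by exact_mod_cast isAlgebraic_natCast (R := ℚ) (A := ℂ) 2) two_ne_zero
  have h3 : lg Complex.I = 0 := by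
    refine lg_algebraic ?_ Complex.I_ne_zero
    refine IsAlgebraic.of_pow two_pos ?_
    rw [Complex.I_sq]
    exact (isAlgebraic_one).neg
  rw [h2, h3, zero_add, add_zero]

end

end Run7.h8.RO
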