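import Pool.Agent.Run7.h8.RO.Four

/-!
# Sets of residues with the same sawtooth sums are small
-/

set_option autoImplicit false

namespace Run7.h8.RO

open Finset Pool.Agent.H916R2 ZMod

variable {D : ℕ} [NeZero D]

/-- The sawtooth with real values. -/
noncomputable def sr (x : ZMod D) : ℝ := (saw x : ℝ)

theorem op_bound (C : Finset (ZMod D)) :
    ∑ t : (ZMod D)ˣ, (∑ x ∈ C, sr ((t : ZMod D) * x)) ^ 2 ≤
      C.card * ((D : ℝ) ^ 3 * (1 + Real.log D) ^ 2) := by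
  set a : (ZMod D)ˣ → ℝ := fun t => ∑ x ∈ C, sr ((t : ZMod D) * x) with ha
  set b : ZMod D → ℝ := fun x => ∑ t : (ZMod D)ˣ, a t * sr ((t : ZMod D) * x) with hb
  set A : ℝ := ∑ t : (ZMod D)ˣ, a t ^ 2 with hA
  set S : ℝ := (D : ℝ) ^ 3 * (1 + Real.log D) ^ 2 with hS
  have hA0 : 0 ≤ A := sum_nonneg fun t _ => sq_nonneg _
  have h1 : A = ∑ x ∈ C, b x := by
    rw [hA, hb, sum_comm]
    refine sum_congr rfl fun t _ => ?_
    rw [← mul_sum, sq]
  have h2 : A ^ 2 ≤ C.card * ∑ x : ZMod D, b x ^ 2 := by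
    rw [h1]
    refine (sq_sum_le_card_mul_sum_sq (s := C) (f := b)).trans ?_
    refine mul_le_mul_of_nonneg_left ?_ (Nat.cast_nonneg _)
    exact sum_le_sum_of_subset_of_nonneg (subset_univ _) fun x _ _ => sq_nonneg _
  have h3 : ∑ x : ZMod D, b x ^ 2 = ∑ t : (ZMod D)ˣ, ∑ t' : (ZMod D)ˣ, a t * a t' * DS t t' := by
    have h4 : ∀ x : ZMod D, b x ^ 2 = ∑ t : (ZMod D)ˣ, ∑ t' : (ZMod D)ˣ,
        a t * a t' * (sr ((t : ZMod D) * x) * sr ((t' : ZMod D) * x)) := by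
      intro x
      rw [hb, sq, sum_mul_sum]
      refine sum_congr rfl fun t _ => sum_congr rfl fun t' _ => ?_
      ring
    rw [sum_congr rfl fun x _ => h4 x, sum_comm]
    refine sum_congr rfl fun t _ => ?_
    rw [sum_comm]
    refine sum_congr rfl fun t' _ => ?_
    unfold DS
    exact (mul_sum _ _ _).symm
  have hsymm : ∀ t t' : (ZMod D)ˣ, DS t t' = DS t' t := by
    intro t t'
    unfold DS
    exact sum_congr rfl fun x _ => mul_comm _ _
  have h5 : ∑ x : ZMod D, b x ^ 2 ≤ S * A := by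
    rw [h3]
    calc ∑ t : (ZMod D)ˣ, ∑ t' : (ZMod D)ˣ, a t * a t' * DS t t'
        ≤ ∑ t : (ZMod D)ˣ, ∑ t' : (ZMod D)ˣ,
          (a t ^ 2 / 2 * |DS t t'| + a t' ^ 2 / 2 * |DS t t'|) := by
          refine sum_le_sum fun t _ => sum_le_sum fun t' _ => ?_
          refine (le_abs_self _).trans ?_
          rw [abs_mul, ← add_mul]
          refine mul_le_mul_of_nonneg_right ?_ (abs_nonneg _)
          rw [abs_mul]
          nlinarith [sq_nonneg (|a t| - |a t'|), sq_abs (a t), sq_abs (a t')]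
      _ = ∑ t : (ZMod D)ˣ, a t ^ 2 / 2 * ∑ t' : (ZMod D)ˣ, |DS t t'| +
          ∑ t' : (ZMod D)ˣ, a t' ^ 2 / 2 * ∑ t : (ZMod D)ˣ, |DS t' t| := by
          simp only [sum_add_distrib]
          congr 1
          · simp only [mul_sum]
          · rw [sum_comm]
            refine sum_congr rfl fun t' _ => ?_
            rw [mul_sum]
            refine sum_congr rfl fun t _ => ?_
            rw [hsymm]
      _ ≤ ∑ t : (ZMod D)ˣ, a t ^ 2 / 2 * S + ∑ t' : (ZMod D)ˣ, a t' ^ 2 / 2 * S := by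
          refine add_le_add ?_ ?_ <;>
          exact sum_le_sum fun t _ => mul_le_mul_of_nonneg_left (sum_DS t) (by positivity)
      _ = S * A := by
          rw [← sum_mul, ← sum_div, ← hA]
          ring
  have hS0 : 0 ≤ S := by positivity
  rcases hA0.eq_or_lt with h6 | h6
  · rw [← h6]
    positivity
  · have h7 : A * A ≤ A * (C.card * S) := by
      calc A * A = A ^ 2 := (sq A).symm
        _ ≤ C.card * (S * A) := h2.trans (mul_le_mul_of_nonneg_left h5 (Nat.cast_nonneg _))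
        _ = A * (C.card * S) := by ring
    exact le_of_mul_le_mul_left h7 h6

theorem saw_add_bound {x y : ZMod D} (hx : x ≠ 0) (hy : y ≠ 0) (hxy : x + y ≠ 0) :
    2 * dn D (x + y).val ≤ |sr x + sr y| := by
  have h1 := ZMod.val_lt x
  have h2 := ZMod.val_lt y
  have hD : (0 : ℝ) < D := by
    have : 0 < D := Nat.pos_of_ne_zero (NeZero.ne D)
    exact_mod_cast this
  have h3 : sr x + sr y = 2 * ((x.val : ℝ) + y.val) - 2 * D := by
    unfold sr saw
    rw [if_neg hx, if_neg hy]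
    push_cast
    ring
  rw [h3]
  unfold dn
  rcases lt_or_ge (x.val + y.val) D with h4 | h4
  · rw [ZMod.val_add_of_lt h4]
    push_cast
    rw [abs_of_nonpos (by
      have : (x.val : ℝ) + y.val < D := by exact_mod_cast h4
      linarith)]
    have := min_le_right ((x.val : ℝ) + y.val) ((D : ℝ) - (x.val + y.val))
    linarith
  · have h5 : (x + y).val = x.val + y.val - D := by
      rw [ZMod.val_add, Nat.mod_eq_sub_mod h4, Nat.mod_eq_of_lt (by omega)]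
    rw [h5, Nat.cast_sub h4]
    push_cast
    have h6 : (D : ℝ) ≤ (x.val : ℝ) + y.val := by exact_mod_cast h4
    rw [abs_of_nonneg (by linarith)]
    have := min_le_left ((x.val : ℝ) + y.val - D) ((D : ℝ) - ((x.val : ℝ) + y.val - D))
    linarith

/-- The inequality between the arithmetic, the quadratic and the harmonic mean. -/
theorem means {ι : Type*} (s : Finset ι) (a : ι → ℝ) (ha : ∀ i ∈ s, 0 < a i) :
    (s.card : ℝ) ^ 3 ≤ (∑ i ∈ s, a i ^ 2) * (∑ i ∈ s, (a i)⁻¹) ^ 2 := by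
  have h1 : (s.card : ℝ) ^ 2 ≤ (∑ i ∈ s, a i) * ∑ i ∈ s, (a i)⁻¹ := by
    have h2 := Finset.sum_sq_le_sum_mul_sum_of_sq_eq_mul s (r := fun _ => (1 : ℝ)) (f := a)
      (g := fun i => (a i)⁻¹) (fun i hi => (ha i hi).le) (fun i hi => (inv_pos.2 (ha i hi)).le)
      (fun i hi => by rw [mul_inv_cancel₀ (ha i hi).ne', one_pow])
    simpa using h2
  have h2 : (∑ i ∈ s, a i) ^ 2 ≤ s.card * ∑ i ∈ s, a i ^ 2 := sq_sum_le_card_mul_sum_sq
  rcases Nat.eq_zero_or_pos s.card with h0 | h0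
  · rw [h0, Nat.cast_zero, zero_pow three_ne_zero]
    have h3 : 0 ≤ ∑ i ∈ s, a i ^ 2 := sum_nonneg fun i _ => sq_nonneg _
    positivity
  · have hc : (0 : ℝ) < s.card := by exact_mod_cast h0
    have h3 : 0 ≤ ∑ i ∈ s, a i := sum_nonneg fun i hi => (ha i hi).le
    have h4 : 0 ≤ ∑ i ∈ s, (a i)⁻¹ := sum_nonneg fun i hi => (inv_pos.2 (ha i hi)).le
    have h5 : ((s.card : ℝ) ^ 2) ^ 2 ≤ ((∑ i ∈ s, a i) * ∑ i ∈ s, (a i)⁻¹) ^ 2 :=
      pow_le_pow_left₀ (by positivity) h1 2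
    have h6 : ((∑ i ∈ s, a i) * ∑ i ∈ s, (a i)⁻¹) ^ 2 ≤
        s.card * (∑ i ∈ s, a i ^ 2) * (∑ i ∈ s, (a i)⁻¹) ^ 2 := by
      rw [mul_pow]
      exact mul_le_mul_of_nonneg_right h2 (sq_nonneg _)
    have h7 : (s.card : ℝ) * (s.card : ℝ) ^ 3 ≤
        (s.card : ℝ) * ((∑ i ∈ s, a i ^ 2) * (∑ i ∈ s, (a i)⁻¹) ^ 2) := by
      calc (s.card : ℝ) * (s.card : ℝ) ^ 3 = ((s.card : ℝ) ^ 2) ^ 2 := by ring
        _ ≤ _ := h5
        _ ≤ _ := h6
        _ = _ := by ring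
    exact le_of_mul_le_mul_left h7 hc

/-- **Residues with the same sawtooth sums.** -/
theorem card_le (s : ZMod D) (hs : s ≠ 0) (C : Finset (ZMod D)) (hC0 : ∀ x ∈ C, x ≠ 0)
    (hCs : ∀ x ∈ C, s - x ∈ C)
    (hrel : ∀ x ∈ C, ∀ y ∈ C, ∀ t : (ZMod D)ˣ, sr ((t : ZMod D) * x) + sr ((t : ZMod D) * (s - x)) =
      sr ((t : ZMod D) * y) + sr ((t : ZMod D) * (s - y))) :
    (C.card : ℝ) * (D.totient : ℝ) ^ 3 ≤ 4 * (D : ℝ) ^ 3 * (1 + Real.log D) ^ 4 := by
  have hL : 0 ≤ 1 + Real.log D := by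
    have := Real.log_natCast_nonneg D
    linarith
  rcases C.eq_empty_or_nonempty with h0 | ⟨x0, hx0⟩
  · rw [h0, card_empty, Nat.cast_zero, zero_mul]
    positivity
  set G : (ZMod D)ˣ → ℝ := fun t => sr ((t : ZMod D) * x0) + sr ((t : ZMod D) * (s - x0)) with hG
  have hc : (0 : ℝ) < C.card := by exact_mod_cast card_pos.2 ⟨x0, hx0⟩
  have h1 : ∀ t : (ZMod D)ˣ, C.card * G t = 2 * ∑ x ∈ C, sr ((t : ZMod D) * x) := by
    intro t
    have h2 : ∑ x ∈ C, (sr ((t : ZMod D) * x) + sr ((t : ZMod D) * (s - x))) = C.card * G t := by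
      rw [sum_congr rfl fun x hx => hrel x hx x0 hx0 t, sum_const, nsmul_eq_mul]
    have h3 : ∑ x ∈ C, sr ((t : ZMod D) * (s - x)) = ∑ x ∈ C, sr ((t : ZMod D) * x) := by
      refine sum_nbij' (fun x => s - x) (fun x => s - x) hCs hCs ?_ ?_ ?_
      · intro x _; ring
      · intro x _; ring
      · intro x _; rfl
    rw [← h2, sum_add_distrib, h3, two_mul]
  have h2 : (C.card : ℝ) ^ 2 * ∑ t : (ZMod D)ˣ, G t ^ 2 ≤
      4 * (C.card * ((D : ℝ) ^ 3 * (1 + Real.log D) ^ 2)) := by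
    have h3 : (C.card : ℝ) ^ 2 * ∑ t : (ZMod D)ˣ, G t ^ 2 =
        4 * ∑ t : (ZMod D)ˣ, (∑ x ∈ C, sr ((t : ZMod D) * x)) ^ 2 := by
      rw [mul_sum, mul_sum]
      refine sum_congr rfl fun t _ => ?_
      rw [← mul_pow, h1]
      ring
    rw [h3]
    exact mul_le_mul_of_nonneg_left (op_bound C) (by norm_num)
  have h3 : (C.card : ℝ) * ∑ t : (ZMod D)ˣ, G t ^ 2 ≤ 4 * ((D : ℝ) ^ 3 * (1 + Real.log D) ^ 2) := by
    refine le_of_mul_le_mul_left ?_ hc
    calc (C.card : ℝ) * (C.card * ∑ t : (ZMod D)ˣ, G t ^ 2) =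
        (C.card : ℝ) ^ 2 * ∑ t : (ZMod D)ˣ, G t ^ 2 := by ring
      _ ≤ _ := h2
      _ = _ := by ring
  -- the lower bound
  have hts : ∀ t : (ZMod D)ˣ, (t : ZMod D) * s ≠ 0 := fun t h => hs ((t.isUnit.mul_right_eq_zero).1 h)
  have hpos : ∀ t : (ZMod D)ˣ, 0 < dn D ((t : ZMod D) * s).val := by
    intro t
    have h6 : 0 < ((t : ZMod D) * s).val := by
      rw [Nat.pos_iff_ne_zero]
      intro h
      exact hts t ((ZMod.val_eq_zero _).1 h)
    have h8 : (((t : ZMod D) * s).val : ℝ) < D := by exact_mod_cast ZMod.val_lt _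
    exact lt_min (by exact_mod_cast h6) (by linarith)
  have h4 : ∀ t : (ZMod D)ˣ, 4 * dn D ((t : ZMod D) * s).val ^ 2 ≤ G t ^ 2 := by
    intro t
    have e : (t : ZMod D) * s = (t : ZMod D) * x0 + (t : ZMod D) * (s - x0) := by ring
    have h5 := saw_add_bound (x := (t : ZMod D) * x0) (y := (t : ZMod D) * (s - x0))
      (fun h => hC0 x0 hx0 ((t.isUnit.mul_right_eq_zero).1 h))
      (fun h => hC0 _ (hCs x0 hx0) ((t.isUnit.mul_right_eq_zero).1 h)) (by
        rw [← e]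
        exact hts t)
    rw [← e] at h5
    have h6 := pow_le_pow_left₀ (by have := (hpos t).le; positivity) h5 2
    rw [sq_abs] at h6
    calc 4 * dn D ((t : ZMod D) * s).val ^ 2 = (2 * dn D ((t : ZMod D) * s).val) ^ 2 := by ring
      _ ≤ _ := h6
  have h5 := means (univ : Finset (ZMod D)ˣ) (fun t => dn D ((t : ZMod D) * s).val)
    (fun t _ => hpos t)
  have hcard : ((univ : Finset (ZMod D)ˣ).card : ℝ) = D.totient := by
    rw [card_univ, ZMod.card_units_eq_totient]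
  rw [hcard] at h5
  have h6 : ∑ t : (ZMod D)ˣ, (dn D ((t : ZMod D) * s).val)⁻¹ ≤ 2 * (1 + Real.log D) := by
    refine le_trans ?_ (sum_hz s)
    have h7 : ∑ t : (ZMod D)ˣ, (dn D ((t : ZMod D) * s).val)⁻¹ =
        ∑ x ∈ (univ : Finset (ZMod D)ˣ).map
              (⟨fun u : (ZMod D)ˣ => (u : ZMod D), Units.val_injective⟩ : (ZMod D)ˣ ↪ ZMod D),
          hz (s * x) := by
      rw [sum_map]
      refine sum_congr rfl fun t _ => ?_
      change _ = hz (s * (t : ZMod D))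
      rw [mul_comm s]
      rfl
    rw [h7]
    exact sum_le_sum_of_subset_of_nonneg (subset_univ _) fun x _ _ => hz_nonneg _
  have h6' : 0 ≤ ∑ t : (ZMod D)ˣ, (dn D ((t : ZMod D) * s).val)⁻¹ :=
    sum_nonneg fun t _ => (inv_pos.2 (hpos t)).le
  have h7 : (D.totient : ℝ) ^ 3 ≤ (∑ t : (ZMod D)ˣ, dn D ((t : ZMod D) * s).val ^ 2) *
      (2 * (1 + Real.log D)) ^ 2 := by
    refine h5.trans (mul_le_mul_of_nonneg_left (pow_le_pow_left₀ h6' h6 2) ?_)
    exact sum_nonneg fun t _ => sq_nonneg _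
  have h8 : 4 * ∑ t : (ZMod D)ˣ, dn D ((t : ZMod D) * s).val ^ 2 ≤ ∑ t : (ZMod D)ˣ, G t ^ 2 := by
    rw [mul_sum]
    exact sum_le_sum fun t _ => h4 t
  calc (C.card : ℝ) * (D.totient : ℝ) ^ 3
      ≤ C.card * ((∑ t : (ZMod D)ˣ, dn D ((t : ZMod D) * s).val ^ 2) *
        (2 * (1 + Real.log D)) ^ 2) := mul_le_mul_of_nonneg_left h7 hc.le
    _ = (C.card * (4 * ∑ t : (ZMod D)ˣ, dn D ((t : ZMod D) * s).val ^ 2)) *
        (1 + Real.log D) ^ 2 := by ring
    _ ≤ (C.card * ∑ t : (ZMod D)ˣ, G t ^ 2) * (1 + Real.log D) ^ 2 := by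
        refine mul_le_mul_of_nonneg_right (mul_le_mul_of_nonneg_left h8 hc.le) (sq_nonneg _)
    _ ≤ (4 * ((D : ℝ) ^ 3 * (1 + Real.log D) ^ 2)) * (1 + Real.log D) ^ 2 :=
        mul_le_mul_of_nonneg_right h3 (sq_nonneg _)
    _ = 4 * (D : ℝ) ^ 3 * (1 + Real.log D) ^ 4 := by ring

end Run7.h8.RO
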