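import Pool.Agent.Run7.h8.RO.Count
import Pool.Agent.Run7.h8.RO.Norm

/-!
# Rohrlich's conjecture for almost all tuples with an arbitrary denominator
-/

set_option autoImplicit false
set_option linter.unusedSectionVars false
set_option linter.unusedVariables false

namespace Run7.h8.RO

open Pool.Agent.W547.KB Pool.Agent.W537.PC Pool.Agent.W527.Vec Pool.Agent.H916R2

noncomputable section

variable {D : ℕ} {P : PeriodSystem}

theorem saw_eq' (hD : 2 < D) {y : ℤ} (hy : ¬ (D : ℤ) ∣ y) :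
    ((saw (y : ZMod D) : ℤ) : ℚ) = 2 * D * bb D y := by
  have h0 : (D : ℚ) ≠ 0 := by
    have : D ≠ 0 := by omega
    exact_mod_cast this
  have h1 : (y : ZMod D) ≠ 0 := by
    intro h
    exact hy ((ZMod.intCast_zmod_eq_zero_iff_dvd y D).1 h)
  have : NeZero D := ⟨by omega⟩
  have h2 : (((y : ZMod D).val : ℤ)) = y % D := ZMod.val_intCast y
  have h3 : fr D y = ((y % D : ℤ) : ℚ) / D := by
    unfold fr
    have h4 : (y : ℚ) / D = ((y % D : ℤ) : ℚ) / D + ((y / D : ℤ) : ℚ) := by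
      have h5 : ((y % D + D * (y / D) : ℤ) : ℚ) = (y : ℚ) := by
        rw [Int.emod_add_mul_ediv]
      rw [← h5]
      push_cast
      field_simp
    rw [h4, Int.fract_add_intCast, Int.fract_eq_self]
    have hp0 : (0 : ℤ) < D := by exact_mod_cast (show 0 < D by omega)
    constructor
    · have := Int.emod_nonneg y hp0.ne'
      positivity
    · rw [div_lt_one (by exact_mod_cast hp0)]
      exact_mod_cast Int.emod_lt_of_pos y hp0
  unfold saw bb
  rw [if_neg h1, h2, h3]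
  push_cast
  field_simp

/-- Equal products of two values with the same sum have the same sawtooth sums. -/
theorem same_bb (hD : 2 < D) (hDe : P.Deligne) (hW : Wustholz P) (hF : FermatPeriods P)
    {m1 m2 m3 m4 : ℤ} (h1 : ¬ (D : ℤ) ∣ m1) (h2 : ¬ (D : ℤ) ∣ m2) (h3 : ¬ (D : ℤ) ∣ m3)
    (h4 : ¬ (D : ℤ) ∣ m4) (hsum : (D : ℤ) ∣ (m1 + m2) - (m3 + m4))
    (hgv : gv D m1 + gv D m2 = gv D m3 + gv D m4) (t : ℤ) (ht : IsCoprime t (D : ℤ)) :
    bb D (t * m1) + bb D (t * m2) = bb D (t * m3) + bb D (t * m4) := by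
  have hp0 : 0 < D := by omega
  have h5 := rel_values (D := D) hD hDe hW hF (![m1, m2, m3, m4] : Fin 4 → ℤ) (by
    intro k
    fin_cases k
    · exact h1
    · exact h2
    · exact h3
    · exact h4) (![1, 1, -1, -1] : Fin 4 → ℤ) (by
    simp only [Fin.sum_univ_four, Matrix.cons_val_zero, Matrix.cons_val_one,
      Matrix.cons_val_two, Matrix.cons_val_three, Matrix.head_cons, Matrix.tail_cons,
      Matrix.cons_val]
    rw [one_smul, one_smul, neg_smul, neg_smul, one_smul, one_smul, hgv]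
    abel) 1 (by
    intro u hu
    simp only [Fin.sum_univ_four, Matrix.cons_val_zero, Matrix.cons_val_one,
      Matrix.cons_val_two, Matrix.cons_val_three, Matrix.head_cons, Matrix.tail_cons,
      Matrix.cons_val]
    push_cast
    have e1 : fr D (u * m1 + u * m2) = fr D (u * m3 + u * m4) := by
      refine fr_eq_of_dvd hp0 ?_
      have : u * m1 + u * m2 - (u * m3 + u * m4) = u * (m1 + m2 - (m3 + m4)) := by ring
      rw [this]
      exact Dvd.dvd.mul_left hsum _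
    unfold bb
    rcases fr_add hp0 (u * m1) (u * m2) with ⟨-, a1⟩ | ⟨-, a1⟩ <;>
      rcases fr_add hp0 (u * m3) (u * m4) with ⟨-, a2⟩ | ⟨-, a2⟩
    · left; linarith
    · right; right; linarith
    · right; left; linarith
    · left; linarith) t ht
  simp only [Fin.sum_univ_four, Matrix.cons_val_zero, Matrix.cons_val_one,
    Matrix.cons_val_two, Matrix.cons_val_three, Matrix.head_cons, Matrix.tail_cons,
    Matrix.cons_val] at h5
  push_cast at h5
  linarith

/-- The same for residues. -/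
theorem same_sr [NeZero D] (hD : 2 < D) (hDe : P.Deligne) (hW : Wustholz P) (hF : FermatPeriods P)
    {x1 x2 x3 x4 : ZMod D} (h1 : x1 ≠ 0) (h2 : x2 ≠ 0) (h3 : x3 ≠ 0) (h4 : x4 ≠ 0)
    (hsum : x1 + x2 = x3 + x4)
    (hgv : gv D x1.val + gv D x2.val = gv D x3.val + gv D x4.val) (t : (ZMod D)ˣ) :
    sr ((t : ZMod D) * x1) + sr ((t : ZMod D) * x2) =
      sr ((t : ZMod D) * x3) + sr ((t : ZMod D) * x4) := by
  have hnd : ∀ {x : ZMod D}, x ≠ 0 → ¬ (D : ℤ) ∣ (x.val : ℤ) := by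
    intro x hx h
    apply hx
    have h5 := (ZMod.intCast_zmod_eq_zero_iff_dvd (x.val : ℤ) D).2 h
    push_cast at h5
    rwa [ZMod.natCast_zmod_val] at h5
  have hs : (D : ℤ) ∣ ((x1.val : ℤ) + (x2.val : ℤ)) - ((x3.val : ℤ) + (x4.val : ℤ)) := by
    rw [← ZMod.intCast_zmod_eq_zero_iff_dvd]
    push_cast
    rw [ZMod.natCast_zmod_val, ZMod.natCast_zmod_val, ZMod.natCast_zmod_val,
      ZMod.natCast_zmod_val, hsum, sub_self]
  set y : ℤ := (((t : ZMod D).val : ℕ) : ℤ) with hy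
  have hyc : IsCoprime y (D : ℤ) := by
    rw [hy, Nat.isCoprime_iff_coprime]
    exact ZMod.val_coe_unit_coprime t
  have ht : (y : ZMod D) = (t : ZMod D) := by
    rw [hy]
    push_cast
    exact ZMod.natCast_zmod_val _
  have h5 := same_bb (P := P) hD hDe hW hF (hnd h1) (hnd h2) (hnd h3) (hnd h4) hs hgv y hyc
  have e : ∀ {x : ZMod D}, x ≠ 0 → sr ((t : ZMod D) * x) =
      ((2 * D * bb D (y * (x.val : ℤ)) : ℚ) : ℝ) := by
    intro x hx
    have h6 : (t : ZMod D) * x = ((y * (x.val : ℤ) : ℤ) : ZMod D) := by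
      rw [Int.cast_mul, ht]
      push_cast
      rw [ZMod.natCast_zmod_val]
    unfold sr
    rw [h6, ← saw_eq' hD (not_dvd_of_coprime hyc (hnd hx))]
    push_cast
    rfl
  rw [e h1, e h2, e h3, e h4]
  have h6 : (2 * D * bb D (y * (x1.val : ℤ)) + 2 * D * bb D (y * (x2.val : ℤ)) : ℚ) =
      2 * D * bb D (y * (x3.val : ℤ)) + 2 * D * bb D (y * (x4.val : ℤ)) := by
    rw [← mul_add, ← mul_add, h5]
  exact_mod_cast h6

/-- The bound for the number of pairs with a given sum. -/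
def bd (D : ℕ) : ℝ := 4 * ((D : ℝ) / D.totient) ^ 3 * (1 + Real.log D) ^ 4

theorem bd_nonneg (D : ℕ) : 0 ≤ bd D := by
  have := Real.log_natCast_nonneg D
  unfold bd
  positivity

open Classical in
theorem card_pairs_gen (hD : 2 < D) (hDe : P.Deligne) (hW : Wustholz P) (hF : FermatPeriods P)
    (w : VV) : ((((Finset.Ico 1 D ×ˢ Finset.Ico 1 D).filter
      (fun x : ℕ × ℕ => gv D x.1 + gv D x.2 = w)).card : ℕ) : ℝ) ≤ (D - 1) * (1 + bd D) := by
  have : NeZero D := ⟨by omega⟩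
  set T := (Finset.Ico 1 D ×ˢ Finset.Ico 1 D).filter
      (fun x : ℕ × ℕ => gv D x.1 + gv D x.2 = w) with hT
  have hmem : ∀ x ∈ T, (1 ≤ x.1 ∧ x.1 < D) ∧ (1 ≤ x.2 ∧ x.2 < D) ∧ gv D x.1 + gv D x.2 = w := by
    intro x hx
    obtain ⟨a, b⟩ := Finset.mem_filter.1 hx
    rw [Finset.mem_product, Finset.mem_Ico, Finset.mem_Ico] at a
    exact ⟨a.1, a.2, b⟩
  -- the fibres of the sum
  have hfib : ∀ s : ℕ, s ∈ Finset.Ico 1 D →
      ((T.filter (fun x => (x.1 + x.2) % D = s)).card : ℝ) ≤ bd D := by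
    intro s hs
    rw [Finset.mem_Ico] at hs
    let C : Finset (ZMod D) := Finset.univ.filter fun x => x ≠ 0 ∧ (s : ZMod D) - x ≠ 0 ∧
      gv D x.val + gv D ((s : ZMod D) - x).val = w
    have hs0 : (s : ZMod D) ≠ 0 := by
      intro h
      rw [ZMod.natCast_eq_zero_iff] at h
      exact absurd (Nat.le_of_dvd hs.1 h) (by omega)
    have hC := card_le (s : ZMod D) hs0 C
      (fun x hx => ((Finset.mem_filter.1 hx).2).1)
      (fun x hx => by
        obtain ⟨-, h1, h2, h3⟩ := Finset.mem_filter.1 hx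
        refine Finset.mem_filter.2 ⟨Finset.mem_univ _, h2, ?_, ?_⟩
        · rw [sub_sub_cancel]
          exact h1
        · rw [sub_sub_cancel, add_comm]
          exact h3)
      (fun x hx y hy t => by
        obtain ⟨-, h1, h2, h3⟩ := Finset.mem_filter.1 hx
        obtain ⟨-, h1', h2', h3'⟩ := Finset.mem_filter.1 hy
        exact same_sr (P := P) hD hDe hW hF h1 h2 h1' h2' (by ring) (by rw [h3, h3']) t)
    have hle : ((T.filter (fun x => (x.1 + x.2) % D = s)).card : ℝ) ≤ C.card := by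
      have h1 : (T.filter (fun x => (x.1 + x.2) % D = s)).card ≤ C.card := by
        refine Finset.card_le_card_of_injOn (fun x => ((x.1 : ℕ) : ZMod D)) ?_ ?_
        · intro x hx
          obtain ⟨hx1, hx2⟩ := Finset.mem_filter.1 hx
          obtain ⟨a, b, c⟩ := hmem x hx1
          have e1 : ((x.1 : ℕ) : ZMod D).val = x.1 := by
            rw [ZMod.val_natCast, Nat.mod_eq_of_lt a.2]
          have e2 : (s : ZMod D) - ((x.1 : ℕ) : ZMod D) = ((x.2 : ℕ) : ZMod D) := by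
            have h2 : ((x.1 + x.2 : ℕ) : ZMod D) = (s : ZMod D) := by
              rw [← hx2, ZMod.natCast_mod]
            rw [← h2]
            push_cast
            ring
          have e3 : ((x.2 : ℕ) : ZMod D).val = x.2 := by
            rw [ZMod.val_natCast, Nat.mod_eq_of_lt b.2]
          refine Finset.mem_coe.2 (Finset.mem_filter.2 ⟨Finset.mem_univ _, ?_, ?_, ?_⟩)
          · intro h
            have h' : ((x.1 : ℕ) : ZMod D) = 0 := h
            rw [h', ZMod.val_zero] at e1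
            omega
          · change (s : ZMod D) - ((x.1 : ℕ) : ZMod D) ≠ 0
            rw [e2]
            intro h
            rw [h, ZMod.val_zero] at e3
            omega
          · change gv D ((((x.1 : ℕ) : ZMod D).val : ℕ) : ℤ) +
              gv D ((((s : ZMod D) - ((x.1 : ℕ) : ZMod D)).val : ℕ) : ℤ) = w
            rw [e2, e1, e3]
            exact c
        · intro x hx y hy hxy
          obtain ⟨hx1, hx2⟩ := Finset.mem_filter.1 (Finset.mem_coe.1 hx)
          obtain ⟨hy1, hy2⟩ := Finset.mem_filter.1 (Finset.mem_coe.1 hy)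
          obtain ⟨a, b, -⟩ := hmem x hx1
          obtain ⟨a', b', -⟩ := hmem y hy1
          have h2 : x.1 = y.1 := by
            have h3 : x.1 ≡ y.1 [MOD D] := (ZMod.natCast_eq_natCast_iff _ _ _).1 hxy
            exact Nat.ModEq.eq_of_lt_of_lt h3 a.2 a'.2
          refine Prod.ext h2 ?_
          refine mod_cancel (x := x.1) ⟨by omega, b.2⟩ ⟨by omega, b'.2⟩ ?_
          rw [hx2, h2, hy2]
      exact_mod_cast h1
    refine hle.trans ?_
    have hphi : (0 : ℝ) < D.totient := by exact_mod_cast Nat.totient_pos.2 (show 0 < D by omega)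
    unfold bd
    rw [div_pow]
    have h2 : 4 * ((D : ℝ) ^ 3 / (D.totient : ℝ) ^ 3) * (1 + Real.log D) ^ 4 =
        4 * (D : ℝ) ^ 3 * (1 + Real.log D) ^ 4 / (D.totient : ℝ) ^ 3 := by ring
    rw [h2, le_div_iff₀ (by positivity)]
    exact hC
  -- the pairs with sum zero
  have hzero : ((T.filter (fun x => (x.1 + x.2) % D = 0)).card : ℝ) ≤ (D : ℝ) - 1 := by
    have h1 : (T.filter (fun x => (x.1 + x.2) % D = 0)).card ≤ (Finset.Ico 1 D).card := by
      refine Finset.card_le_card_of_injOn (fun x => x.1) ?_ ?_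
      · intro x hx
        obtain ⟨a, -⟩ := hmem x (Finset.mem_filter.1 hx).1
        exact Finset.mem_coe.2 (Finset.mem_Ico.2 a)
      · intro x hx y hy hxy
        obtain ⟨hx1, hx2⟩ := Finset.mem_filter.1 (Finset.mem_coe.1 hx)
        obtain ⟨hy1, hy2⟩ := Finset.mem_filter.1 (Finset.mem_coe.1 hy)
        obtain ⟨a, b, -⟩ := hmem x hx1
        obtain ⟨a', b', -⟩ := hmem y hy1
        have hxy' : x.1 = y.1 := hxy
        refine Prod.ext hxy' ?_
        refine mod_cancel (x := x.1) ⟨by omega, b.2⟩ ⟨by omega, b'.2⟩ ?_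
        rw [hx2, hxy', hy2]
    rw [Nat.card_Ico] at h1
    have h2 : ((D - 1 : ℕ) : ℝ) = (D : ℝ) - 1 := by
      rw [Nat.cast_sub (by omega)]
      push_cast
      rfl
    rw [← h2]
    exact_mod_cast h1
  have hsplit : (T.card : ℝ) = ∑ s ∈ Finset.range D,
      ((T.filter (fun x => (x.1 + x.2) % D = s)).card : ℝ) := by
    have h1 := Finset.card_eq_sum_card_fiberwise (s := T) (t := Finset.range D)
      (f := fun x => (x.1 + x.2) % D) (fun x _ => by
        exact Finset.mem_coe.2 (Finset.mem_range.2 (Nat.mod_lt _ (by omega))))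
    rw [h1]
    push_cast
    rfl
  rw [hsplit, Finset.range_eq_Ico, Finset.sum_eq_sum_Ico_succ_bot (by omega)]
  calc ((T.filter (fun x => (x.1 + x.2) % D = 0)).card : ℝ) +
      ∑ s ∈ Finset.Ico (0 + 1) D, ((T.filter (fun x => (x.1 + x.2) % D = s)).card : ℝ)
      ≤ ((D : ℝ) - 1) + ∑ s ∈ Finset.Ico (0 + 1) D, bd D :=
        add_le_add hzero (Finset.sum_le_sum fun s hs => hfib s hs)
    _ = (D - 1) * (1 + bd D) := by
        rw [Finset.sum_const, Nat.card_Ico, nsmul_eq_mul]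
        have h2 : ((D - (0 + 1) : ℕ) : ℝ) = (D : ℝ) - 1 := by
          rw [Nat.cast_sub (by omega)]
          push_cast
          ring
        rw [h2]
        ring

theorem gamma_class' (hD : 2 < D) {r : ℕ} {n : Fin r → ℕ} (hn : ∀ i, 0 < n i ∧ n i < D) {z : ℂ}
    (h : ∃ α : ℂ, IsAlgebraic ℚ α ∧ ∏ i, Complex.Gamma ((n i : ℂ) / D) = α * z) :
    ∑ i, gv D (n i) = (2 : ℤ) • lg z - (r : ℤ) • lg Real.pi := by
  obtain ⟨α, hα, h⟩ := h
  have hp0 : 0 < D := by omega
  have h0 : (D : ℚ) ≠ 0 := by exact_mod_cast hp0.ne'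
  have h1 : ∀ i, fr D (n i : ℤ) = (n i : ℚ) / D := by
    intro i
    unfold fr
    rw [Int.cast_natCast, Int.fract_eq_self]
    constructor
    · positivity
    · rw [div_lt_one (by positivity)]
      exact_mod_cast (hn i).2
  have h2 : ∀ i, Complex.Gamma ((n i : ℂ) / D) = Complex.Gamma ((fr D (n i : ℤ) : ℚ) : ℂ) := by
    intro i
    rw [h1]
    push_cast
    rfl
  have h3 : ∀ i, Complex.Gamma ((fr D (n i : ℤ) : ℚ) : ℂ) ≠ 0 := fun i =>
    gamma_ne (fr_nonint hp0 (not_dvd_nat (hn i).1 (hn i).2))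
  simp only [h2] at h
  have h4 : (∏ i, Complex.Gamma ((fr D (n i : ℤ) : ℚ) : ℂ)) ≠ 0 :=
    Finset.prod_ne_zero_iff.2 fun i _ => h3 i
  rw [h] at h4
  have hα0 : α ≠ 0 := left_ne_zero_of_mul h4
  have hz0 : z ≠ 0 := right_ne_zero_of_mul h4
  have h5 := congrArg lg h
  rw [lg_mul hα0 hz0, lg_algebraic hα hα0, zero_add, lg_prod _ _ (fun i _ => h3 i)] at h5
  unfold gv
  rw [Finset.sum_sub_distrib, ← Finset.smul_sum]
  congr 1
  · congr 1
  · simp

/-- The tuples of at least two numbers with product in a given class. -/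
theorem count_gen (hD : 2 < D) (hDe : P.Deligne) (hW : Wustholz P) (hF : FermatPeriods P)
    (r : ℕ) (hr : 2 ≤ r) (z : ℂ) :
    ({n : Fin r → ℕ | (∀ i, 0 < n i ∧ n i < D) ∧ ∃ α : ℂ, IsAlgebraic ℚ α ∧
      ∏ i, Complex.Gamma ((n i : ℂ) / D) = α * z}.ncard : ℝ) ≤
      (1 + bd D) * ((D : ℝ) - 1) ^ (r - 1) := by
  classical
  obtain ⟨s, rfl⟩ : ∃ s, r = s + 2 := ⟨r - 2, by omega⟩
  have hD1 : ((D - 1 : ℕ) : ℝ) = (D : ℝ) - 1 := by
    rw [Nat.cast_sub (by omega)]
    push_cast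
    rfl
  have hD1' : (0 : ℝ) ≤ (D : ℝ) - 1 := by
    rw [← hD1]
    exact Nat.cast_nonneg _
  have hK0 : 0 ≤ ((D : ℝ) - 1) * (1 + bd D) := mul_nonneg hD1' (by have := bd_nonneg D; linarith)
  have h1 := card_tuples_pairs D ⌊((D : ℝ) - 1) * (1 + bd D)⌋₊ (fun x : ℕ => gv D x)
    (fun w => Nat.le_floor (card_pairs_gen (P := P) hD hDe hW hF w)) s
    ((2 : ℤ) • lg z - ((s + 2 : ℕ) : ℤ) • lg Real.pi)
  have h2 : ({n : Fin (s + 2) → ℕ | (∀ i, 0 < n i ∧ n i < D) ∧ ∃ α : ℂ, IsAlgebraic ℚ α ∧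
      ∏ i, Complex.Gamma ((n i : ℂ) / D) = α * z}.ncard) ≤
      (D - 1) ^ s * ⌊((D : ℝ) - 1) * (1 + bd D)⌋₊ := by
    refine le_trans ?_ h1
    rw [← Set.ncard_coe_finset]
    refine Set.ncard_le_ncard ?_ (Finset.finite_toSet _)
    rintro n ⟨h3, h4⟩
    rw [Finset.mem_coe, Finset.mem_filter, Fintype.mem_piFinset]
    exact ⟨fun i => Finset.mem_Ico.2 (h3 i), gamma_class' hD h3 h4⟩
  have h3 : (({n : Fin (s + 2) → ℕ | (∀ i, 0 < n i ∧ n i < D) ∧ ∃ α : ℂ, IsAlgebraic ℚ α ∧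
      ∏ i, Complex.Gamma ((n i : ℂ) / D) = α * z}.ncard : ℕ) : ℝ) ≤
      (((D - 1) ^ s * ⌊((D : ℝ) - 1) * (1 + bd D)⌋₊ : ℕ) : ℝ) := by exact_mod_cast h2
  refine h3.trans ?_
  push_cast
  rw [hD1]
  calc ((D : ℝ) - 1) ^ s * (⌊((D : ℝ) - 1) * (1 + bd D)⌋₊ : ℝ)
      ≤ ((D : ℝ) - 1) ^ s * (((D : ℝ) - 1) * (1 + bd D)) :=
        mul_le_mul_of_nonneg_left (Nat.floor_le hK0) (pow_nonneg hD1' _)
    _ = (1 + bd D) * ((D : ℝ) - 1) ^ (s + 2 - 1) := by
        rw [show s + 2 - 1 = s + 1 by omega, pow_succ]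
        ring

/-- Single values. -/
theorem one_gen (hD : 2 < D) (hDe : P.Deligne) (hW : Wustholz P) (hF : FermatPeriods P) (z : ℂ) :
    ({n : ℕ | 0 < n ∧ n < D ∧ ∃ α : ℂ, IsAlgebraic ℚ α ∧
      Complex.Gamma ((n : ℂ) / D) = α * z}.ncard : ℝ) ^ 2 ≤ (1 + bd D) * ((D : ℝ) - 1) := by
  classical
  set w : VV := (2 : ℤ) • lg z - (1 : ℤ) • lg Real.pi with hw
  set Z := (Finset.Ico 1 D).filter (fun x : ℕ => gv D x = w) with hZ
  have h1 : {n : ℕ | 0 < n ∧ n < D ∧ ∃ α : ℂ, IsAlgebraic ℚ α ∧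
      Complex.Gamma ((n : ℂ) / D) = α * z}.ncard ≤ Z.card := by
    rw [← Set.ncard_coe_finset]
    refine Set.ncard_le_ncard ?_ (Finset.finite_toSet _)
    rintro n ⟨h1, h2, h3⟩
    rw [Finset.mem_coe, Finset.mem_filter, Finset.mem_Ico]
    refine ⟨⟨h1, h2⟩, ?_⟩
    have h4 := gamma_class' (D := D) hD (r := 1) (n := fun _ => n) (z := z) (fun _ => ⟨h1, h2⟩)
      (by simpa using h3)
    rw [hw]
    simpa using h4
  have h2 : Z.card * Z.card ≤ ((Finset.Ico 1 D ×ˢ Finset.Ico 1 D).filter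
      (fun x : ℕ × ℕ => gv D x.1 + gv D x.2 = w + w)).card := by
    rw [← Finset.card_product]
    refine Finset.card_le_card fun x hx => ?_
    obtain ⟨a, b⟩ := Finset.mem_product.1 hx
    obtain ⟨a1, a2⟩ := Finset.mem_filter.1 a
    obtain ⟨b1, b2⟩ := Finset.mem_filter.1 b
    exact Finset.mem_filter.2 ⟨Finset.mem_product.2 ⟨a1, b1⟩, by rw [a2, b2]⟩
  have h3 := card_pairs_gen (P := P) hD hDe hW hF (w + w)
  have h4 : ((Z.card : ℝ)) * Z.card ≤ (D - 1) * (1 + bd D) :=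
    le_trans (by exact_mod_cast h2) h3
  have h5 : ({n : ℕ | 0 < n ∧ n < D ∧ ∃ α : ℂ, IsAlgebraic ℚ α ∧
      Complex.Gamma ((n : ℂ) / D) = α * z}.ncard : ℝ) ≤ Z.card := by exact_mod_cast h1
  calc _ ≤ (Z.card : ℝ) ^ 2 := pow_le_pow_left₀ (Nat.cast_nonneg _) h5 2
    _ ≤ (1 + bd D) * ((D : ℝ) - 1) := by rw [sq, mul_comm (1 + bd D)]; exact h4

/-- The tuples for which the conjecture fails. -/
theorem fail_gen (hD : 2 < D) (hDe : P.Deligne) (hW : Wustholz P) (hF : FermatPeriods P)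
    (r : ℕ) (hr : 2 ≤ r) :
    ({n : Fin r → ℕ | (∀ i, 0 < n i ∧ n i < D) ∧
      ¬ (AlgMultiple (fun i => (n i : ℚ) / D) ↔ Identity D (fun i => (n i : ℚ) / D))}.ncard : ℝ) ≤
      (1 + bd D) * ((D : ℝ) - 1) ^ (r - 1) := by
  classical
  have hp0 : 0 < D := by omega
  have h0 : (D : ℚ) ≠ 0 := by exact_mod_cast hp0.ne'
  have hfin : {n : Fin r → ℕ | ∀ i, 0 < n i ∧ n i < D}.Finite := by
    refine Set.Finite.subset (Finset.finite_toSet (Fintype.piFinset fun _ : Fin r => Finset.Ico 1 D))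
      fun n hn => ?_
    rw [Finset.mem_coe, Fintype.mem_piFinset]
    exact fun i => Finset.mem_Ico.2 (hn i)
  refine le_trans ?_ (count_gen (P := P) hD hDe hW hF r hr
    ((Real.pi ^ ((r : ℝ) / 2) : ℝ) : ℂ))
  have hle := Set.ncard_le_ncard (s := {n : Fin r → ℕ | (∀ i, 0 < n i ∧ n i < D) ∧
      ¬ (AlgMultiple (fun i => (n i : ℚ) / D) ↔ Identity D (fun i => (n i : ℚ) / D))})
    (t := {n : Fin r → ℕ | (∀ i, 0 < n i ∧ n i < D) ∧ ∃ α : ℂ, IsAlgebraic ℚ α ∧
      ∏ i, Complex.Gamma ((n i : ℂ) / D) = α * ((Real.pi ^ ((r : ℝ) / 2) : ℝ) : ℂ)}) ?_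
    (hfin.subset fun n hn => hn.1)
  · exact_mod_cast hle
  · rintro n ⟨h1, h2⟩
    refine ⟨h1, ?_⟩
    have hN : Num D (fun i => (n i : ℚ) / D) (fun i => (n i : ℤ)) := by
      intro i
      push_cast
      rfl
    have hnd : ∀ i, ¬ (D : ℤ) ∣ (n i : ℤ) := fun i => not_dvd_nat (h1 i).1 (h1 i).2
    have hni : ∀ i, ∀ y : ℤ, (n i : ℚ) / D ≠ y := by
      intro i y hy
      rw [div_eq_iff h0] at hy
      have h3 : (n i : ℤ) = y * D := by exact_mod_cast hy
      exact hnd i ⟨y, by rw [h3, mul_comm]⟩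
    have h3 : Identity D (fun i => (n i : ℚ) / D) → AlgMultiple (fun i => (n i : ℚ) / D) := by
      intro h4
      refine (alg_iff_gv hp0 hN hni).2 ?_
      have h5 := conv hD hDe hF (fun i => (n i : ℤ)) hnd (fun _ => 1) (by
        intro t ht
        simpa using (identity_iff hD hN).1 h4 t ht)
      simpa using h5
    have h4 : AlgMultiple (fun i => (n i : ℚ) / D) := by
      by_contra h5
      exact h2 ⟨fun h6 => absurd h6 h5, h3⟩
    obtain ⟨α, hα, h5⟩ := h4
    refine ⟨(α : ℂ), isAlgebraic_ofReal.2 hα, ?_⟩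
    have h6 := congrArg (fun x : ℝ => (x : ℂ)) h5
    simp only [Complex.ofReal_mul, Complex.ofReal_prod] at h6
    rw [← h6]
    refine Finset.prod_congr rfl fun i _ => ?_
    rw [← Complex.Gamma_ofReal]
    push_cast
    rfl

end

end Run7.h8.RO
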