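import Mathlib

/-!
# Sums of the inverse distances to zero of the multiples of a residue
-/

set_option autoImplicit false

namespace Run7.h8.RO

open Finset

/-- The distance to the multiples of `d`, for `a < d`. -/
noncomputable def dn (d a : ℕ) : ℝ := min (a : ℝ) ((d : ℝ) - a)

/-- The inverse distance. -/
noncomputable def hn (d a : ℕ) : ℝ := (dn d a)⁻¹

theorem dn_nonneg {d a : ℕ} (ha : a < d) : 0 ≤ dn d a := by
  have h1 : (a : ℝ) < d := by exact_mod_cast ha
  exact le_min (Nat.cast_nonneg a) (by linarith)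

theorem hn_nonneg {d a : ℕ} (ha : a < d) : 0 ≤ hn d a := inv_nonneg.2 (dn_nonneg ha)

theorem hn_zero (d : ℕ) : hn d 0 = 0 := by
  unfold hn dn
  have : min ((0 : ℕ) : ℝ) ((d : ℝ) - (0 : ℕ)) = 0 := by
    rw [Nat.cast_zero, sub_zero]
    exact min_eq_left (Nat.cast_nonneg d)
  rw [this, inv_zero]

theorem hn_mul (g d a : ℕ) (hg : 0 < g) : hn (g * d) (g * a) = (g : ℝ)⁻¹ * hn d a := by
  have h0 : (0 : ℝ) ≤ g := Nat.cast_nonneg g
  unfold hn dn
  push_cast
  rw [← mul_sub, ← mul_min_of_nonneg _ _ h0, mul_inv]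

theorem sum_per (φ : ℕ → ℝ) (d : ℕ) (h : ∀ u, φ (d + u) = φ u) (g : ℕ) :
    ∑ u ∈ range (g * d), φ u = g * ∑ u ∈ range d, φ u := by
  have h1 : ∀ (g u : ℕ), φ (g * d + u) = φ u := by
    intro g
    induction g with
    | zero => intro u; rw [zero_mul, zero_add]
    | succ g ih =>
      intro u
      rw [show (g + 1) * d + u = d + (g * d + u) by ring, h, ih]
  induction g with
  | zero => simp
  | succ g ih =>
    rw [show (g + 1) * d = g * d + d by ring, Finset.sum_range_add, ih]
    simp only [h1]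
    push_cast
    ring

theorem harm_le (d : ℕ) : ∑ a ∈ range d, hn d a ≤ 2 * (1 + Real.log d) := by
  rcases Nat.eq_zero_or_pos d with h0 | h0
  · subst h0
    simp
  have h1 : ∀ a ∈ range d, hn d a ≤ (if a = 0 then 0 else ((a : ℝ)⁻¹ + ((d : ℝ) - a)⁻¹)) := by
    intro a ha
    have ha' := mem_range.1 ha
    by_cases h : a = 0
    · subst h
      rw [if_pos rfl, hn_zero]
    · rw [if_neg h]
      have h2 : (0 : ℝ) < a := by exact_mod_cast Nat.pos_of_ne_zero h
      have h3 : (0 : ℝ) < (d : ℝ) - a := by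
        have : (a : ℝ) < d := by exact_mod_cast ha'
        linarith
      unfold hn dn
      rcases min_cases (a : ℝ) ((d : ℝ) - a) with ⟨h4, -⟩ | ⟨h4, -⟩
      · rw [h4]
        have := inv_pos.2 h3
        linarith
      · rw [h4]
        have := inv_pos.2 h2
        linarith
  refine (sum_le_sum h1).trans ?_
  have h2 : ∑ a ∈ range d, (if a = 0 then (0 : ℝ) else ((a : ℝ)⁻¹ + ((d : ℝ) - a)⁻¹)) =
      2 * ∑ a ∈ range (d - 1), ((a + 1 : ℕ) : ℝ)⁻¹ := by
    obtain ⟨e, rfl⟩ : ∃ e, d = e + 1 := ⟨d - 1, by omega⟩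
    rw [sum_range_succ']
    simp only [Nat.add_one_ne_zero, if_false, if_true, add_zero, Nat.add_sub_cancel]
    rw [sum_add_distrib, two_mul]
    congr 1
    rw [← sum_range_reflect]
    refine sum_congr rfl fun a ha => ?_
    have ha' := mem_range.1 ha
    congr 1
    have h3 : e - 1 - a + 1 = e - a := by omega
    rw [h3, Nat.cast_sub ha'.le]
    push_cast
    ring
  rw [h2]
  have h3 : ∑ a ∈ range (d - 1), ((a + 1 : ℕ) : ℝ)⁻¹ = ((harmonic (d - 1) : ℚ) : ℝ) := by
    unfold harmonic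
    push_cast
    rfl
  rw [h3]
  have h4 := harmonic_le_one_add_log (d - 1)
  have h5 : Real.log ((d - 1 : ℕ) : ℝ) ≤ Real.log d := by
    rcases Nat.eq_zero_or_pos (d - 1) with h6 | h6
    · rw [h6, Nat.cast_zero, Real.log_zero]
      exact Real.log_natCast_nonneg d
    · refine Real.log_le_log (by exact_mod_cast h6) ?_
      exact_mod_cast Nat.sub_le d 1
  linarith

theorem sum_mul_le (D K : ℕ) (hD : 0 < D) (hK : 0 < K) :
    ∑ u ∈ range D, hn D ((K * u) % D) ≤ 2 * (1 + Real.log D) := by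
  set g := Nat.gcd K D with hg
  have hg0 : 0 < g := Nat.gcd_pos_of_pos_left D hK
  obtain ⟨k, hk⟩ : g ∣ K := Nat.gcd_dvd_left K D
  obtain ⟨d, hd⟩ : g ∣ D := Nat.gcd_dvd_right K D
  have hcop : Nat.Coprime k d := by
    have h1 : Nat.gcd (g * k) (g * d) = g := by rw [← hk, ← hd]
    rw [Nat.gcd_mul_left] at h1
    exact Nat.eq_of_mul_eq_mul_left hg0 (by rw [h1, mul_one])
  have hd0 : 0 < d := by
    rcases Nat.eq_zero_or_pos d with h | h
    · rw [h, mul_zero] at hd
      omega
    · exact h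
  have h1 : ∀ u : ℕ, hn D ((K * u) % D) = (g : ℝ)⁻¹ * hn d ((k * u) % d) := by
    intro u
    rw [hk, hd, mul_assoc, Nat.mul_mod_mul_left, hn_mul g d _ hg0]
  simp only [h1]
  rw [← mul_sum]
  have h2 : ∑ u ∈ range D, hn d ((k * u) % d) = g * ∑ u ∈ range d, hn d ((k * u) % d) := by
    conv_lhs => rw [hd]
    refine sum_per _ d (fun u => ?_) g
    congr 1
    rw [mul_add, mul_comm k d, Nat.mul_add_mod]
  rw [h2, ← mul_assoc, inv_mul_cancel₀ (by positivity), one_mul]
  have h3 : ∑ u ∈ range d, hn d ((k * u) % d) ≤ ∑ a ∈ range d, hn d a := by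
    have h4 : ∑ u ∈ range d, hn d ((k * u) % d) =
        ∑ a ∈ (range d).image (fun u => (k * u) % d), hn d a := by
      rw [sum_image]
      intro u hu v hv huv
      have h5 : k * u ≡ k * v [MOD d] := huv
      have h6 := Nat.ModEq.cancel_left_of_coprime (by rwa [Nat.gcd_comm] : Nat.gcd d k = 1) h5
      exact Nat.ModEq.eq_of_lt_of_lt h6 (mem_range.1 hu) (mem_range.1 hv)
    rw [h4]
    refine sum_le_sum_of_subset_of_nonneg ?_ ?_
    · intro a ha
      obtain ⟨u, -, rfl⟩ := mem_image.1 ha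
      exact mem_range.2 (Nat.mod_lt _ hd0)
    · intro a ha _
      exact hn_nonneg (mem_range.1 ha)
  refine h3.trans ((harm_le d).trans ?_)
  have h5 : Real.log d ≤ Real.log D := by
    refine Real.log_le_log (by exact_mod_cast hd0) ?_
    have : d ≤ D := by
      rw [hd]
      exact Nat.le_mul_of_pos_left d hg0
    exact_mod_cast this
  linarith

variable {D : ℕ} [NeZero D]

/-- The inverse distance on the residues. -/
noncomputable def hz (x : ZMod D) : ℝ := hn D x.val

theorem hz_nonneg (x : ZMod D) : 0 ≤ hz x := hn_nonneg (ZMod.val_lt x)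

theorem hz_zero : hz (0 : ZMod D) = 0 := by
  unfold hz
  rw [ZMod.val_zero, hn_zero]

theorem hz_neg (x : ZMod D) : hz (-x) = hz x := by
  by_cases h : x = 0
  · rw [h, neg_zero]
  · have : NeZero x := ⟨h⟩
    unfold hz hn dn
    rw [ZMod.val_neg_of_ne_zero, Nat.cast_sub (ZMod.val_lt x).le, min_comm]
    congr 2
    ring

theorem sum_hz (k : ZMod D) : ∑ u : ZMod D, hz (k * u) ≤ 2 * (1 + Real.log D) := by
  have hD : 0 < D := Nat.pos_of_ne_zero (NeZero.ne D)
  by_cases hk : k = 0
  · simp only [hk, zero_mul, hz_zero, sum_const_zero]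
    have := Real.log_natCast_nonneg D
    positivity
  · have hK : 0 < k.val := by
      rw [Nat.pos_iff_ne_zero]
      intro h
      exact hk ((ZMod.val_eq_zero k).1 h)
    refine le_trans (le_of_eq ?_) (sum_mul_le D k.val hD hK)
    refine Finset.sum_nbij' (fun x => x.val) (fun j => (j : ZMod D)) ?_ ?_ ?_ ?_ ?_
    · intro x _; exact mem_range.2 (ZMod.val_lt x)
    · intro j _; exact mem_univ _
    · intro x _; exact ZMod.natCast_zmod_val x
    · intro j hj
      rw [ZMod.val_natCast, Nat.mod_eq_of_lt (mem_range.1 hj)]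
    · intro x _
      unfold hz
      rw [ZMod.val_mul]

end Run7.h8.RO
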