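import Pool.Agent.Run7.h8.RO.Abs

/-!
# Rohrlich's conjecture for sums with three values
-/

set_option autoImplicit false
set_option linter.unusedSectionVars false
set_option linter.unusedVariables false

namespace Run7.h8.RO

open Pool.Agent.W547.KB Pool.Agent.W537.PC Pool.Agent.W527.Vec

noncomputable section

theorem isAlgebraic_ofReal {x : ℝ} : IsAlgebraic ℚ (x : ℂ) ↔ IsAlgebraic ℚ x :=
  isAlgebraic_algebraMap_iff (R := ℚ) (S := ℝ) (A := ℂ) Complex.ofReal_injective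

/-- No entry is zero or a negative integer. -/
def Good {r : ℕ} (a : Fin r → ℚ) : Prop := ∀ (i : Fin r) (n : ℕ), a i ≠ -(n : ℚ)

theorem gamma_ne' {x : ℚ} (hx : ∀ n : ℕ, x ≠ -(n : ℚ)) : Complex.Gamma (x : ℂ) ≠ 0 := by
  refine Complex.Gamma_ne_zero fun m hm => hx m ?_
  have h2 : (x : ℂ) = ((-(m : ℚ) : ℚ) : ℂ) := by
    rw [hm]
    push_cast
    rfl
  exact_mod_cast h2

theorem two_lg_pow (r : ℕ) :
    (2 : ℤ) • lg ((Real.pi ^ ((r : ℝ) / 2) : ℝ) : ℂ) = (r : ℤ) • lg Real.pi := by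
  have h1 : (Real.pi : ℂ) ≠ 0 := by exact_mod_cast Real.pi_ne_zero
  have h2 : ((Real.pi ^ ((r : ℝ) / 2) : ℝ) : ℂ) ≠ 0 := by
    exact_mod_cast (Real.rpow_pos_of_pos Real.pi_pos _).ne'
  have h3 : (2 : ℤ) • lg ((Real.pi ^ ((r : ℝ) / 2) : ℝ) : ℂ) =
      (2 : ℕ) • lg ((Real.pi ^ ((r : ℝ) / 2) : ℝ) : ℂ) := by
    rw [← natCast_zsmul]; rfl
  rw [h3, ← lg_pow h2, natCast_zsmul, ← lg_pow h1]
  congr 1
  have h4 : (Real.pi ^ ((r : ℝ) / 2)) ^ (2 : ℕ) = Real.pi ^ r := by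
    rw [← Real.rpow_natCast, ← Real.rpow_mul Real.pi_pos.le]
    rw [show (r : ℝ) / 2 * ((2 : ℕ) : ℝ) = (r : ℝ) by push_cast; ring, Real.rpow_natCast]
  exact_mod_cast h4

theorem lg_prod_gamma {r : ℕ} {a : Fin r → ℚ} (ha : Good a) :
    ((∏ i : Fin r, Real.Gamma ((a i : ℚ) : ℝ) : ℝ) : ℂ) ≠ 0 ∧
      lg ((∏ i : Fin r, Real.Gamma ((a i : ℚ) : ℝ) : ℝ) : ℂ) = ∑ i, lG (a i) := by
  have h1 : ((∏ i : Fin r, Real.Gamma ((a i : ℚ) : ℝ) : ℝ) : ℂ) =
      ∏ i : Fin r, Complex.Gamma (a i : ℂ) := by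
    push_cast
    refine Finset.prod_congr rfl fun i _ => ?_
    rw [← Complex.Gamma_ofReal]
    push_cast
    rfl
  have h2 : ∀ i ∈ (Finset.univ : Finset (Fin r)), Complex.Gamma (a i : ℂ) ≠ 0 :=
    fun i _ => gamma_ne' (ha i)
  rw [h1]
  exact ⟨Finset.prod_ne_zero_iff.2 h2, lg_prod _ _ h2⟩

theorem alg_iff {r : ℕ} {a : Fin r → ℚ} (ha : Good a) :
    AlgMultiple a ↔ (2 : ℤ) • ∑ i, lG (a i) = (r : ℤ) • lg Real.pi := by
  obtain ⟨h1, h2⟩ := lg_prod_gamma ha
  have h3 : ((Real.pi ^ ((r : ℝ) / 2) : ℝ) : ℂ) ≠ 0 := by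
    exact_mod_cast (Real.rpow_pos_of_pos Real.pi_pos _).ne'
  constructor
  · rintro ⟨α, hα, h⟩
    have h4 := congrArg (fun x : ℝ => (x : ℂ)) h
    simp only [Complex.ofReal_mul] at h4
    have hα0 : (α : ℂ) ≠ 0 := by
      intro h5
      rw [h5, zero_mul] at h4
      exact h1 h4
    have h5 := congrArg lg h4
    rw [lg_mul hα0 h3, lg_algebraic (isAlgebraic_ofReal.2 hα) hα0, zero_add] at h5
    rw [← h2, h5, two_lg_pow]
  · intro h
    have h3' : (Real.pi ^ ((r : ℝ) / 2) : ℝ) ≠ 0 := (Real.rpow_pos_of_pos Real.pi_pos _).ne'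
    refine ⟨(∏ i : Fin r, Real.Gamma ((a i : ℚ) : ℝ)) / Real.pi ^ ((r : ℝ) / 2), ?_,
      (div_mul_cancel₀ _ h3').symm⟩
    rw [← isAlgebraic_ofReal, Complex.ofReal_div]
    refine algebraic_of_lg (div_ne_zero h1 h3) ?_
    refine zsmul_eq_zero' (n := 2) two_ne_zero ?_
    rw [lg_div h1 h3, smul_sub, h2, h, two_lg_pow, sub_self]

/-- The numerators. -/
def Num (D : ℕ) {r : ℕ} (a : Fin r → ℚ) (n : Fin r → ℤ) : Prop := ∀ i, a i = (n i : ℚ) / D

variable {D : ℕ} {r : ℕ} {a : Fin r → ℚ} {n : Fin r → ℤ}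

theorem Num.not_dvd (hD : 0 < D) (h : Num D a n) (ha : ∀ i, ∀ y : ℤ, a i ≠ y) (i : Fin r) :
    ¬ (D : ℤ) ∣ n i := by
  rintro ⟨y, hy⟩
  apply ha i y
  rw [h i, hy]
  have h0 : (D : ℚ) ≠ 0 := by exact_mod_cast hD.ne'
  push_cast
  field_simp

theorem exists_num (hD : 0 < D) (h : ∀ i, ∃ y : ℤ, (D : ℚ) * a i = y) : ∃ n, Num D a n := by
  choose n hn using h
  refine ⟨n, fun i => ?_⟩
  have h0 : (D : ℚ) ≠ 0 := by exact_mod_cast hD.ne'
  rw [← hn i]
  field_simp

theorem excess_eq (h : Num D a n) (m : ℕ) : excess a m = ∑ i, bb D (m * n i) := by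
  unfold excess bb fr
  rw [Finset.sum_sub_distrib]
  congr 1
  · refine Finset.sum_congr rfl fun i _ => ?_
    rw [h i]
    push_cast
    rw [mul_div_assoc]
  · simp
    ring

theorem good_of_nonint (ha : ∀ i, ∀ y : ℤ, a i ≠ y) : Good a := by
  intro i n h
  apply ha i (-n)
  rw [h]
  push_cast
  rfl

theorem alg_iff_gv (hD : 0 < D) (h : Num D a n) (ha : ∀ i, ∀ y : ℤ, a i ≠ y) :
    AlgMultiple a ↔ ∑ i, gv D (n i) = 0 := by
  rw [alg_iff (good_of_nonint ha), ← sub_eq_zero]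
  have h1 : (2 : ℤ) • ∑ i, lG (a i) - (r : ℤ) • lg (Real.pi : ℂ) = ∑ i, gv D (n i) := by
    unfold gv
    rw [Finset.sum_sub_distrib, ← Finset.smul_sum]
    congr 1
    · congr 1
      refine Finset.sum_congr rfl fun i _ => ?_
      rw [← lG_fract (ha i), h i]
      rfl
    · simp
  rw [h1]

/-- Every residue class prime to `D` has a small representative. -/
theorem small_rep (hD : 2 < D) {t : ℤ} (ht : IsCoprime t (D : ℤ)) :
    1 ≤ rs D t ∧ rs D t < D ∧ (rs D t).Coprime D ∧ (D : ℤ) ∣ (rs D t : ℤ) - t := by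
  have hD0 : 0 < D := by omega
  have n1 : ¬ (D : ℤ) ∣ t := by
    have := not_dvd_of_coprime ht (not_dvd_nat (D := D) one_pos (by omega))
    simpa using this
  obtain ⟨h1, h2, h3⟩ := rs_spec hD0 n1
  refine ⟨h1, h2, ?_, h3⟩
  obtain ⟨y, hy⟩ := h3
  have h4 : (rs D t : ℤ) = t + D * y := by linarith
  rw [← Nat.isCoprime_iff_coprime, h4]
  exact ht.add_mul_left_left y

theorem excess_rep (hD : 2 < D) (h : Num D a n) {t : ℤ} (ht : IsCoprime t (D : ℤ)) :
    ∑ i, bb D (t * n i) = excess a (rs D t) := by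
  rw [excess_eq h]
  refine Finset.sum_congr rfl fun i _ => ?_
  obtain ⟨-, -, -, h3⟩ := small_rep hD ht
  refine (bb_eq_of_dvd (by omega) ?_).symm
  rw [← sub_mul]
  exact Dvd.dvd.mul_right h3 _

variable {P : PeriodSystem}

/-- The identity of the fractional parts. -/
def Identity (D : ℕ) {r : ℕ} (a : Fin r → ℚ) : Prop :=
  ∀ m : ℕ, 1 ≤ m → m < D → m.Coprime D → ∑ i : Fin r, Int.fract ((m : ℚ) * a i) = (r : ℚ) / 2

theorem identity_iff (hD : 2 < D) (h : Num D a n) :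
    Identity D a ↔ ∀ t : ℤ, IsCoprime t (D : ℤ) → ∑ i, bb D (t * n i) = 0 := by
  constructor
  · intro h1 t ht
    obtain ⟨h2, h3, h4, -⟩ := small_rep hD ht
    rw [excess_rep hD h ht]
    unfold excess
    rw [h1 _ h2 h3 h4, sub_self]
  · intro h1 m h2 h3 h4
    have h5 := h1 m (Nat.isCoprime_iff_coprime.2 h4)
    rw [← excess_eq h] at h5
    unfold excess at h5
    linarith

theorem three_values (hD : 2 < D) (hDe : P.Deligne) (hW : Wustholz P) (hF : FermatPeriods P)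
    (hDa : ∀ i, ∃ y : ℤ, (D : ℚ) * a i = y) (ha : ∀ i, ∀ y : ℤ, a i ≠ y) (c : ℚ)
    (hval : ∀ m : ℕ, 1 ≤ m → m < D → m.Coprime D →
      excess a m = 0 ∨ excess a m = c ∨ excess a m = -c) :
    AlgMultiple a ↔ Identity D a := by
  have hD0 : 0 < D := by omega
  obtain ⟨n, h⟩ := exists_num hD0 hDa
  have hn := h.not_dvd hD0 ha
  rw [alg_iff_gv hD0 h ha, identity_iff hD h]
  constructor
  · intro h1 t ht
    have h2 := rel_values hD hDe hW hF n hn (fun _ => 1) (by simpa using h1) c (by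
      intro u hu
      obtain ⟨h2, h3, h4, -⟩ := small_rep hD hu
      have h5 := hval _ h2 h3 h4
      rw [← excess_rep hD h hu] at h5
      simpa using h5) t ht
    simpa using h2
  · intro h1
    have h2 := conv hD hDe hF n hn (fun _ => 1) (by
      intro t ht
      simpa using h1 t ht)
    simpa using h2

/-- At most four numbers with an integral sum. -/
theorem four (hD : 2 < D) (hDe : P.Deligne) (hW : Wustholz P) (hF : FermatPeriods P)
    (hDa : ∀ i, ∃ y : ℤ, (D : ℚ) * a i = y) (ha : ∀ i, ∀ y : ℤ, a i ≠ y) (hr : r ≤ 4)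
    (hsum : ∃ y : ℤ, ∑ i, a i = y) : AlgMultiple a ↔ Identity D a := by
  have hD0 : 0 < D := by omega
  obtain ⟨n, h⟩ := exists_num hD0 hDa
  have hn := h.not_dvd hD0 ha
  obtain ⟨y, hy⟩ := hsum
  -- the values
  have hv : ∀ m : ℕ, m.Coprime D → ∃ s : ℤ, ∑ i, Int.fract ((m : ℚ) * a i) = s ∧
      (r ≠ 0 → 0 < s ∧ s < r) := by
    intro m hm
    refine ⟨m * y - ∑ i, ⌊(m : ℚ) * a i⌋, ?_, ?_⟩
    · unfold Int.fract
      rw [Finset.sum_sub_distrib, ← Finset.mul_sum, hy]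
      push_cast
      rfl
    · intro hr0
      have hne : (Finset.univ : Finset (Fin r)).Nonempty :=
        ⟨⟨0, Nat.pos_of_ne_zero hr0⟩, Finset.mem_univ _⟩
      have h1 : ((m * y - ∑ i, ⌊(m : ℚ) * a i⌋ : ℤ) : ℚ) = ∑ i, Int.fract ((m : ℚ) * a i) := by
        unfold Int.fract
        rw [Finset.sum_sub_distrib, ← Finset.mul_sum, hy]
        push_cast
        rfl
      have h2 : 0 < ∑ i, Int.fract ((m : ℚ) * a i) := by
        refine Finset.sum_pos (fun i _ => ?_) hne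
        have h3 := fr_pos hD0 (not_dvd_of_coprime (Nat.isCoprime_iff_coprime.2 hm) (hn i))
        have h4 : fr D ((m : ℤ) * n i) = Int.fract ((m : ℚ) * a i) := by
          unfold fr
          rw [h i]
          push_cast
          rw [mul_div_assoc]
        rwa [← h4]
      have h3 : ∑ i : Fin r, Int.fract ((m : ℚ) * a i) < ∑ i : Fin r, (1 : ℚ) :=
        Finset.sum_lt_sum_of_nonempty hne fun i _ => Int.fract_lt_one _
      rw [← h1] at h2 h3
      simp only [Finset.sum_const, Finset.card_univ, Fintype.card_fin, nsmul_eq_mul,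
        mul_one] at h3
      exact ⟨by exact_mod_cast h2, by exact_mod_cast h3⟩
  refine three_values hD hDe hW hF hDa ha (if r = 3 then 1 / 2 else 1) ?_
  intro m hm1 hm2 hm
  obtain ⟨s, hs, hs'⟩ := hv m hm
  unfold excess
  rw [hs]
  rcases Nat.eq_zero_or_pos r with h0 | h0
  · subst h0
    left
    simp at hs
    rw [← hs]
    simp
  · obtain ⟨h1, h2⟩ := hs' h0.ne'
    interval_cases r
    · omega
    · left
      have : s = 1 := by omega
      rw [this]; norm_num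
    · rw [if_pos rfl]
      have : s = 1 ∨ s = 2 := by omega
      rcases this with rfl | rfl
      · right; right; norm_num
      · right; left; norm_num
    · rw [if_neg (by norm_num)]
      have : s = 1 ∨ s = 2 ∨ s = 3 := by omega
      rcases this with rfl | rfl | rfl
      · right; right; norm_num
      · left; norm_num
      · right; left; norm_num

end

end Run7.h8.RO
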