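import Mathlib

/-!
# A telescoping sum
-/

set_option autoImplicit false

namespace Run7.h8.RO

variable {V : Type*} [AddCommGroup V]

theorem tel_aux (F : ℕ → V) (m : ℕ) (hm : 1 ≤ m) :
    ∑ k ∈ Finset.Ico 1 m, (F 1 + F k - F (k + 1)) = m • F 1 - F m := by
  induction m, hm using Nat.le_induction with
  | base => simp
  | succ m hm ih =>
    rw [Finset.sum_Ico_succ_top hm, ih, succ_nsmul]
    abel

/-- The coefficients. -/
def cf (D u k : ℕ) : ℤ := (u : ℤ) - if k < u then (D : ℤ) else 0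

theorem tel (F : ℕ → V) (D u : ℕ) (hu : 1 ≤ u) (hu' : u < D) (hF : F 1 + F (D - 1) = 0) :
    ∑ k ∈ Finset.Ico 1 (D - 1), cf D u k • (F 1 + F k - F (k + 1)) = (D : ℤ) • F u := by
  unfold cf
  simp only [sub_smul]
  rw [Finset.sum_sub_distrib, ← Finset.smul_sum, tel_aux F (D - 1) (by omega)]
  have h1 : ∑ k ∈ Finset.Ico 1 (D - 1), (if k < u then (D : ℤ) else 0) • (F 1 + F k - F (k + 1)) =
      (D : ℤ) • ((u : ℕ) • F 1 - F u) := by
    rw [← tel_aux F u hu, Finset.smul_sum]
    have h2 : Finset.Ico 1 u = (Finset.Ico 1 (D - 1)).filter (fun k => k < u) := by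
      ext k
      simp only [Finset.mem_Ico, Finset.mem_filter]
      omega
    rw [h2, Finset.sum_filter]
    refine Finset.sum_congr rfl fun k _ => ?_
    split_ifs with h3
    · rfl
    · rw [zero_smul]
  rw [h1]
  have h4 : F (D - 1) = - F 1 := (neg_eq_of_add_eq_zero_right hF).symm
  rw [h4]
  have h5 : ((D - 1 : ℕ) : ℤ) = (D : ℤ) - 1 := by omega
  rw [← natCast_zsmul, h5, ← natCast_zsmul]
  module

end Run7.h8.RO
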