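import Pool.Agent.Run7.h8.RO.Cyc
import Pool.Agent.Run7.h8.RO.Tel

/-!
# Relations between values of the Gamma function
-/

set_option autoImplicit false
set_option linter.unusedSectionVars false
set_option linter.unusedVariables false

namespace Run7.h8.RO

open NumberField Pool.Agent.H204R3.CM Pool.Agent.W547.KB Pool.Agent.W537.PC Pool.Agent.W527.Vec

noncomputable section

variable {D : ℕ} {L : Type} [Field L] [NumberField L] [IsCMField L] [IsGalois ℚ L] (j : L →+* ℂ)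
  {P : PeriodSystem} {z : L} (hz : IsPrimitiveRoot z D)

/-- The residue. -/
def rs (D : ℕ) (n : ℤ) : ℕ := (n % D).toNat

theorem rs_spec (hD : 0 < D) {n : ℤ} (hn : ¬ (D : ℤ) ∣ n) :
    1 ≤ rs D n ∧ rs D n < D ∧ (D : ℤ) ∣ (rs D n : ℤ) - n := by
  have h0 : (0 : ℤ) < D := by exact_mod_cast hD
  have h1 := Int.emod_nonneg n h0.ne'
  have h2 := Int.emod_lt_of_pos n h0
  have h3 : n % D ≠ 0 := fun h => hn (Int.dvd_of_emod_eq_zero h)
  have h4 : ((rs D n : ℕ) : ℤ) = n % D := Int.toNat_of_nonneg h1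
  refine ⟨by omega, by omega, ?_⟩
  rw [h4, Int.emod_def]
  exact ⟨-(n / D), by ring⟩

/-- All letters (a junk letter outside of the range). -/
def lt (hD : 2 < D) (k : ℕ) : Letter L :=
  if hk : 0 < k ∧ k + 1 < D then lett hz k hk else lett hz 1 ⟨one_pos, hD⟩

theorem lt_eq (hD : 2 < D) {k : ℕ} (hk : k ∈ Finset.Ico 1 (D - 1)) :
    ∃ hk : 0 < k ∧ k + 1 < D, lt hz hD k = lett hz k hk := by
  have h1 := Finset.mem_Ico.1 hk
  have h2 : 0 < k ∧ k + 1 < D := ⟨by omega, by omega⟩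
  exact ⟨h2, dif_pos h2⟩

theorem sum_WL (hD : 2 < D) (hF : FermatPeriods P) (hadj : Algebra.adjoin ℚ {z} = ⊤)
    (hj : j z = root D 1) {n : ℤ} (hn : ¬ (D : ℤ) ∣ n) :
    ∑ k ∈ Finset.Ico 1 (D - 1), cf D (rs D n) k • WL j P (lt hz hD k) = (D : ℤ) • gv D n := by
  have hD0 : 0 < D := by omega
  obtain ⟨h1, h2, h3⟩ := rs_spec hD0 hn
  have h4 := tel (fun k : ℕ => gv D (k : ℤ)) D (rs D n) h1 h2 (by
    have n1 : ¬ (D : ℤ) ∣ 1 := by
      have := not_dvd_nat (D := D) one_pos (by omega)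
      simpa using this
    have h5 : gv D ((D - 1 : ℕ) : ℤ) = gv D (-1) := gv_eq_of_dvd hD0 ⟨1, by omega⟩
    rw [h5]
    exact_mod_cast gv_neg hD0 n1)
  rw [← gv_eq_of_dvd hD0 h3, ← h4]
  refine Finset.sum_congr rfl fun k hk => ?_
  obtain ⟨hk', h5⟩ := lt_eq hz hD hk
  rw [h5, WL_lett j hz hF hadj hj]
  push_cast
  rfl

theorem sum_s (hD : 2 < D) (hj : j z = root D 1) {n : ℤ} (hn : ¬ (D : ℤ) ∣ n) (σ : L ≃ₐ[ℚ] L)
    {t : ℤ} (htc : IsCoprime t (D : ℤ)) (ht : j (σ z) = root D t) :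
    ∑ k ∈ Finset.Ico 1 (D - 1), (cf D (rs D n) k : ℚ) * (((lt hz hD k).s j σ : ℤ) : ℚ) =
      (-2) * D * bb D (t * n) := by
  have hD0 : 0 < D := by omega
  obtain ⟨h1, h2, h3⟩ := rs_spec hD0 hn
  have h4 := tel (fun k : ℕ => bb D (t * k)) D (rs D n) h1 h2 (by
    have n1 : ¬ (D : ℤ) ∣ t := by
      have := not_dvd_of_coprime htc (not_dvd_nat (D := D) one_pos (by omega))
      simpa using this
    have h5 : bb D (t * ((D - 1 : ℕ) : ℤ)) = bb D (-t) := by
      refine bb_eq_of_dvd hD0 ⟨t, ?_⟩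
      have h6 : ((D - 1 : ℕ) : ℤ) = (D : ℤ) - 1 := by omega
      rw [h6]
      ring
    simp only [Nat.cast_one, mul_one]
    rw [h5, bb_neg hD0 n1]
    ring)
  have h6 : bb D (t * (rs D n : ℤ)) = bb D (t * n) := by
    refine bb_eq_of_dvd hD0 ?_
    rw [← mul_sub]
    exact Dvd.dvd.mul_left h3 _
  rw [← h6]
  have h7 : (-2) * (D : ℚ) * bb D (t * (rs D n : ℤ)) =
      (-2) * ((D : ℤ) • bb D (t * (rs D n : ℤ))) := by
    rw [zsmul_eq_mul]
    push_cast
    ring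
  rw [h7, ← h4, Finset.mul_sum]
  refine Finset.sum_congr rfl fun k hk => ?_
  obtain ⟨hk', h5⟩ := lt_eq hz hD hk
  rw [h5, s_lett j hz hj k hk' σ ht, zsmul_eq_mul]
  simp only [Nat.cast_one, mul_one, Nat.cast_add]
  ring

section main

variable (hD : 2 < D) (hadj : Algebra.adjoin ℚ {z} = ⊤) (hj : j z = root D 1)
  {K0 : Type} [Fintype K0] (n : K0 → ℤ) (hn : ∀ k, ¬ (D : ℤ) ∣ n k) (c : K0 → ℤ)

include hj hn in
theorem sum_s_all (σ : L ≃ₐ[ℚ] L) {t : ℤ} (htc : IsCoprime t (D : ℤ)) (ht : j (σ z) = root D t) :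
    ((∑ x ∈ (Finset.univ : Finset K0) ×ˢ Finset.Ico 1 (D - 1),
      (c x.1 * cf D (rs D (n x.1)) x.2) * (lt hz hD x.2).s j σ : ℤ) : ℚ) =
      (-2) * D * ∑ k, c k * bb D (t * n k) := by
  push_cast
  rw [Finset.sum_product, Finset.mul_sum]
  refine Finset.sum_congr rfl fun k _ => ?_
  have h1 := sum_s j hz hD hj (hn k) σ htc ht
  have h2 : (-2) * (D : ℚ) * (c k * bb D (t * n k)) = c k * ((-2) * D * bb D (t * n k)) := by ring
  rw [h2, ← h1, Finset.mul_sum]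
  refine Finset.sum_congr rfl fun l _ => ?_
  ring

include hj hn hadj in
theorem sum_WL_all (hF : FermatPeriods P) :
    ∑ x ∈ (Finset.univ : Finset K0) ×ˢ Finset.Ico 1 (D - 1),
      (c x.1 * cf D (rs D (n x.1)) x.2) • WL j P (lt hz hD x.2) =
      (D : ℤ) • ∑ k, c k • gv D (n k) := by
  rw [Finset.sum_product, Finset.smul_sum]
  refine Finset.sum_congr rfl fun k _ => ?_
  simp only
  rw [smul_comm, ← sum_WL j hz hD hF hadj hj (hn k), Finset.smul_sum]
  refine Finset.sum_congr rfl fun l _ => ?_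
  rw [mul_smul]

include hz hD hadj hj hn in
/-- Relations with three values are trivial. -/
theorem rel_L (hDe : P.Deligne) (hW : Wustholz P) (hF : FermatPeriods P)
    (hzero : ∑ k, c k • gv D (n k) = 0) (N : ℤ) (hN : N ≠ 0)
    (hval : ∀ t : ℤ, IsCoprime t (D : ℤ) → ∃ e : ℤ, (e = 0 ∨ e = 1 ∨ e = -1) ∧
      2 * D * ∑ k, c k * bb D (t * n k) = N * e)
    (hsur : ∀ t : ℤ, IsCoprime t (D : ℤ) → ∃ σ : L ≃ₐ[ℚ] L, j (σ z) = root D t)
    (t : ℤ) (ht : IsCoprime t (D : ℤ)) : ∑ k, c k * bb D (t * n k) = 0 := by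
  have hD0 : 0 < D := by omega
  have h1 : ∀ σ : L ≃ₐ[ℚ] L, ∃ t : ℤ, IsCoprime t (D : ℤ) ∧ j (σ z) = root D t := fun σ =>
    exists_root hD0 hz (j.comp (σ : L →+* L))
  choose tt htc htt using h1
  choose e he he' using fun σ => hval (tt σ) (htc σ)
  have h2 := key j (P := P) hDe hW ((Finset.univ : Finset K0) ×ˢ Finset.Ico 1 (D - 1))
    (fun x => lt hz hD x.2) (fun x => c x.1 * cf D (rs D (n x.1)) x.2) (-N) (neg_ne_zero.2 hN) e
    he (by
    intro σ
    have h3 := sum_s_all j hz hD hj n hn c σ (htc σ) (htt σ)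
    have h4 : (((-N) * e σ : ℤ) : ℚ) = (-2) * D * ∑ k, c k * bb D (tt σ * n k) := by
      push_cast
      linear_combination he' σ
    rw [← h4] at h3
    exact_mod_cast h3) (by
    rw [sum_WL_all j hz hD hadj hj n hn c hF, hzero, smul_zero])
  obtain ⟨σ, hσ⟩ := hsur t ht
  have h5 := he' σ
  rw [h2 σ, Int.cast_zero, mul_zero] at h5
  have h6 : (D : ℤ) ∣ tt σ - t := by
    rw [← root_eq_iff hD0, ← htt σ, hσ]
  have h7 : ∀ k, bb D (tt σ * n k) = bb D (t * n k) := fun k => by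
    refine bb_eq_of_dvd hD0 ?_
    rw [← sub_mul]
    exact Dvd.dvd.mul_right h6 _
  simp only [h7] at h5
  have h8 : (2 * (D : ℚ)) ≠ 0 := by positivity
  exact (mul_eq_zero.1 h5).resolve_left h8

include hz hD hadj hj hn in
/-- The converse (Koblitz, Ogus, Deligne). -/
theorem conv_L (hDe : P.Deligne) (hF : FermatPeriods P)
    (hval : ∀ t : ℤ, IsCoprime t (D : ℤ) → ∑ k, c k * bb D (t * n k) = 0) :
    ∑ k, c k • gv D (n k) = 0 := by
  have hD0 : 0 < D := by omega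
  have h1 := deligne_sum j (P := P) hDe ((Finset.univ : Finset K0) ×ˢ Finset.Ico 1 (D - 1))
    (fun x => lt hz hD x.2) (fun x => c x.1 * cf D (rs D (n x.1)) x.2) (by
    intro σ
    obtain ⟨t, htc, htt⟩ := exists_root hD0 hz (j.comp (σ : L →+* L))
    have h3 := sum_s_all j hz hD hj n hn c σ htc htt
    rw [hval t htc, mul_zero] at h3
    exact_mod_cast h3)
  rw [sum_WL_all j hz hD hadj hj n hn c hF] at h1
  exact zsmul_eq_zero' (by exact_mod_cast hD0.ne') h1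

end main

end

end Run7.h8.RO
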