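import Pool.Agent.Run7.h8.RO.GenDens

/-!
# The values of the Gamma function at the small multiples of `1 / D`
-/

set_option autoImplicit false
set_option linter.unusedSectionVars false
set_option linter.unusedVariables false

namespace Run7.h8.RO

open Pool.Agent.W547.KB Pool.Agent.W537.PC Pool.Agent.W527.Vec Pool.Agent.H916R2

noncomputable section

variable {D : ℕ} {P : PeriodSystem}

/-- A multiplier prime to `D` which separates two multiples of `1 / D`. -/
theorem exists_mult {D R M e d : ℕ} (hR : ∀ p : ℕ, p.Prime → p ∣ D → p ∣ R) (hR0 : 0 < R)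
    (hMR : M * M * R < D) (hed : e < d) (hdM : d ≤ M) :
    ∃ t : ℕ, t.Coprime D ∧ D < t * d ∧ t * e < D ∧ t * d < 2 * D := by
  classical
  have hd : 0 < d := by omega
  have hM : 0 < M := by omega
  have hex : ∃ j : ℕ, D < (1 + R * j) * d := by
    refine ⟨D, ?_⟩
    have h1 : D ≤ R * D := Nat.le_mul_of_pos_left D hR0
    have h2 : 1 + R * D ≤ (1 + R * D) * d := Nat.le_mul_of_pos_right _ hd
    omega
  set j := Nat.find hex with hj
  have h1 : D < (1 + R * j) * d := Nat.find_spec hex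
  have hMD : M * R ≤ M * M * R := by
    have := Nat.le_mul_of_pos_right (M * R) hM
    calc M * R ≤ M * R * M := this
      _ = M * M * R := by ring
  have hMM : M ≤ M * R := Nat.le_mul_of_pos_right M hR0
  have hj0 : j ≠ 0 := by
    intro h
    rw [h] at h1
    simp only [mul_zero, add_zero, one_mul] at h1
    omega
  obtain ⟨i, hi⟩ : ∃ i, j = i + 1 := ⟨j - 1, by omega⟩
  have h2 : (1 + R * i) * d ≤ D := by
    have := Nat.find_min hex (m := i) (by omega)
    exact not_lt.1 this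
  have hRd : R * d ≤ M * R := by
    rw [mul_comm R d]
    exact Nat.mul_le_mul_right R hdM
  have h3 : (1 + R * j) * d = (1 + R * i) * d + R * d := by
    rw [hi]; ring
  -- the multiplier is large
  have h4 : M * R < 1 + R * j := by
    by_contra hcon
    have h5 : (1 + R * j) * d ≤ (M * R) * M := Nat.mul_le_mul (not_lt.1 hcon) hdM
    have h6 : (M * R) * M = M * M * R := by ring
    omega
  refine ⟨1 + R * j, ?_, h1, ?_, ?_⟩
  · refine Nat.coprime_of_dvd fun p hp h5 h6 => ?_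
    have h7 := hR p hp h6
    have h8 : p ∣ 1 := (Nat.dvd_add_left (Dvd.dvd.mul_right h7 j)).1 h5
    exact hp.one_lt.ne' (Nat.dvd_one.1 h8)
  · have h5 : (1 + R * j) * e + (1 + R * j) ≤ (1 + R * j) * d := by
      have : (1 + R * j) * (e + 1) ≤ (1 + R * j) * d := Nat.mul_le_mul_left _ hed
      calc (1 + R * j) * e + (1 + R * j) = (1 + R * j) * (e + 1) := by ring
        _ ≤ _ := this
    omega
  · omega

theorem fr_small {x : ℕ} (hx : x < D) : fr D (x : ℤ) = (x : ℚ) / D := by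
  unfold fr
  have h0 : (0 : ℚ) < D := by
    have : 0 < D := by omega
    exact_mod_cast this
  rw [Int.cast_natCast, Int.fract_eq_self]
  constructor
  · positivity
  · rw [div_lt_one h0]
    exact_mod_cast hx

theorem fr_mid {x : ℕ} (hx : D < x) (hx2 : x < 2 * D) : fr D (x : ℤ) = (x : ℚ) / D - 1 := by
  have h0 : 0 < D := by omega
  have h1 : fr D (x : ℤ) = fr D ((x - D : ℕ) : ℤ) := by
    refine fr_eq_of_dvd h0 ⟨1, ?_⟩
    rw [Nat.cast_sub hx.le]
    ring
  have h2 : (D : ℚ) ≠ 0 := by exact_mod_cast h0.ne'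
  rw [h1, fr_small (by omega), Nat.cast_sub hx.le]
  field_simp

/-- The small multiples of `1 / D` with Gamma values in one class form a Sidon set. -/
theorem sidon_small {R M : ℕ} (hD : 2 < D) (hDe : P.Deligne) (hW : Wustholz P)
    (hF : FermatPeriods P) (hR : ∀ p : ℕ, p.Prime → p ∣ D → p ∣ R) (hR0 : 0 < R)
    (hMR : M * M * R < D) {x1 x2 x3 x4 : ℕ} (h1 : 0 < x1 ∧ x1 ≤ M) (h2 : 0 < x2 ∧ x2 ≤ M)
    (h3 : 0 < x3 ∧ x3 ≤ M) (h4 : 0 < x4 ∧ x4 ≤ M) (hs : x1 + x2 = x3 + x4)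
    (hgv : gv D x1 + gv D x2 = gv D x3 + gv D x4) : x1 = x3 ∨ x1 = x4 := by
  -- the case in which `y2` is the largest number
  have hMD : M < D := by
    have hM : 0 < M := by omega
    have h5 : M ≤ M * M := Nat.le_mul_of_pos_left M hM
    have h6 : M * M ≤ M * M * R := Nat.le_mul_of_pos_right _ hR0
    omega
  have key : ∀ {y1 y2 y3 y4 : ℕ}, (0 < y1 ∧ y1 ≤ M) → (0 < y2 ∧ y2 ≤ M) → (0 < y3 ∧ y3 ≤ M) →
      (0 < y4 ∧ y4 ≤ M) → y1 + y2 = y3 + y4 → gv D y1 + gv D y2 = gv D y3 + gv D y4 →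
      y3 < y2 → y4 < y2 → False := by
    intro y1 y2 y3 y4 a1 a2 a3 a4 hs' hgv' b3 b4
    obtain ⟨t, ht, c1, c2, c3⟩ := exists_mult (e := max y3 y4) (d := y2) hR hR0 hMR
      (max_lt b3 b4) a2.2
    have hnd : ∀ {y : ℕ}, (0 < y ∧ y ≤ M) → ¬ (D : ℤ) ∣ (y : ℤ) := fun hy =>
      not_dvd_nat hy.1 (by omega)
    have htc : IsCoprime (t : ℤ) (D : ℤ) := Nat.isCoprime_iff_coprime.2 ht
    have hsum : (D : ℤ) ∣ ((y1 : ℤ) + (y2 : ℤ)) - ((y3 : ℤ) + (y4 : ℤ)) := by
      have : ((y1 : ℤ) + (y2 : ℤ)) - ((y3 : ℤ) + (y4 : ℤ)) = 0 := by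
        have : (y1 : ℤ) + y2 = y3 + y4 := by exact_mod_cast hs'
        linarith
      rw [this]
      exact dvd_zero _
    have h5 := same_bb (P := P) hD hDe hW hF (hnd a1) (hnd a2) (hnd a3) (hnd a4) hsum hgv' t htc
    have e3 : t * y3 < D := (Nat.mul_le_mul_left t (le_max_left _ _)).trans_lt c2
    have e4 : t * y4 < D := (Nat.mul_le_mul_left t (le_max_right _ _)).trans_lt c2
    have e1 : t * y1 < D := (Nat.mul_le_mul_left t (show y1 ≤ y3 by omega)).trans_lt e3
    unfold bb at h5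
    have g1 := fr_small e1
    have g2 := fr_mid c1 c3
    have g3 := fr_small e3
    have g4 := fr_small e4
    push_cast at g1 g2 g3 g4
    rw [g1, g2, g3, g4] at h5
    have h0 : (D : ℚ) ≠ 0 := by
      have : D ≠ 0 := by omega
      exact_mod_cast this
    have h6 : (y1 : ℚ) + y2 = y3 + y4 := by exact_mod_cast hs'
    have h7 : (t : ℚ) * y1 / D + t * y2 / D = t * y3 / D + t * y4 / D := by
      rw [← add_div, ← add_div, ← mul_add, ← mul_add, h6]
    linarith
  by_contra hcon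
  rw [not_or] at hcon
  obtain ⟨n1, n2⟩ := hcon
  rcases lt_or_ge x3 x2 with c | c
  · rcases lt_or_ge x4 x2 with c' | c'
    · exact key h1 h2 h3 h4 hs hgv c c'
    · -- x4 ≥ x2, x4 ≠ x2, so x4 > x2 > x3 and x3 < x1 < x4... 
      exact key h3 h4 h1 h2 hs.symm hgv.symm (by omega) (by omega)
  · -- x3 ≥ x2
    rcases lt_or_ge x3 x1 with c' | c'
    · -- x1 is the largest or x4 is
      rcases lt_or_ge x4 x1 with c'' | c''
      · exact key h2 h1 h3 h4 (by omega) (by rw [add_comm (gv D x2)]; exact hgv) c' c''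
      · exact key h3 h4 h1 h2 hs.symm hgv.symm (by omega) (by omega)
    · exact key h4 h3 h1 h2 (by omega) (by rw [add_comm (gv D x4)]; exact hgv.symm) (by omega)
        (by omega)

open Classical in
/-- The classes are small. -/
theorem card_small {R M : ℕ} (hD : 2 < D) (hDe : P.Deligne) (hW : Wustholz P)
    (hF : FermatPeriods P) (hR : ∀ p : ℕ, p.Prime → p ∣ D → p ∣ R) (hR0 : 0 < R)
    (hMR : M * M * R < D) (w : VV) : ((Finset.Icc 1 M).filter (fun x : ℕ => gv D x = w)).card ≤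
      Nat.sqrt (4 * M) + 1 := by
  have h0 := card_sidon (2 * M + 1) ((Finset.Icc 1 M).filter (fun x : ℕ => gv D x = w))
    (fun x hx => ?_) ?_
  · have h1 : 2 * (2 * M + 1 - 1) = 4 * M := by omega
    rwa [h1] at h0
  · have := Finset.mem_Icc.1 (Finset.mem_filter.1 hx).1
    omega
  · intro x1 hx1 x2 hx2 x3 hx3 x4 hx4 hs hsum
    obtain ⟨a1, b1⟩ := Finset.mem_filter.1 hx1
    obtain ⟨a2, b2⟩ := Finset.mem_filter.1 hx2
    obtain ⟨a3, b3⟩ := Finset.mem_filter.1 hx3
    obtain ⟨a4, b4⟩ := Finset.mem_filter.1 hx4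
    rw [Finset.mem_Icc] at a1 a2 a3 a4
    rw [Nat.mod_eq_of_lt (by omega), Nat.mod_eq_of_lt (by omega)] at hsum
    exact sidon_small (P := P) (R := R) (M := M) hD hDe hW hF hR hR0 hMR ⟨by omega, a1.2⟩
      ⟨by omega, a2.2⟩ ⟨by omega, a3.2⟩ ⟨by omega, a4.2⟩ hsum (by rw [b1, b2, b3, b4])

/-- The Gamma values at the small multiples of `1 / D` which are algebraic multiples of `z`. -/
theorem count_small {R M : ℕ} (hDe : P.Deligne) (hW : Wustholz P)
    (hF : FermatPeriods P) (hM : 0 < M) (hR : ∀ p : ℕ, p.Prime → p ∣ D → p ∣ R) (hR0 : 0 < R)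
    (hMR : M * M * R < D) (z : ℂ) :
    {d : ℕ | 0 < d ∧ d ≤ M ∧ ∃ α : ℂ, IsAlgebraic ℚ α ∧
      Complex.Gamma ((d : ℂ) / D) = α * z}.ncard ≤ Nat.sqrt (4 * M) + 1 := by
  classical
  rcases Nat.lt_or_ge 2 D with hD | hD
  · have hMD : M < D := by
      have h5 : M ≤ M * M := Nat.le_mul_of_pos_left M hM
      have h6 : M * M ≤ M * M * R := Nat.le_mul_of_pos_right _ hR0
      omega
    refine le_trans ?_ (card_small (P := P) hD hDe hW hF hR hR0 hMR
      ((2 : ℤ) • lg z - (1 : ℤ) • lg Real.pi))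
    rw [← Set.ncard_coe_finset]
    refine Set.ncard_le_ncard ?_ (Finset.finite_toSet _)
    rintro n ⟨h1, h2, h3⟩
    rw [Finset.mem_coe, Finset.mem_filter, Finset.mem_Icc]
    refine ⟨⟨h1, h2⟩, ?_⟩
    have h4 := gamma_class' (D := D) hD (r := 1) (n := fun _ => n) (z := z)
      (fun _ => ⟨h1, by omega⟩) (by simpa using h3)
    simpa using h4
  · have h1 : M ≤ 1 := by
      by_contra h
      have h5 : 2 * 2 ≤ M * M := Nat.mul_le_mul (by omega) (by omega)
      have h6 : M * M ≤ M * M * R := Nat.le_mul_of_pos_right _ hR0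
      omega
    have h2 : {d : ℕ | 0 < d ∧ d ≤ M ∧ ∃ α : ℂ, IsAlgebraic ℚ α ∧
      Complex.Gamma ((d : ℂ) / D) = α * z} ⊆ {1} := by
      rintro d ⟨a, b, -⟩
      rw [Set.mem_singleton_iff]
      omega
    refine (Set.ncard_le_ncard h2 (Set.finite_singleton _)).trans ?_
    rw [Set.ncard_singleton]
    omega

end

end Run7.h8.RO
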