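import Pool.Agent.Run7.h8.RO.Sub
import Pool.Agent.H340R2.LW

/-!
# The Galois stable form of Rohrlich's conjecture
-/

set_option autoImplicit false
set_option linter.unusedSectionVars false
set_option linter.unusedVariables false

namespace Run7.h8.RO

open Pool.Agent.W547.KB Pool.Agent.W537.PC Pool.Agent.W527.Vec

noncomputable section

variable {D : ℕ} {r : ℕ} {a : Fin r → ℚ} {n : Fin r → ℤ} {P : PeriodSystem}

theorem lg_pi_ne : lg (Real.pi : ℂ) ≠ 0 := by
  intro h
  have h1 : (Real.pi : ℂ) ≠ 0 := by exact_mod_cast Real.pi_ne_zero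
  exact Pool.Agent.H340R2.LW.transcendental_pi_complex (algebraic_of_lg h1 h)

theorem lG_pos_int {m : ℕ} (hm : 0 < m) : lG (m : ℚ) = 0 := by
  obtain ⟨k, rfl⟩ : ∃ k, m = k + 1 := ⟨m - 1, by omega⟩
  unfold lG
  have h1 : (((k + 1 : ℕ) : ℚ) : ℂ) = (k : ℂ) + 1 := by push_cast; rfl
  rw [h1, Complex.Gamma_nat_eq_factorial]
  exact lg_algebraic (isAlgebraic_natCast _) (by exact_mod_cast (Nat.factorial_pos k).ne')

/-- The number of integers among the entries is zero if the relations are algebraic. -/
theorem no_int_aux {r : ℕ} (S : Finset (Fin r)) (x : Fin r → VV)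
    (hS : ∀ i, i ∉ S → x i = 0) (hx : ∀ i, i ∈ S → x i = lg Real.pi)
    (h : (2 : ℤ) • ∑ i, x i = (2 * r : ℤ) • lg Real.pi) : S = Finset.univ := by
  classical
  have h1 : ∑ i, x i = (S.card : ℤ) • lg (Real.pi : ℂ) := by
    rw [← Finset.sum_subset (Finset.subset_univ S) (fun i _ hi => hS i hi),
      Finset.sum_congr rfl hx, Finset.sum_const, natCast_zsmul]
  rw [h1, smul_smul, ← sub_eq_zero, ← sub_smul] at h
  by_contra hne
  have h2 : S.card < r := by
    have h3 := Finset.card_lt_card (Finset.ssubset_univ_iff.2 hne)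
    simpa using h3
  have h3 : (2 * (S.card : ℤ) - 2 * (r : ℤ)) ≠ 0 := by omega
  exact lg_pi_ne (zsmul_eq_zero' h3 h)

theorem pos_of_int (ha : Good a) {i : Fin r} {y : ℤ} (h : a i = y) : ∃ m : ℕ, 0 < m ∧ a i = m := by
  have h1 : 0 < y := by
    by_contra h2
    obtain ⟨k, hk⟩ := Int.eq_ofNat_of_zero_le (show 0 ≤ -y by omega)
    apply ha i k
    rw [h]
    have h3 : y = -(k : ℤ) := by omega
    rw [h3]
    push_cast
    rfl
  obtain ⟨k, hk⟩ := Int.eq_ofNat_of_zero_le h1.le
  refine ⟨k, by omega, ?_⟩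
  rw [h, hk]
  push_cast
  rfl

theorem int_iff (hD : 0 < D) (h : Num D a n) (i : Fin r) : (∃ y : ℤ, a i = y) ↔ (D : ℤ) ∣ n i := by
  have h0 : (D : ℚ) ≠ 0 := by exact_mod_cast hD.ne'
  constructor
  · rintro ⟨y, hy⟩
    rw [h i, div_eq_iff h0] at hy
    exact ⟨y, by
      have : n i = y * D := by exact_mod_cast hy
      rw [this, mul_comm]⟩
  · rintro ⟨y, hy⟩
    refine ⟨y, ?_⟩
    rw [h i, hy]
    push_cast
    field_simp

theorem good_mul (hD : 2 < D) (h : Num D a n) (ha : Good a) {m : ℕ} (hm : m.Coprime D) :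
    Good (fun i => (m : ℚ) * a i) := by
  have hD0 : 0 < D := by omega
  have hm0 : 0 < m := by
    rcases Nat.eq_zero_or_pos m with h1 | h1
    · rw [h1, Nat.coprime_zero_left] at hm
      omega
    · exact h1
  intro i k hk
  by_cases hi : (D : ℤ) ∣ n i
  · obtain ⟨y, hy⟩ := (int_iff hD0 h i).2 hi
    obtain ⟨l, hl, hl'⟩ := pos_of_int ha hy
    simp only at hk
    rw [hl'] at hk
    have h1 : (0 : ℚ) < (m : ℚ) * l := by positivity
    have h2 : -(k : ℚ) ≤ 0 := by
      have : (0 : ℚ) ≤ k := by positivity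
      linarith
    linarith
  · -- not an integer
    have h0 : (D : ℚ) ≠ 0 := by exact_mod_cast hD0.ne'
    simp only at hk
    rw [h i, ← mul_div_assoc, div_eq_iff h0] at hk
    have h2 : (m : ℤ) * n i = -(k : ℤ) * D := by exact_mod_cast hk
    exact not_dvd_of_coprime (Nat.isCoprime_iff_coprime.2 hm) hi ⟨-k, by rw [h2, mul_comm]⟩

/-- **The Galois stable form of Rohrlich's conjecture.** -/
theorem stable (hD : 2 < D) (hDe : P.Deligne) (hW : Wustholz P) (hF : FermatPeriods P)
    (hDa : ∀ i, ∃ y : ℤ, (D : ℚ) * a i = y) (ha : Good a) :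
    (∀ m : ℕ, 1 ≤ m → m < D → m.Coprime D → AlgMultiple (fun i => (m : ℚ) * a i)) ↔
      Identity D a := by
  classical
  have hD0 : 0 < D := by omega
  have : NeZero D := ⟨by omega⟩
  obtain ⟨n, h⟩ := exists_num hD0 hDa
  have hc1 : (D - 1).Coprime D := by
    have h1 : IsCoprime ((D : ℤ) - 1) (D : ℤ) := ⟨-1, 1, by ring⟩
    rw [← Nat.isCoprime_iff_coprime]
    have h2 : ((D - 1 : ℕ) : ℤ) = (D : ℤ) - 1 := by omega
    rw [h2]
    exact h1
  constructor
  · intro hal
    -- there are no integers
    have hni : ∀ i, ¬ (D : ℤ) ∣ n i := by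
      have h1 := (alg_iff (good_mul hD h ha (Nat.coprime_one_left D))).1
        (hal 1 le_rfl (by omega) (Nat.coprime_one_left D))
      have h2 := (alg_iff (good_mul hD h ha hc1)).1 (hal (D - 1) (by omega) (by omega) hc1)
      let S : Finset (Fin r) := Finset.univ.filter fun i => ¬ (D : ℤ) ∣ n i
      have h3 := no_int_aux S (fun i => lG (((1 : ℕ) : ℚ) * a i) + lG (((D - 1 : ℕ) : ℚ) * a i))
        (by
        intro i hi
        have hi' : (D : ℤ) ∣ n i := by
          by_contra h4
          exact hi (Finset.mem_filter.2 ⟨Finset.mem_univ _, h4⟩)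
        obtain ⟨y, hy⟩ := (int_iff hD0 h i).2 hi'
        obtain ⟨l, hl, hl'⟩ := pos_of_int ha hy
        have e1 : ((1 : ℕ) : ℚ) * a i = ((l : ℕ) : ℚ) := by rw [hl']; push_cast; ring
        have e2 : ((D - 1 : ℕ) : ℚ) * a i = (((D - 1) * l : ℕ) : ℚ) := by rw [hl']; push_cast; ring
        rw [e1, e2, lG_pos_int hl, lG_pos_int (Nat.mul_pos (by omega) hl), add_zero])
        (by
        intro i hi
        have hi' : ¬ (D : ℤ) ∣ n i := (Finset.mem_filter.1 hi).2
        have hx : ∀ y : ℤ, a i ≠ y := fun y hy => hi' ((int_iff hD0 h i).1 ⟨y, hy⟩)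
        have hx2 : ∀ y : ℤ, ((D - 1 : ℕ) : ℚ) * a i ≠ y := by
          intro y hy
          have h5 : a i = ((n i - y : ℤ) : ℚ) := by
            have h0 : (D : ℚ) ≠ 0 := by exact_mod_cast hD0.ne'
            have h6 : (D : ℚ) * a i = n i := by rw [h i]; field_simp
            have h7 : ((D - 1 : ℕ) : ℚ) = (D : ℚ) - 1 := by
              rw [Nat.cast_sub (by omega)]
              push_cast
              rfl
            rw [h7] at hy
            push_cast
            linarith
          exact hx _ h5
        rw [Nat.cast_one, one_mul, ← lG_fract hx, ← lG_fract hx2, ← lG_refl (x := Int.fract (a i))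
          (fun y hy => by
            have h6 := Int.fract_lt_one (a i)
            have h7 := Int.fract_nonneg (a i)
            rw [hy] at h6 h7
            have h8 : y < 1 := by exact_mod_cast h6
            have h9 : 0 ≤ y := by exact_mod_cast h7
            have h10 : y = 0 := by omega
            rw [h10, Int.cast_zero, Int.fract_eq_zero_iff] at hy
            obtain ⟨k, hk⟩ := hy
            exact hx k hk.symm)]
        congr 2
        have h5 : ((D - 1 : ℕ) : ℚ) * a i = -(a i) + (n i : ℤ) := by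
          have h0 : (D : ℚ) ≠ 0 := by exact_mod_cast hD0.ne'
          have h6 : (D : ℚ) * a i = n i := by rw [h i]; field_simp
          have h7 : ((D - 1 : ℕ) : ℚ) = (D : ℚ) - 1 := by
            rw [Nat.cast_sub (by omega)]
            push_cast
            rfl
          rw [h7]
          linarith
        rw [h5, Int.fract_add_intCast, Int.fract_neg]
        intro h6
        rw [Int.fract_eq_zero_iff] at h6
        obtain ⟨k, hk⟩ := h6
        exact hx k hk.symm)
        (by
        rw [Finset.sum_add_distrib, smul_add, h1, h2, ← add_smul]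
        congr 1
        ring)
      intro i
      have h4 : i ∈ S := by rw [h3]; exact Finset.mem_univ _
      exact (Finset.mem_filter.1 h4).2
    refine subgroup_rel hD hDe hW hF h hni ⊤ (Subgroup.mem_top _) ?_ ?_
    · intro v w
      right; right
      refine ⟨w⁻¹ * v, Subgroup.mem_top _, fun u _ => ?_⟩
      rw [← mul_assoc, mul_inv_cancel_left]
    · intro u _
      obtain ⟨h1, h2⟩ := vl_spec hD u
      exact Or.inl (hal _ h1 h2 (vl_coprime u))
  · intro hid
    -- there are no integers
    have hni : ∀ i, ¬ (D : ℤ) ∣ n i := by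
      have h1 := hid 1 le_rfl (by omega) (Nat.coprime_one_left D)
      have h2 := hid (D - 1) (by omega) (by omega) hc1
      have h3 : ∑ i : Fin r, (Int.fract (((1 : ℕ) : ℚ) * a i) +
          Int.fract (((D - 1 : ℕ) : ℚ) * a i)) = ∑ i : Fin r, (1 : ℚ) := by
        rw [Finset.sum_add_distrib, h1, h2]
        simp
      have h4 : ∀ i ∈ (Finset.univ : Finset (Fin r)), Int.fract (((1 : ℕ) : ℚ) * a i) +
          Int.fract (((D - 1 : ℕ) : ℚ) * a i) ≤ 1 ∧ ((D : ℤ) ∣ n i →
          Int.fract (((1 : ℕ) : ℚ) * a i) + Int.fract (((D - 1 : ℕ) : ℚ) * a i) = 0) := by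
        intro i _
        have h0 : (D : ℚ) ≠ 0 := by exact_mod_cast hD0.ne'
        have h5 : ((D - 1 : ℕ) : ℚ) * a i = -(a i) + (n i : ℤ) := by
          have h6 : (D : ℚ) * a i = n i := by rw [h i]; field_simp
          have h7 : ((D - 1 : ℕ) : ℚ) = (D : ℚ) - 1 := by
            rw [Nat.cast_sub (by omega)]
            push_cast
            rfl
          rw [h7]
          linarith
        rw [h5, Int.fract_add_intCast, Nat.cast_one, one_mul]
        by_cases hi : Int.fract (a i) = 0
        · have h6 : Int.fract (-(a i)) = 0 := by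
            rw [Int.fract_eq_zero_iff] at hi ⊢
            obtain ⟨k, hk⟩ := hi
            exact ⟨-k, by push_cast; rw [hk]⟩
          rw [hi, h6]
          exact ⟨by norm_num, fun _ => by norm_num⟩
        · rw [Int.fract_neg hi]
          refine ⟨by linarith, fun h6 => ?_⟩
          exfalso
          obtain ⟨y, hy⟩ := (int_iff hD0 h i).2 h6
          apply hi
          rw [hy, Int.fract_intCast]
      intro i hi
      have h5 := (Finset.sum_eq_sum_iff_of_le (fun i hi' => (h4 i hi').1)).1 h3 i
        (Finset.mem_univ _)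
      rw [(h4 i (Finset.mem_univ _)).2 hi] at h5
      norm_num at h5
    intro m hm1 hm2 hm
    refine (alg_iff_gv hD0 (h.mul m) (fun i y => nonint_mul hD0 h hni hm i y)).2 ?_
    have h1 := (identity_iff hD h).1 hid
    have h2 := conv hD hDe hF (fun i => (m : ℤ) * n i)
      (fun i => not_dvd_of_coprime (Nat.isCoprime_iff_coprime.2 hm) (hni i)) (fun _ => 1) (by
      intro t ht
      have h3 := h1 (t * m) (ht.mul_left (Nat.isCoprime_iff_coprime.2 hm))
      simpa [mul_assoc] using h3)
    simpa using h2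

end

end Run7.h8.RO
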