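import Pool.Agent.Run7.h8.RO.Main

/-!
# Relations which hold together with their conjugates under a subgroup
-/

set_option autoImplicit false
set_option linter.unusedSectionVars false
set_option linter.unusedVariables false

namespace Run7.h8.RO

open Pool.Agent.W547.KB Pool.Agent.W537.PC Pool.Agent.W527.Vec

noncomputable section

variable {D : ℕ} {r : ℕ} {a : Fin r → ℚ} {n : Fin r → ℤ} {P : PeriodSystem}

/-- The representative of a unit. -/
def vl (v : (ZMod D)ˣ) : ℕ := (v : ZMod D).val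

theorem vl_cast (hD : 0 < D) (v : (ZMod D)ˣ) : ((vl v : ℕ) : ZMod D) = v := by
  have : NeZero D := ⟨hD.ne'⟩
  exact ZMod.natCast_zmod_val _

theorem vl_coprime (v : (ZMod D)ˣ) : (vl v).Coprime D := ZMod.val_coe_unit_coprime v

theorem vl_spec (hD : 2 < D) (v : (ZMod D)ˣ) : 1 ≤ vl v ∧ vl v < D := by
  have : NeZero D := ⟨by omega⟩
  refine ⟨?_, ZMod.val_lt _⟩
  by_contra h
  have h1 : vl v = 0 := by omega
  have h2 := vl_coprime v
  rw [h1, Nat.coprime_zero_left] at h2
  omega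

theorem dvd_of_cast {t t' : ℤ} (h : (t : ZMod D) = (t' : ZMod D)) : (D : ℤ) ∣ t - t' := by
  rw [← ZMod.intCast_zmod_eq_zero_iff_dvd]
  push_cast
  rw [h, sub_self]

/-- The sum of the centred fractional parts. -/
def SE (D : ℕ) (n : Fin r → ℤ) (t : ℤ) : ℚ := ∑ i, bb D (t * n i)

theorem SE_congr (hD : 0 < D) {t t' : ℤ} (h : (t : ZMod D) = (t' : ZMod D)) :
    SE D n t = SE D n t' := by
  unfold SE
  refine Finset.sum_congr rfl fun i _ => bb_eq_of_dvd hD ?_
  rw [← sub_mul]
  exact Dvd.dvd.mul_right (dvd_of_cast h) _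

theorem SE_neg (hD : 0 < D) (hn : ∀ i, ¬ (D : ℤ) ∣ n i) {t : ℤ} (ht : IsCoprime t (D : ℤ)) :
    SE D n (-t) = - SE D n t := by
  unfold SE
  rw [← Finset.sum_neg_distrib]
  refine Finset.sum_congr rfl fun i _ => ?_
  rw [neg_mul, bb_neg hD (not_dvd_of_coprime ht (hn i))]

theorem SE_int (hD : 0 < D) (t : ℤ) : ∃ y : ℤ, 2 * D * SE D n t = y := by
  have hD0 : (D : ℚ) ≠ 0 := by exact_mod_cast hD.ne'
  have h1 : ∀ i, ∃ y : ℤ, 2 * (D : ℚ) * bb D (t * n i) = y := by
    intro i
    refine ⟨2 * (t * n i) - 2 * D * ⌊((t * n i : ℤ) : ℚ) / D⌋ - D, ?_⟩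
    unfold bb fr Int.fract
    push_cast
    field_simp
  choose y hy using h1
  refine ⟨∑ i, y i, ?_⟩
  unfold SE
  rw [Finset.mul_sum]
  push_cast
  exact Finset.sum_congr rfl fun i _ => hy i

theorem Num.mul (h : Num D a n) (m : ℕ) : Num D (fun i => (m : ℚ) * a i) (fun i => (m : ℤ) * n i) := by
  intro i
  simp only
  rw [h i]
  push_cast
  rw [mul_div_assoc]

theorem nonint_mul (hD : 0 < D) (h : Num D a n) (hn : ∀ i, ¬ (D : ℤ) ∣ n i) {m : ℕ}
    (hm : m.Coprime D) (i : Fin r) (y : ℤ) : (m : ℚ) * a i ≠ y := by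
  intro h1
  have h0 : (D : ℚ) ≠ 0 := by exact_mod_cast hD.ne'
  rw [h i, ← mul_div_assoc, div_eq_iff h0] at h1
  have h2 : (m : ℤ) * n i = y * D := by exact_mod_cast h1
  exact not_dvd_of_coprime (Nat.isCoprime_iff_coprime.2 hm) (hn i) ⟨y, by rw [h2, mul_comm]⟩

/-- A relation which holds together with its conjugates under the subgroup `H`, in case that the
restrictions of the sum of the fractional parts to the cosets of `H` are zero or translates of each
other. -/
theorem subgroup_rel (hD : 2 < D) (hDe : P.Deligne) (hW : Wustholz P) (hF : FermatPeriods P)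
    (h : Num D a n) (hn : ∀ i, ¬ (D : ℤ) ∣ n i) (H : Subgroup (ZMod D)ˣ)
    (hH : (-1 : (ZMod D)ˣ) ∈ H)
    (hco : ∀ v w : (ZMod D)ˣ, (∀ u ∈ H, excess a (vl (v * u)) = 0) ∨
      (∀ u ∈ H, excess a (vl (w * u)) = 0) ∨
      ∃ u0 ∈ H, ∀ u ∈ H, excess a (vl (v * u)) = excess a (vl (w * (u0 * u))))
    (halg : ∀ u ∈ H, AlgMultiple (fun i => (vl u : ℚ) * a i) ∨
      AlgMultiple (fun i => (vl (-u) : ℚ) * a i)) : Identity D a := by
  classical
  have hD0 : 0 < D := by omega
  have : NeZero D := ⟨by omega⟩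
  have hE : ∀ v : (ZMod D)ˣ, excess a (vl v) = SE D n (vl v) := fun v => by
    rw [excess_eq h]; rfl
  simp only [hE] at hco
  choose y hy using fun v : (ZMod D)ˣ => SE_int (n := n) hD0 (vl v : ℤ)
  have h2D : (2 * (D : ℚ)) ≠ 0 := by positivity
  -- the relations
  have hgv : ∀ u ∈ H, ∑ i, gv D ((vl u : ℤ) * n i) = 0 := by
    intro u hu
    rcases halg u hu with h1 | h1
    · exact (alg_iff_gv hD0 (h.mul (vl u))
        (fun i y => nonint_mul hD0 h hn (vl_coprime u) i y)).1 h1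
    · have h2 := (alg_iff_gv hD0 (h.mul (vl (-u)))
        (fun i y => nonint_mul hD0 h hn (vl_coprime (-u)) i y)).1 h1
      have h3 : ∀ i, gv D ((vl (-u) : ℤ) * n i) = - gv D ((vl u : ℤ) * n i) := by
        intro i
        have h4 : ¬ (D : ℤ) ∣ (vl u : ℤ) * n i :=
          not_dvd_of_coprime (Nat.isCoprime_iff_coprime.2 (vl_coprime u)) (hn i)
        have h5 := gv_neg hD0 h4
        rw [eq_neg_of_add_eq_zero_right h5 |>.symm]
        refine gv_eq_of_dvd hD0 ?_
        have h6 : (D : ℤ) ∣ (vl (-u) : ℤ) - (-(vl u : ℤ)) := by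
          refine dvd_of_cast ?_
          push_cast
          rw [vl_cast hD0, vl_cast hD0, Units.val_neg]
        have h7 : (vl (-u) : ℤ) * n i - -((vl u : ℤ) * n i) =
            ((vl (-u) : ℤ) - (-(vl u : ℤ))) * n i := by ring
        rw [h7]
        exact Dvd.dvd.mul_right h6 _
      simp only [h3] at h2
      rw [Finset.sum_neg_distrib, neg_eq_zero] at h2
      exact h2
  rw [identity_iff hD h]
  by_contra hcon
  push Not at hcon
  obtain ⟨t0, ht0, hne0⟩ := hcon
  let w : (ZMod D)ˣ := ZMod.unitOfIsCoprime t0 ht0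
  have hw : SE D n (vl w) ≠ 0 := by
    intro h1
    apply hne0
    rw [← h1]
    refine SE_congr hD0 ?_
    push_cast
    rw [vl_cast hD0, ZMod.coe_unitOfIsCoprime]
  -- the function on the subgroup
  let B : H → ℤ := fun u => y (w * u)
  have hyneg : ∀ v : (ZMod D)ˣ, y (-v) = - y v := by
    intro v
    have h1 : SE D n (vl (-v)) = - SE D n (vl v) := by
      rw [← SE_neg hD0 hn (Nat.isCoprime_iff_coprime.2 (vl_coprime v))]
      refine SE_congr hD0 ?_
      push_cast
      rw [vl_cast hD0, vl_cast hD0, Units.val_neg]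
    have h2 : ((y (-v) : ℤ) : ℚ) = ((- y v : ℤ) : ℚ) := by
      rw [← hy, h1]
      push_cast
      rw [← hy]
      ring
    exact_mod_cast h2
  have hodd : ∀ g : H, B ((⟨-1, hH⟩ : H) * g) = - B g := by
    intro g
    simp only [B]
    rw [← hyneg]
    congr 1
    push_cast
    simp
  have hB : B ≠ 0 := by
    intro h1
    have h2 := congrFun h1 (1 : H)
    simp only [B, Pi.zero_apply, OneMemClass.coe_one, mul_one] at h2
    have h3 := hy w
    rw [h2, Int.cast_zero] at h3
    exact hw ((mul_eq_zero.1 h3).resolve_left h2D)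
  obtain ⟨c, N, e, hN, he0, hval, -, hrel⟩ :=
    exists_small' (G := H) (fun x y => mul_comm x y) (⟨-1, hH⟩ : H) B hodd hB
  have hsum : ∀ (t : ℤ) (ht : IsCoprime t (D : ℤ)),
      2 * (D : ℚ) * ∑ k : H × Fin r, c k.1 * bb D (t * ((vl (k.1 : (ZMod D)ˣ) : ℤ) * n k.2)) =
        ((∑ u : H, c u * y (ZMod.unitOfIsCoprime t ht * u) : ℤ) : ℚ) := by
    intro t ht
    rw [Fintype.sum_prod_type, Finset.mul_sum]
    push_cast
    refine Finset.sum_congr rfl fun u _ => ?_
    have h1 : SE D n (vl (ZMod.unitOfIsCoprime t ht * (u : (ZMod D)ˣ))) =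
        SE D n (t * (vl (u : (ZMod D)ˣ) : ℤ)) := by
      refine SE_congr hD0 ?_
      push_cast
      rw [vl_cast hD0, vl_cast hD0, Units.val_mul, ZMod.coe_unitOfIsCoprime]
    rw [← hy, h1]
    unfold SE
    rw [← Finset.mul_sum]
    simp only [mul_assoc]
    ring
  have hcase : ∀ v : (ZMod D)ˣ, ∃ e' : ℤ, (e' = 0 ∨ e' = 1 ∨ e' = -1) ∧
      ∑ u : H, c u * y (v * u) = N * e' := by
    intro v
    rcases hco v w with h1 | h1 | ⟨u0, hu0, h1⟩
    · refine ⟨0, Or.inl rfl, ?_⟩
      rw [mul_zero]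
      refine Finset.sum_eq_zero fun u _ => ?_
      have h2 := hy (v * u)
      rw [h1 u u.2, mul_zero] at h2
      have h3 : y (v * (u : (ZMod D)ˣ)) = 0 := by exact_mod_cast h2.symm
      rw [h3, mul_zero]
    · exfalso
      have h2 := h1 1 H.one_mem
      rw [mul_one] at h2
      exact hw h2
    · refine ⟨e ⟨u0, hu0⟩, hval _, ?_⟩
      rw [← hrel]
      refine Finset.sum_congr rfl fun u _ => ?_
      congr 1
      simp only [B]
      have h2 : ((y (v * (u : (ZMod D)ˣ)) : ℤ) : ℚ) = ((y (w * (u0 * u)) : ℤ) : ℚ) := by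
        rw [← hy, ← hy, h1 u u.2]
      have h3 : y (v * (u : (ZMod D)ˣ)) = y (w * (u0 * u)) := by exact_mod_cast h2
      rw [h3]
      congr 1
      push_cast
      rw [mul_comm u0]
  have hmain := rel hD hDe hW hF (K0 := H × Fin r)
    (fun k => (vl (k.1 : (ZMod D)ˣ) : ℤ) * n k.2)
    (fun k => not_dvd_of_coprime (Nat.isCoprime_iff_coprime.2 (vl_coprime _)) (hn _))
    (fun k => c k.1) (by
    rw [Fintype.sum_prod_type]
    refine Finset.sum_eq_zero fun u _ => ?_
    simp only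
    rw [← Finset.smul_sum, hgv u u.2, smul_zero]) (N : ℤ) (by exact_mod_cast hN.ne') (by
    intro t ht
    obtain ⟨e', he', h1⟩ := hcase (ZMod.unitOfIsCoprime t ht)
    refine ⟨e', he', ?_⟩
    rw [hsum t ht, h1]
    push_cast
    rfl)
  -- the contradiction
  obtain ⟨g, hg⟩ : ∃ g : H, e g ≠ 0 := by
    by_contra h1
    push Not at h1
    exact he0 (funext h1)
  let v : (ZMod D)ˣ := w * g
  have htv : IsCoprime ((vl v : ℕ) : ℤ) (D : ℤ) := Nat.isCoprime_iff_coprime.2 (vl_coprime v)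
  have h1 := hsum _ htv
  rw [hmain _ htv, mul_zero] at h1
  have hv : ZMod.unitOfIsCoprime ((vl v : ℕ) : ℤ) htv = v := by
    ext
    rw [ZMod.coe_unitOfIsCoprime]
    push_cast
    exact vl_cast hD0 v
  rw [hv] at h1
  have h2 : ∑ u : H, c u * y (v * u) = 0 := by exact_mod_cast h1.symm
  have h3 : ∑ u : H, c u * y (v * u) = N * e g := by
    rw [← hrel]
    refine Finset.sum_congr rfl fun u _ => ?_
    congr 1
    simp only [B, v]
    congr 1
    push_cast
    rw [mul_assoc, mul_comm (g : (ZMod D)ˣ)]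
  rw [h2] at h3
  rcases mul_eq_zero.1 h3.symm with h4 | h4
  · exact hN.ne' (by exact_mod_cast h4)
  · exact hg h4

end

end Run7.h8.RO
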